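import Pool.Agent.OIE.St
import Pool.Agent.OID.AD

/-!
# Project OIE, module AD1: generic `p`-adic units among the values of polynomials (helper19)
-/

namespace OIE

open Polynomial OID OID.AD

namespace AD1

theorem pre_countable {K : Type*} [Field K] (P : K[X]) (hP : 1 ≤ P.natDegree) (Z : Set K)
    (hZ : Z.Countable) : {x | P.eval x ∈ Z}.Countable := by
  classical
  have h : {x | P.eval x ∈ Z} ⊆ ⋃ z ∈ Z, {x | (P - C z).eval x = 0} := by
    intro x hx
    refine Set.mem_biUnion hx ?_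
    rw [Set.mem_ofPred_eq, eval_sub, eval_C, sub_self]
  refine (hZ.biUnion fun z _ => ?_).mono h
  have hne : P - C z ≠ 0 := by
    intro h0
    rw [sub_eq_zero.1 h0, natDegree_C] at hP
    omega
  have h1 : {x | (P - C z).eval x = 0} ⊆ ((P - C z).roots.toFinset : Set K) := by
    intro x hx
    rw [Finset.mem_coe, Multiset.mem_toFinset, mem_roots hne]
    exact hx
  exact (Finset.countable_toSet _).mono h1

section loc

variable {p : ℕ} [hp : Fact p.Prime]

theorem point_bad (R : ℚ_[p][X]) (h1 : 1 ≤ R.natDegree) (h0 : ‖R.eval 0‖ = 1) (Z : Set ℚ_[p])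
    (hZ : Z.Countable) : ∃ x, ‖R.eval x‖ = 1 ∧ R.eval x ∉ Z := by
  have hd : Dense {x | R.eval x ∈ Z}ᶜ := (pre_countable R h1 Z hZ).dense_compl ℚ_[p]
  have ho : IsOpen {x : ℚ_[p] | ‖R.eval x - R.eval 0‖ < 1} := by
    refine isOpen_lt ?_ continuous_const
    exact (R.continuous.sub continuous_const).norm
  obtain ⟨x, hx1, hx2⟩ := hd.exists_mem_open ho ⟨0, by
    rw [Set.mem_ofPred_eq, sub_self, norm_zero]
    exact one_pos⟩
  refine ⟨x, ?_, hx1⟩
  have hx3 : ‖R.eval x - R.eval 0‖ < 1 := hx2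
  have h2 : R.eval x = (R.eval x - R.eval 0) + R.eval 0 := by ring
  rw [h2, Padic.add_eq_max_of_ne (by rw [h0]; exact hx3.ne), h0]
  exact max_eq_right hx3.le

theorem point_good (Q : ℚ_[p][X]) (hQ1 : ∀ n, ‖Q.coeff n‖ ≤ 1) (hQ2 : ‖Q.leadingCoeff‖ = 1)
    (hQ3 : 1 ≤ Q.natDegree) (Z : Set ℚ_[p]) (hZ : Z.Countable) (S : Finset (ZMod p))
    (hS : Q.natDegree * (S.card + 1) < p) :
    ∃ (t : ℤ_[p]) (x : ℚ_[p]), Q.eval x = t ∧ ‖(t : ℚ_[p])‖ = 1 ∧ (t : ℚ_[p]) ∉ Z ∧
      PadicInt.toZMod t ∉ S := by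
  classical
  have : NeZero p := ⟨hp.out.ne_zero⟩
  obtain ⟨G, hG⟩ : ∃ G : ℤ_[p][X], G.map (PadicInt.Coe.ringHom (p := p)) = Q := by
    rw [← mem_lifts, lifts_iff_coeff_lifts]
    exact fun n => ⟨⟨Q.coeff n, hQ1 n⟩, rfl⟩
  have hinj : Function.Injective (PadicInt.Coe.ringHom (p := p)) := fun a b h => PadicInt.ext h
  have hcoeff : ∀ n, ((G.coeff n : ℤ_[p]) : ℚ_[p]) = Q.coeff n := fun n => by
    rw [← hG, coeff_map]
    rfl
  set H : (ZMod p)[X] := G.map PadicInt.toZMod with hH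
  have hlead : H.coeff Q.natDegree ≠ 0 := by
    intro h1
    rw [hH, coeff_map, toZMod_zero_iff, PadicInt.norm_def, hcoeff] at h1
    have h2 : ‖Q.coeff Q.natDegree‖ = 1 := hQ2
    rw [h2] at h1
    exact lt_irrefl _ h1
  have hdeg1 : 1 ≤ H.natDegree := hQ3.trans (le_natDegree_of_ne_zero hlead)
  have hdeg2 : H.natDegree ≤ Q.natDegree := by
    calc H.natDegree ≤ G.natDegree := natDegree_map_le
      _ = Q.natDegree := by rw [← hG, natDegree_map_eq_of_injective hinj]
  have hne : ∀ v : ZMod p, H - C v ≠ 0 := by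
    intro v h0
    rw [sub_eq_zero.1 h0, natDegree_C] at hdeg1
    omega
  set Bd : Finset (ZMod p) := (insert 0 S).biUnion fun v => (H - C v).roots.toFinset with hBd
  have hcard : Bd.card < p := by
    calc Bd.card ≤ ∑ v ∈ insert 0 S, (H - C v).roots.toFinset.card := Finset.card_biUnion_le
      _ ≤ ∑ v ∈ insert 0 S, Q.natDegree := Finset.sum_le_sum fun v _ => by
          calc (H - C v).roots.toFinset.card ≤ (H - C v).roots.card :=
                Multiset.toFinset_card_le _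
            _ ≤ (H - C v).natDegree := card_roots' _
            _ ≤ H.natDegree := by rw [natDegree_sub_C]
            _ ≤ Q.natDegree := hdeg2
      _ = (insert 0 S).card * Q.natDegree := by rw [Finset.sum_const, smul_eq_mul]
      _ ≤ (S.card + 1) * Q.natDegree :=
          Nat.mul_le_mul_right _ (Finset.card_insert_le (0 : ZMod p) S)
      _ < p := by rw [mul_comm]; exact hS
  obtain ⟨c, hc⟩ : ∃ c : ZMod p, c ∉ Bd := by
    by_contra hcon
    push Not at hcon
    have h1 : Bd.card = p := by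
      rw [Finset.eq_univ_iff_forall.2 hcon, Finset.card_univ, ZMod.card]
    omega
  have hHc : H.eval c ∉ insert 0 S := by
    intro hmem
    apply hc
    rw [hBd, Finset.mem_biUnion]
    refine ⟨H.eval c, hmem, ?_⟩
    rw [Multiset.mem_toFinset, mem_roots (hne _), IsRoot.def, eval_sub, eval_C, sub_self]
  rw [Finset.mem_insert, not_or] at hHc
  obtain ⟨c0, rfl⟩ := ZMod.ringHom_surjective (PadicInt.toZMod (p := p)) c
  have hd : Dense {x | Q.eval x ∈ Z}ᶜ := (pre_countable Q hQ3 Z hZ).dense_compl ℚ_[p]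
  obtain ⟨x, hx1, hx2⟩ := hd.exists_mem_open (U := Metric.ball (c0 : ℚ_[p]) 1)
    Metric.isOpen_ball ⟨c0, Metric.mem_ball_self one_pos⟩
  rw [Metric.mem_ball, dist_eq_norm] at hx2
  have hle : ‖x‖ ≤ 1 := by
    have h3 : x = (x - c0) + c0 := by ring
    rw [h3]
    refine (Padic.nonarchimedean _ _).trans (max_le hx2.le ?_)
    exact PadicInt.norm_le_one c0
  have hz : PadicInt.toZMod (⟨x, hle⟩ : ℤ_[p]) = PadicInt.toZMod c0 := by
    rw [← sub_eq_zero, ← map_sub, toZMod_zero_iff, PadicInt.norm_def]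
    exact hx2
  have hev : Q.eval x = ((G.eval (⟨x, hle⟩ : ℤ_[p]) : ℤ_[p]) : ℚ_[p]) := by
    rw [← hG, eval_map]
    exact eval₂_at_apply (PadicInt.Coe.ringHom (p := p)) (⟨x, hle⟩ : ℤ_[p])
  have hred : PadicInt.toZMod (G.eval (⟨x, hle⟩ : ℤ_[p])) = H.eval (PadicInt.toZMod c0) := by
    rw [← hz, hH, eval_map, eval₂_at_apply]
  refine ⟨G.eval (⟨x, hle⟩ : ℤ_[p]), x, hev, ?_, ?_, ?_⟩
  · have h5 := hHc.1
    rw [← hred, toZMod_zero_iff, not_lt] at h5
    exact le_antisymm (PadicInt.norm_le_one _) h5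
  · rw [← hev]
    exact hx1
  · rw [hred]
    exact hHc.2

end loc

end AD1

open AD1 in
theorem t_AD1 : S_AD1 := by
  classical
  intro A hcount hA Q R hQ hR
  have : Countable A := hcount.to_subtype
  have hcp : Countable A[X] := by
    rw [← Cardinal.mk_le_aleph0_iff]
    exact cardinalMk_le_max.trans (max_le (Cardinal.mk_le_aleph0_iff.2 inferInstance) le_rfl)
  obtain ⟨e, he⟩ := exists_surjective_nat A[X]
  let s : ℕ → ℕ := fun i => ∑ j ∈ Finset.range (i + 1), ((e j).natDegree + 1)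
  have hs : ∀ i, i + 1 ≤ s i := by
    intro i
    calc i + 1 = ∑ j ∈ Finset.range (i + 1), 1 := by simp
      _ ≤ s i := Finset.sum_le_sum fun j _ => by omega
  set D := Q.natDegree with hD
  -- the choice for one prime
  have hex : ∀ p : Nat.Primes, ∃ t : ℚ_[(p : ℕ)], ‖t‖ = 1 ∧
      ((∃ x, t = aeval x Q) ∨ ∃ x, t = (R p).eval x) ∧
      (∀ g : A[X], g ≠ 0 → (g.map (pr A p)).eval t ≠ 0) ∧
      ((∀ n ∈ Q.support, ‖((Q.coeff n : ℚ) : ℚ_[(p : ℕ)])‖ = 1) →
        ∀ i, D * (s i + 1) < p → Ok ((e i).map (pr A p)) →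
          ‖((e i).map (pr A p)).eval t‖ = 1) := by
    intro p
    have hb : ∀ i, ∃ S : Finset (ZMod p), S.card ≤ (e i).natDegree ∧
        (Ok ((e i).map (pr A p)) → ∀ t : ℤ_[(p : ℕ)], PadicInt.toZMod t ∉ S →
          ‖((e i).map (pr A p)).eval (t : ℚ_[(p : ℕ)])‖ = 1) := by
      intro i
      by_cases hok : Ok ((e i).map (pr A p))
      · obtain ⟨S, hS1, hS2⟩ := bad _ hok
        exact ⟨S, hS1.trans natDegree_map_le, fun _ => hS2⟩
      · exact ⟨∅, by simp, fun h => absurd h hok⟩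
    choose S hS1 hS2 using hb
    let I : Finset ℕ := (Finset.range p).filter fun i => D * (s i + 1) < p
    have hI : ∀ i, D * (s i + 1) < (p : ℕ) → i ∈ I := fun i hi => by
      have h1 := hs i
      have h2 : 1 * (s i + 1) ≤ D * (s i + 1) := Nat.mul_le_mul_right _ hQ
      exact Finset.mem_filter.2 ⟨Finset.mem_range.2 (by omega), hi⟩
    have hcard : I.Nonempty → D * ((I.biUnion S).card + 1) < p := by
      intro h0
      have hmem := Finset.max'_mem I h0
      have hlt := (Finset.mem_filter.1 hmem).2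
      have hle : (I.biUnion S).card ≤ s (I.max' h0) := by
        refine Finset.card_biUnion_le.trans ?_
        calc ∑ i ∈ I, (S i).card ≤ ∑ i ∈ I, ((e i).natDegree + 1) :=
              Finset.sum_le_sum fun i _ => (hS1 i).trans (Nat.le_succ _)
          _ ≤ s (I.max' h0) := by
              refine Finset.sum_le_sum_of_subset fun i hi => ?_
              rw [Finset.mem_range]
              have := Finset.le_max' I i hi
              omega
      exact lt_of_le_of_lt (Nat.mul_le_mul_left _ (by omega)) hlt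
    have hZ : (⋃ g : {g : A[X] // g ≠ 0},
        {x : ℚ_[(p : ℕ)] | (g.1.map (pr A p)).eval x = 0}).Countable := by
      refine Set.countable_iUnion fun g => ?_
      have h1 : {x : ℚ_[(p : ℕ)] | (g.1.map (pr A p)).eval x = 0} ⊆
          ((g.1.map (pr A p)).roots.toFinset : Set ℚ_[(p : ℕ)]) := by
        intro x hx
        rw [Finset.mem_coe, Multiset.mem_toFinset, mem_roots (map_ne A hA p g.1 g.2)]
        exact hx
      exact (Finset.countable_toSet _).mono h1
    by_cases hgood : (∀ n ∈ Q.support, ‖((Q.coeff n : ℚ) : ℚ_[(p : ℕ)])‖ = 1) ∧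
        D * ((I.biUnion S).card + 1) < p
    · obtain ⟨hg1, hg2⟩ := hgood
      set Qp : ℚ_[(p : ℕ)][X] := Q.map (algebraMap ℚ ℚ_[(p : ℕ)]) with hQp
      have hdeg : Qp.natDegree = D := by rw [hQp, natDegree_map]
      have hco : ∀ n ∈ Q.support, ‖Qp.coeff n‖ = 1 := by
        intro n hn
        rw [hQp, coeff_map]
        exact hg1 n hn
      have hq1 : ∀ n, ‖Qp.coeff n‖ ≤ 1 := by
        intro n
        by_cases hn : n ∈ Q.support
        · exact (hco n hn).le
        · rw [hQp, coeff_map, notMem_support_iff.1 hn, map_zero, norm_zero]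
          exact zero_le_one
      have hq2 : ‖Qp.leadingCoeff‖ = 1 := by
        rw [leadingCoeff, hdeg]
        refine hco _ ?_
        have hQ0 : Q ≠ 0 := by
          intro h0
          rw [h0, natDegree_zero] at hD
          omega
        exact natDegree_mem_support_of_nonzero hQ0
      obtain ⟨t, x, hx, ht1, ht2, ht3⟩ := point_good Qp hq1 hq2 (by rw [hdeg]; exact hQ) _ hZ
        (I.biUnion S) (by rw [hdeg]; exact hg2)
      refine ⟨t, ht1, Or.inl ⟨x, ?_⟩, fun g hg h0 => ht2 (Set.mem_iUnion.2 ⟨⟨g, hg⟩, h0⟩),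
        fun _ i hi hok => ?_⟩
      · rw [← hx, hQp, eval_map_algebraMap]
      · exact hS2 i hok t fun hmem => ht3 (Finset.mem_biUnion.2 ⟨i, hI i hi, hmem⟩)
    · obtain ⟨x, hx1, hx2⟩ := point_bad (R p) (hR p).1 (hR p).2 _ hZ
      refine ⟨(R p).eval x, hx1, Or.inr ⟨x, rfl⟩,
        fun g hg h0 => hx2 (Set.mem_iUnion.2 ⟨⟨g, hg⟩, h0⟩), fun hg1 i hi _ => ?_⟩
      exact absurd ⟨hg1, hcard ⟨i, hI i hi⟩⟩ hgood
  choose t ht1 ht2 ht3 ht4 using hex
  refine ⟨t, ht1, ht2, fun g hg x => ⟨fun p => ?_, ?_⟩⟩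
  · rw [aeval_snd]
    exact ht3 p g hg
  · obtain ⟨i, rfl⟩ := he g
    have hfin : ({p : Nat.Primes | (p : ℕ) ≤ D * (s i + 1)} ∪
        ((⋃ n ∈ (e i).support, {p : Nat.Primes | ‖((e i).coeff n : F).2 p‖ ≠ 1}) ∪
        ⋃ n ∈ Q.support, {p : Nat.Primes |
          ‖((algebraMap ℚ A (Q.coeff n) : A) : F).2 p‖ ≠ 1})).Finite := by
      refine Set.Finite.union ?_ (Set.Finite.union ?_ ?_)
      · exact (Set.finite_Iic (D * (s i + 1))).preimage Subtype.val_injective.injOn
      · refine Set.Finite.biUnion (Finset.finite_toSet _) fun n hn => ?_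
        refine (hA _ ((e i).coeff n).2 fun h => ?_).2
        exact (mem_support_iff.1 (Finset.mem_coe.1 hn)) (by simpa using h)
      · refine Set.Finite.biUnion (Finset.finite_toSet _) fun n hn => ?_
        refine (hA _ (algebraMap ℚ A (Q.coeff n)).2 fun h => ?_).2
        have h1 : algebraMap ℚ A (Q.coeff n) = 0 := Subtype.ext h
        have h2 : Q.coeff n = 0 := by
          have h3 : algebraMap ℚ F (Q.coeff n) = 0 := h
          exact (map_eq_zero (algebraMap ℚ F)).1 h3
        exact (mem_support_iff.1 (Finset.mem_coe.1 hn)) h2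
    refine hfin.subset fun p hp => ?_
    by_contra hcon
    rw [Set.mem_union, not_or, Set.mem_union, not_or] at hcon
    obtain ⟨h1, h2, h2'⟩ := hcon
    rw [Set.mem_ofPred_eq, not_le] at h1
    have h3 : ∀ n ∈ (e i).support, ‖((e i).coeff n : F).2 p‖ = 1 := by
      intro n hn
      by_contra h4
      exact h2 (Set.mem_biUnion hn h4)
    have h3' : ∀ n ∈ Q.support, ‖((Q.coeff n : ℚ) : ℚ_[(p : ℕ)])‖ = 1 := by
      intro n hn
      by_contra h4
      refine h2' (Set.mem_biUnion hn ?_)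
      exact h4
    apply hp
    rw [aeval_snd]
    refine ht4 p h3' i h1 ⟨fun n => ?_, ?_⟩
    · rw [coeff_map, pr_apply]
      by_cases hn : n ∈ (e i).support
      · exact (h3 n hn).le
      · rw [notMem_support_iff.1 hn]
        simp
    · obtain ⟨n, hn⟩ := nonempty_support_iff.2 hg
      exact ⟨n, by rw [coeff_map, pr_apply]; exact h3 n hn⟩

end OIE
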