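import Pool.Agent.OIE.St

/-!
# Project OIE, module AD2: generic `p`-adic units among the values of a polynomial
-/

namespace OIE

open Polynomial OID

namespace AD2

theorem nat_pos {K : Type} [Field K] (Q : K[X]) {a b : K} (h : Q.eval a ≠ Q.eval b) :
    1 ≤ Q.natDegree := by
  by_contra hc
  have h0 : Q.natDegree = 0 := by omega
  rw [eq_C_of_natDegree_eq_zero h0, eval_C, eval_C] at h
  exact h rfl

/-- evaluation of a polynomial along a line -/
theorem eval_line {σ : Type} {p : ℕ} [Fact p.Prime] (G : σ → ℚ_[p][X]) (φ : MvPolynomial σ ℚ)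
    (x : ℚ_[p]) : (MvPolynomial.aeval G φ : ℚ_[p][X]).eval x =
      MvPolynomial.aeval (fun j => (G j).eval x) φ := by
  have h := MvPolynomial.comp_aeval_apply (R := ℚ) G
    ((Polynomial.aeval x : ℚ_[p][X] →ₐ[ℚ_[p]] ℚ_[p]).restrictScalars ℚ) φ
  simpa [Polynomial.coe_aeval_eq_eval] using h

theorem aeval_line {σ : Type} {p : ℕ} [Fact p.Prime] (G : σ → ℚ[X]) (φ : MvPolynomial σ ℚ)
    (x : ℚ_[p]) : Polynomial.aeval x (MvPolynomial.aeval G φ : ℚ[X]) =
      MvPolynomial.aeval (fun j => Polynomial.aeval x (G j)) φ :=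
  MvPolynomial.comp_aeval_apply (R := ℚ) G (Polynomial.aeval x : ℚ[X] →ₐ[ℚ] ℚ_[p]) φ

theorem eval_lineQ {σ : Type} (G : σ → ℚ[X]) (φ : MvPolynomial σ ℚ)
    (x : ℚ) : (MvPolynomial.aeval G φ : ℚ[X]).eval x =
      MvPolynomial.eval (fun j => (G j).eval x) φ := by
  have h := MvPolynomial.comp_aeval_apply (R := ℚ) G (Polynomial.aeval x : ℚ[X] →ₐ[ℚ] ℚ) φ
  simpa [Polynomial.coe_aeval_eq_eval, MvPolynomial.aeval_eq_eval] using h

theorem aeval_cast {σ : Type} {p : ℕ} [Fact p.Prime] (w : σ → ℚ) (φ : MvPolynomial σ ℚ) :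
    MvPolynomial.aeval (fun j => (w j : ℚ_[p])) φ = ((MvPolynomial.eval w φ : ℚ) : ℚ_[p]) := by
  have h := MvPolynomial.comp_aeval_apply (R := ℚ) w (Algebra.ofId ℚ ℚ_[p]) φ
  have h2 : ∀ r : ℚ, (Algebra.ofId ℚ ℚ_[p]) r = (r : ℚ_[p]) := fun r => by
    rw [Algebra.ofId_apply]
    exact eq_ratCast _ r
  rw [h2, MvPolynomial.aeval_eq_eval] at h
  have h3 : (fun i => (Algebra.ofId ℚ ℚ_[p]) (w i)) = fun i => (w i : ℚ_[p]) :=
    funext fun i => h2 (w i)
  rw [h3] at h
  exact h.symm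

end AD2

open AD2 in
theorem t_AD2 : M_AD2 := by
  intro hAD1 P A hG σ ι t hι f hf
  classical
  -- `ι f` is not constant
  obtain ⟨v, hv⟩ : ∃ v : σ → ℚ, MvPolynomial.eval v (ι f) ≠ MvPolynomial.eval 0 (ι f) := by
    by_contra hc
    push Not at hc
    set r := MvPolynomial.eval (0 : σ → ℚ) (ι f) with hr
    have h1 : ι f = MvPolynomial.C r := by
      apply MvPolynomial.funext
      intro v
      rw [hc v, MvPolynomial.eval_C]
    have h2 : ((f : F) - algebraMap ℚ F r) = 0 := by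
      by_contra hne
      have hmem : (f : F) - algebraMap ℚ F r ∈ A := sub_mem f.2 (A.algebraMap_mem r)
      have h3 := (hG.nz _ hmem hne).1 ⟨2, Nat.prime_two⟩
      apply h3
      have h4 := hι (f - algebraMap ℚ A r) ⟨2, Nat.prime_two⟩
      have h5 : ι (f - algebraMap ℚ A r) = 0 := by
        rw [map_sub, h1, AlgHom.commutes]
        exact sub_self _
      rw [h5, map_zero] at h4
      exact h4
    obtain ⟨⟨h, hp⟩, _⟩ := hf
    have h3 : (⟨(f : F), h⟩ : A) = algebraMap ℚ A r := Subtype.ext (sub_eq_zero.1 h2)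
    rw [h3] at hp
    by_cases hr0 : r = 0
    · rw [hr0, map_zero] at hp
      exact hp.ne_zero rfl
    · exact hp.not_isUnit ((IsUnit.mk0 r hr0).map (algebraMap ℚ A))
  have hw : ∀ p : Nat.Primes, ∃ w : σ → ℚ,
      MvPolynomial.aeval (t p) (ι f) ≠ MvPolynomial.aeval (fun j => (w j : ℚ_[(p : ℕ)])) (ι f) := by
    intro p
    by_contra hc
    push Not at hc
    have h1 := hc v
    have h2 := hc 0
    rw [aeval_cast] at h1 h2
    have h3 := h1.symm.trans h2
    exact hv (Rat.cast_injective h3)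
  choose w hw using hw
  obtain ⟨y, hy1, hy2, hy3⟩ := hAD1 A hG.cnt hG.nz
    (MvPolynomial.aeval (fun j => C (v j) * X) (ι f))
    (fun p => MvPolynomial.aeval (fun j => C (t p j) + C ((w p j : ℚ_[(p : ℕ)]) - t p j) * X) (ι f))
    (nat_pos _ (a := 1) (b := 0) (by
      rw [eval_lineQ, eval_lineQ]
      have e1 : (fun j => (C (v j) * X : ℚ[X]).eval 1) = v := by
        funext j
        simp
      have e2 : (fun j => (C (v j) * X : ℚ[X]).eval 0) = (0 : σ → ℚ) := by
        funext j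
        simp
      rw [e1, e2]
      exact hv))
    (fun p => by
      have e1 : (fun j => (C (t p j) + C ((w p j : ℚ_[(p : ℕ)]) - t p j) * X :
          ℚ_[(p : ℕ)][X]).eval 1) = fun j => (w p j : ℚ_[(p : ℕ)]) := by
        funext j
        simp
      have e2 : (fun j => (C (t p j) + C ((w p j : ℚ_[(p : ℕ)]) - t p j) * X :
          ℚ_[(p : ℕ)][X]).eval 0) = t p := by
        funext j
        simp
      constructor
      · refine nat_pos _ (a := 0) (b := 1) ?_
        rw [eval_line, eval_line, e1, e2]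
        exact hw p
      · rw [eval_line, e2, ← hι]
        exact hf.2 p)
  have hs : ∀ p : Nat.Primes, ∃ s : σ → ℚ_[(p : ℕ)], MvPolynomial.aeval s (ι f) = y p := by
    intro p
    rcases hy2 p with ⟨x, hx⟩ | ⟨x, hx⟩
    · rw [aeval_line] at hx
      exact ⟨_, hx.symm⟩
    · rw [eval_line] at hx
      exact ⟨_, hx.symm⟩
  choose s hs using hs
  refine ⟨s, fun p => by rw [hs]; exact hy1 p, ?_⟩
  have h5 : (fun p => MvPolynomial.aeval (s p) (ι f)) = y := funext hs
  rw [h5]
  exact hy3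

end OIE
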