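import Pool.Agent.OID.Defs

/-!
# Diophantine correctness, open induction with divisibility, pigeonhole principle, largest prime: definitions

`Tm`, `Fm`, `OpenInduction`, `Pigeonhole`, `IsPr`, `ModelQ` are those of `Pool/Agent/OID/Defs.lean`.
-/

namespace OIE

open OID

/-- If a polynomial equation `p = 0` together with an inequation `g ≠ 0` (integer coefficients) is solvable in `M`
then it is solvable in the integers. -/
def Dio (M : Type) [CommRing M] : Prop :=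
  ∀ (n : ℕ) (p g : MvPolynomial (Fin n) ℤ),
    (∃ x : Fin n → M, MvPolynomial.aeval x p = 0 ∧ MvPolynomial.aeval x g ≠ 0) →
    ∃ z : Fin n → ℤ, MvPolynomial.eval z p = 0 ∧ MvPolynomial.eval z g ≠ 0

/-- The main theorem. -/
def MainStatement : Prop :=
  ∃ (M : Type) (_ : CommRing M) (_ : LinearOrder M) (_ : IsStrictOrderedRing M),
    (∀ x : M, 0 < x → 1 ≤ x) ∧
    ModelQ {x : M // 0 ≤ x} ⟨0, le_rfl⟩ (fun x => ⟨x.1 + 1, add_nonneg x.2 zero_le_one⟩)
      (fun x y => ⟨x.1 + y.1, add_nonneg x.2 y.2⟩) (fun x y => ⟨x.1 * y.1, mul_nonneg x.2 y.2⟩)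
      (fun x y => x.1 ≤ y.1) ∧
    OpenInduction M ∧ Pigeonhole M ∧ Dio M ∧
    IsDomain M ∧ UniqueFactorizationMonoid M ∧
    (∀ (p : ℕ) [Fact p.Prime], ∃ f : M →+* ℤ_[p], Function.Injective f) ∧
    ∃ P : M, (∀ n : ℕ, (n : M) < P) ∧ IsPr P ∧ (∀ y, IsPr y → y ≤ P) ∧ ∀ x : M, ∃ k : ℕ, x < P ^ k

end OIE
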