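import Pool.Agent.OIE.Stmts2

/-!
# Statements of the modules, part 4: the exact pigeonhole principle

A counting function on the bounded tame sets, with values in `M`.
-/

namespace OIE

open Polynomial OID

section

variable {M : Type} [CommRing M] [LinearOrder M]

/-- Segments of arithmetic progressions. -/
def Seg (c e n : M) : Set M := {x | ∃ w, 0 ≤ w ∧ w < n ∧ x = c + e * w}

/-- The elements of `[0, n)` that satisfy none of the conditions of `Q`. -/
def Wn (n : M) (Q : Finset (M × M)) : Set M := {w | 0 ≤ w ∧ w < n ∧ ∀ q ∈ Q, ¬ q.2 ∣ w - q.1}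

/-- Bounded sets. -/
def Bd (S : Set M) : Prop := ∃ c : M, ∀ x ∈ S, |x| ≤ c

/-- A counting function on the bounded tame sets. -/
structure Cnt (N : Set M → M) : Prop where
  seg : ∀ c e n : M, e ≠ 0 → 0 ≤ n → N (Seg c e n) = n
  add : ∀ S T : Set M, TSet S → TSet T → Bd S → Bd T → Disjoint S T → N (S ∪ T) = N S + N T
  aff : ∀ S : Set M, TSet S → Bd S → ∀ (p q r : M) (φ : M → M), p ≠ 0 → q ≠ 0 →
    (∀ x ∈ S, q * φ x = p * x + r) → TSet (φ '' S) ∧ Bd (φ '' S) ∧ N (φ '' S) = N S

end

/-- Relations between segments. Let `k = #I`. In the group ring `ℤ[M]` (`AddMonoidAlgebra ℤ M`, basis `t ^ m`, `m ∈ M`), which acts on the functions `M → ℤ` by translations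
(`t ^ m` maps `F` to `x ↦ F (x - m)`), the function `ind (Seg c e n)` multiplied by `1 - t ^ e` is the finitely supported
function `t ^ c - t ^ (c + e n)` (by `disc`). Multiply the relation by `∏_(j ∈ I) (1 - t ^ (e j))`:
`∑_i α i (t ^ (c i) - t ^ (c i + e i n i)) ∏_(j ≠ i) (1 - t ^ (e j)) = 0` in the group ring. Apply the ring homomorphism to the
power series over the fraction field `K` of `M` (a field of characteristic `0`) with `t ^ m ↦ exp (m X)` (`PowerSeries.rescale m (PowerSeries.exp K)`);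
`exp (u X) - exp (v X) = (u - v) X + …`, so the coefficient of `X ^ k` gives `(∏_j (- e j)) ∑_i α i n i = 0`. (Instead of the action on all functions one may argue
by induction on `#I` with functions `F : M → ℤ` and finitely supported ones: the operator `F ↦ F - F (· - e)`.) -/
def S_LIN : Prop :=
  ∀ (M : Type) [CommRing M] [LinearOrder M] [IsStrictOrderedRing M], (∀ x : M, 0 < x → 1 ≤ x) →
    ∀ (ι : Type) (I : Finset ι) (α : ι → ℤ) (c e n : ι → M), (∀ i ∈ I, e i ≠ 0 ∧ 0 ≤ n i) →
      (∀ x : M, ∑ i ∈ I, (Seg (c i) (e i) (n i)).indicator (fun _ => α i) x = 0) →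
      ∑ i ∈ I, (α i : M) * n i = 0

/-- Elementary facts on segments. (1) reversal: `Seg c e n = Seg (c + e (n - 1)) (-e) n`. (2), (3) the intersection of a segment with
a progression or an interval is a segment (division with remainder; in the UFD `M` the condition `e' ∣ c + e w - c'` on `w` is never satisfied or
is `e' / gcd(e', e) ∣ w - w₁`). (4) the conditions on the parameter. (5) segments are tame and bounded. (6) `Wn n Q` is tame and bounded. (7) affine images. -/
def S_SEG : Prop :=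
  ∀ (M : Type) [CommRing M] [LinearOrder M] [IsStrictOrderedRing M], Alg M →
    (∀ c e n : M, Seg c e n = Seg (c + e * (n - 1)) (-e) n) ∧
    (∀ c e n c' e' : M, e ≠ 0 → e' ≠ 0 → 0 ≤ n →
      ∃ c₁ e₁ n₁ : M, e₁ ≠ 0 ∧ 0 ≤ n₁ ∧ n₁ ≤ n ∧ Seg c e n ∩ {x | e' ∣ x - c'} = Seg c₁ e₁ n₁) ∧
    (∀ c e n b : M, e ≠ 0 → 0 ≤ n →
      (∃ c₁ n₁ : M, 0 ≤ n₁ ∧ n₁ ≤ n ∧ Seg c e n ∩ {x | x < b} = Seg c₁ e n₁) ∧
      ∃ c₁ n₁ : M, 0 ≤ n₁ ∧ n₁ ≤ n ∧ Seg c e n ∩ {x | b < x} = Seg c₁ e n₁) ∧
    (∀ (c e : M) (Q : Finset (M × M)), e ≠ 0 → NZ Q → ∃ Q' : Finset (M × M), NZ Q' ∧ Q'.card ≤ Q.card ∧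
      ∀ w : M, (∀ q ∈ Q, ¬ q.2 ∣ c + e * w - q.1) ↔ ∀ q ∈ Q', ¬ q.2 ∣ w - q.1) ∧
    (∀ c e n : M, e ≠ 0 → TSet (Seg c e n) ∧ Bd (Seg c e n)) ∧
    (∀ (n : M) (Q : Finset (M × M)), NZ Q → TSet (Wn n Q) ∧ Bd (Wn n Q)) ∧
    ∀ (c e n p q r : M) (φ : M → M), e ≠ 0 → p ≠ 0 → q ≠ 0 → 0 ≤ n →
      (∀ x ∈ Seg c e n, q * φ x = p * x + r) → ∃ c₁ e₁ : M, e₁ ≠ 0 ∧ φ '' Seg c e n = Seg c₁ e₁ n

def M_SEG : Prop := S_TBOOL → S_DIV → S_GCD → S_SEG

/-- Normal form of bounded classes. `x₁ ∉ B` is between two elements of `B`; let `s`, `t` be the neighbours of `x₁` in `B`, `E > 0` a generator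
of the intersection of the ideals `(q.2)`, `q ∈ Q`, `q.2 ∣ x₁ - q.1`; the class is the set of the `x` with `s < x < t`, `E ∣ x - x₁` that satisfy none of the other conditions. -/
def S_NF : Prop :=
  ∀ (M : Type) [CommRing M] [LinearOrder M] [IsStrictOrderedRing M], Alg M →
    ∀ (B : Finset M) (Q : Finset (M × M)) (x₁ : M), NZ Q → x₁ ∉ B → (∃ s ∈ B, s < x₁) →
      (∃ t ∈ B, x₁ < t) → ∃ (c E n : M) (Q' : Finset (M × M)), 0 < E ∧ 0 ≤ n ∧ NZ Q' ∧
        {x | Same B Q x₁ x} = (fun w => c + E * w) '' Wn n Q'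

def M_NF : Prop := S_SEG → S_DIV → S_GCD → S_NF

/-- Existence of the counting function. Let `V` be the set of the functions `M → ℤ` that are integral linear combinations
`∑_(i ∈ I) α i * ind (Seg (c i) (e i) (n i))` (`e i ≠ 0`, `0 ≤ n i`); by S_LIN the number `∑ α i n i` depends only on the
function; let `N S` be this number for the indicator function of `S`, and `0` if it is not in `V`. The sets `S` such that
`ind (S ∩ A)` is in `V` for all segments `A` are a Boolean algebra (if `ind (S ∩ A) = ∑ α i ind (A i)` then `ind (T ∩ S ∩ A) = ∑ α i ind (T ∩ A i)`)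
which contains the sets `{x | x < b}`, `{x | b < x}`, `{x | e ∣ x - c}` by S_SEG, hence all tame sets (finite unions of classes; a class is a finite intersection of such
sets and complements). A bounded tame set is its intersection with some `Seg (-c) 1 n`. `aff`: the `x` with `q ∣ p x + r` are a progression (or empty); intersect all segments of the
representation with it and use S_SEG (7); the image is tame, as membership depends only on membership in finitely many segments. -/
def S_CNT : Prop :=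
  ∀ (M : Type) [CommRing M] [LinearOrder M] [IsStrictOrderedRing M], Alg M → ∃ N : Set M → M, Cnt N

def M_CNT : Prop := S_TLOC → S_TBOOL → S_DIV → S_GCD → S_LIN → S_SEG → S_CNT

/-- Density. By induction on `#Q`: (i) `0 ≤ N (Wn n Q)`; (ii) the statement. If `n` is standard then `Wn n Q` is finite and `N` is its
cardinality (singletons are segments with `n = 1`). Let `n` be nonstandard and `w* ∈ Wn n Q`. Let `L` be the product of the standard `|q.2|`, `Q₀` the set of these `q ∈ Q`.
`Wn n Q₀` is the disjoint union of the `Seg r L m_r` over some residues `r` modulo `L`, among them the residue of `w*`; all `m_r ≥ 0` and `L m_r ≥ n - L`.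
Remove the progressions `P_j` of the other `q_1, …, q_k ∈ Q` one after the other: `N (W_j) = N (W_(j-1)) - N (W_(j-1) ∩ P_j)`; `[0, n) ∩ P_j` is a segment with `m_j` elements, `K m_j ≤ n` for
all standard `K` (the modulus and `n` are nonstandard), and `0 ≤ N (W_(j-1) ∩ P_j) ≤ m_j`: in terms of the parameter of the segment these are sets `Wn m_j Q'` with `#Q' < #Q` (S_SEG (4), `Cnt.aff`), use (i);
for the upper bound remove the conditions one after the other, the differences are sets `(A ∩ P) \ …` with fewer conditions. So `N (Wn n Q) ≥ (n - L) / L - k n / K`, `K = 4 L k`. -/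
def S_DEN : Prop :=
  ∀ (M : Type) [CommRing M] [LinearOrder M] [IsStrictOrderedRing M], Alg M → ∀ N : Set M → M, Cnt N →
    ∀ (n : M) (Q : Finset (M × M)), NZ Q → 0 ≤ n →
      0 ≤ N (Wn n Q) ∧ (¬ Std n → (Wn n Q).Nonempty → ∃ C : ℕ, n ≤ C * N (Wn n Q))

def M_DEN : Prop := S_TBOOL → S_DIV → S_GCD → S_SEG → S_DEN

/-- Positivity. A bounded tame set (take `B` with a lower and an upper bound of the set) is a finite disjoint union of classes, which are points or, by S_NF, affine
images of sets `Wn n Q'`. `N = #` for finite sets. Infinite sets have nonstandard `N` as they contain finite sets of any size. -/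
def S_POS : Prop :=
  ∀ (M : Type) [CommRing M] [LinearOrder M] [IsStrictOrderedRing M], Alg M → ∀ N : Set M → M, Cnt N →
    (∀ S, TSet S → Bd S → 0 ≤ N S) ∧ (∀ S, TSet S → Bd S → S.Nonempty → 1 ≤ N S) ∧
    (∀ S T, TSet S → TSet T → Bd T → S ⊆ T → N S ≤ N T) ∧
    (∀ s : Finset M, N s = (s.card : M)) ∧ (∀ S, TSet S → Bd S → Std (N S) → S.Finite) ∧
    ∀ (ι : Type) (I : Finset ι) (S : ι → Set M), (∀ i ∈ I, TSet (S i) ∧ Bd (S i)) →
      (∀ i ∈ I, ∀ j ∈ I, i ≠ j → Disjoint (S i) (S j)) → N (⋃ i ∈ I, S i) = ∑ i ∈ I, N (S i)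

def M_POS : Prop := S_TLOC → S_TBOOL → S_DIV → S_GCD → S_SEG → S_NF → S_DEN → S_POS

/-- Growth. Let `D = natDegree G ≥ 2`, `g` the leading coefficient, `w* ∈ Wn n Q`, `L` the product of the standard `|q.2|`, `q ∈ Q`. If `L ∣ w - w*` then `w` satisfies none of the standard conditions. By S_WIN
there is an `x` such that `x, x + L, …, x + D L` are in `Wn n Q`, so `d Δ = D! g L ^ D` for the alternating sum `Δ ∈ M` of the values of `γ` (`Polynomial.fwdDiff_iter_degree_eq_factorial`,
`fwdDiff_iter_eq_sum_shift`), `Δ ≠ 0`. There are also `h` (`L ∣ h`, `n ≤ C₁ h`) and `x'` with `x', x' + h, …, x' + D h` in `Wn n Q`, so `d Δ' = D! g h ^ D`,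
`|Δ'| ≤ 2 ^ D n'`. So `h ^ D ≤ |Δ| h ^ D = |Δ'| L ^ D ≤ (2 L) ^ D n'`. (Compare the module AFF.) -/
def S_GRO : Prop :=
  ∀ (M : Type) [CommRing M] [LinearOrder M] [IsStrictOrderedRing M], Alg M →
    ∀ (n n' : M) (Q : Finset (M × M)) (γ : M → M) (G : M[X]) (d : M), NZ Q → 0 ≤ n → ¬ Std n →
      (Wn n Q).Nonempty → d ≠ 0 → 2 ≤ G.natDegree →
      (∀ w ∈ Wn n Q, d * γ w = G.eval w ∧ 0 ≤ γ w ∧ γ w < n') → ∃ C : ℕ, n * n ≤ C * n'

def M_GRO : Prop := S_DIV → S_GCD → S_WIN → S_GRO

/-- Sparse images. Let `T` be given by `B'`, `Q'` (with bounds of `T` in `B'`). The sets of the `x ∈ U` with `f x` in a given class are tame (`d f = G` on `U`: use `Alg.roots`, S_TDVD); there are finitely many, so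
one of them, `U₁`, satisfies `N U ≤ r₁ N U₁`. In the same way one class `A ⊆ U₁` (for `B''`, `Q''` defining `U₁`) satisfies `N U₁ ≤ r₂ N A`; by S_NF (it is not a point, as `N A` is nonstandard) it is
the image of `Wn n Q₁` under `w ↦ c + E w`; `N A ≤ n`. The values of `f` on `A` are in one class of `T`, which is the image of some `Wn n' Q₂` under
`w ↦ c' + E' w` (or a point; impossible as `G` has degree `≥ 2`: finitely many `x`): `f (c + E w) = c' + E' γ w` and `d E' γ w = G (c + E w) - d c'`. By S_GRO `n * n ≤ C n'`, so `n'` is nonstandard, by S_DEN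
`n' ≤ C' N (Wn n' Q₂) ≤ C' N T`. So `n * n ≤ C C' N T`, and `N U ≤ r₁ r₂ n`, `n` is nonstandard. -/
def S_BIG : Prop :=
  ∀ (M : Type) [CommRing M] [LinearOrder M] [IsStrictOrderedRing M], Alg M → ∀ N : Set M → M, Cnt N →
    ∀ (U T : Set M) (f : M → M) (G : M[X]) (d : M), TSet U → Bd U → TSet T → Bd T → ¬ Std (N U) →
      d ≠ 0 → 2 ≤ G.natDegree → (∀ x ∈ U, d * f x = G.eval x ∧ f x ∈ T) → ∀ r : ℕ, r * N U < N T

def M_BIG : Prop := S_TLOC → S_TBOOL → S_TDVD → S_GCD → S_SEG → S_NF → S_DEN → S_POS → S_GRO → S_BIG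

/-- The exact pigeonhole principle for tame functions. We may assume `a = b + 1`. Let `f` be given by `B`, `Q`. The classes meet `[0, a)` in finitely many disjoint bounded tame sets `S κ`. If `S κ` is finite, then
`N (f '' S κ) = N (S κ)` by counting. If it is infinite and `natDegree G ≤ 1`, then `d f x = p x + r` on `S κ` with `p ≠ 0` (injectivity), so `f '' S κ` is tame and `N (f '' S κ) = N (S κ)` by `Cnt.aff`. Let `D₁` be the union of
these, `D₂` the union of the others, `T = [0, b) \ f '' D₁`: tame, `N T = b - N D₁ = N D₂ - 1`. If `D₂` is empty, `N T = -1`, a contradiction. Otherwise let `S κ ⊆ D₂` be one with maximal `N (S κ)` (nonstandard by S_POS);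
`N D₂ ≤ r N (S κ)`, and `f` maps `S κ` into `T`, so `r N (S κ) < N T` by S_BIG, a contradiction. -/
def S_XPHP : Prop :=
  ∀ (M : Type) [CommRing M] [LinearOrder M] [IsStrictOrderedRing M], Alg M →
    ∀ (f : M → M) (a b : M), TFun f → 0 ≤ b → b < a →
      ¬ ((∀ x, 0 ≤ x → x < a → 0 ≤ f x ∧ f x < b) ∧
        ∀ x y, 0 ≤ x → x < a → 0 ≤ y → y < a → f x = f y → x = y)

def M_XPHP : Prop := S_TLOC → S_TBOOL → S_CNT → S_SEG → S_POS → S_BIG → S_XPHP

/-- The pigeonhole principle. Terms are tame functions by S_TTERM. -/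
def S_PHP : Prop :=
  ∀ (M : Type) [CommRing M] [LinearOrder M] [IsStrictOrderedRing M], Alg M → Pigeonhole M

def M_PHP : Prop := S_TTERM → S_XPHP → S_PHP

end OIE
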