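import Pool.Agent.OID.Stmts3
import Pool.Agent.OIE.Stmts4
import Pool.Agent.OIE.Defs

/-!
# Statements of the modules of the construction: rings embedded in polynomial rings

`S_X` is proved in the file `Pool/Agent/OIE/X.lean` as `theorem t_X : S_X`, or `theorem t_X : M_X` if `M_X` is
defined (an implication `S_Y → … → S_X`). The notions `F`, `Om`, `Nz`, `Good`, `Ext`, `chart`, … are those of
`Pool/Agent/OID/Stmts3.lean`.
-/

namespace OIE

open Polynomial OID

/-- `A` has a homomorphism to a polynomial ring over `ℚ`, compatible with the `p`-adic components: the `p`-adic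
component of `a` is the value of the polynomial `ι a` at the point `t p`. (It is injective if `Nz A`.) -/
def Emb (A : Subalgebra ℚ F) : Prop :=
  ∃ (σ : Type) (ι : A →ₐ[ℚ] MvPolynomial σ ℚ) (t : ∀ p : Nat.Primes, σ → ℚ_[(p : ℕ)]),
    ∀ (a : A) (p : Nat.Primes), (a : F).2 p = MvPolynomial.aeval (t p) (ι a)

/-- Generic `p`-adic units among the values of nonconstant polynomials. Modify the proof of `OID.t_AD` (file
`Pool/Agent/OID/AD.lean`, lemma `AD.point`). Call `p` good if all coefficients of `Q` are integral at `p` and its leading coefficient is a unit;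
almost all `p` are good. For bad `p` take `y p = (R p).eval x` with `x` so near to `0` that `‖y p‖ = 1`, outside of the countable set of the `x` such that `(R p).eval x` is in the
countable set of the zeros of all `g.map (pr A p)` (`R p` is not constant, so every value has finitely many preimages). For good `p` a value of the reduction of `Q`
modulo `p` is taken at most `deg Q` times, so if `deg Q * (#S + 1) < p` there is a residue class of `x` for which the residue class of `Q(x)` is not `0` and not in `S`; choose `x` in this class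
outside of a countable set as before. Use the polynomials `e i` with `deg Q * (s i + 1) < p`. -/
def S_AD1 : Prop :=
  ∀ A : Subalgebra ℚ F, (A : Set F).Countable → Nz A →
    ∀ (Q : ℚ[X]) (R : ∀ p : Nat.Primes, ℚ_[(p : ℕ)][X]), 1 ≤ Q.natDegree →
      (∀ p, 1 ≤ (R p).natDegree ∧ ‖(R p).eval 0‖ = 1) →
      ∃ y : ∀ p : Nat.Primes, ℚ_[(p : ℕ)], (∀ p, ‖y p‖ = 1) ∧
        (∀ p, (∃ x, y p = aeval x Q) ∨ ∃ x, y p = (R p).eval x) ∧
        ∀ g : A[X], g ≠ 0 → ∀ x : ℝ*,
          (∀ p, (aeval ((x, y) : F) g).2 p ≠ 0) ∧ {p | ‖(aeval ((x, y) : F) g).2 p‖ ≠ 1}.Finite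

/-- Generic `p`-adic units among the values of the polynomial `ι f`, `f` a normal prime. `ι f` is not constant: if `ι f = C r` then `ι (f - r) = 0`, so
`(f - r).2 p = 0`, so `f = r` by `Nz`, but a nonzero rational number is a unit of `A`. Hence (`MvPolynomial.funext`) there is `v : σ → ℚ` such that the values of `ι f` at `v` and at `0`
are different. `Q` is the image of `ι f` under `X j ↦ C (v j) * X`; `Q(0) ≠ Q(1)`. For every `p` the value at `t p` is different from the value at `w`, where `w = 0` or `w = v`; `R p` is the image of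
`ι f` under `X j ↦ C (t p j) + C (w j - t p j) * X`; `R p (0) = f.2 p`, `R p (1) ≠ R p (0)`. Use S_AD1. -/
def S_AD2 : Prop :=
  ∀ (P : F) (A : Subalgebra ℚ F), Good P A → ∀ (σ : Type) (ι : A →ₐ[ℚ] MvPolynomial σ ℚ)
    (t : ∀ p : Nat.Primes, σ → ℚ_[(p : ℕ)]),
    (∀ (a : A) (p : Nat.Primes), (a : F).2 p = MvPolynomial.aeval (t p) (ι a)) →
    ∀ f : A, NPr A f → ∃ s : ∀ p : Nat.Primes, σ → ℚ_[(p : ℕ)],
      (∀ p, ‖MvPolynomial.aeval (s p) (ι f)‖ = 1) ∧
      ∀ g : A[X], g ≠ 0 → ∀ x : ℝ*,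
        (∀ p, (aeval ((x, fun p => MvPolynomial.aeval (s p) (ι f)) : F) g).2 p ≠ 0) ∧
        {p | ‖(aeval ((x, fun p => MvPolynomial.aeval (s p) (ι f)) : F) g).2 p‖ ≠ 1}.Finite

def M_AD2 : Prop := S_AD1 → S_AD2

/-- The trivial ring, and a polynomial ring in one variable (`OID.G.iso`, `MvPolynomial.optionEquivLeft`). -/
def S_EG : Prop :=
  Emb ⊥ ∧ ∀ (A : Subalgebra ℚ F) (y : F), Emb A → (∀ g : A[X], aeval y g = 0 → g = 0) →
    Emb (chart A y 1)

/-- The embedding in step `I`. Let `R = MvPolynomial (σ ⊕ σ) ℚ`, `Y = rename inl (ι f)`, `τ : MvPolynomial σ ℚ → R`, `X j ↦ X (inl j) + Y * X (inr j)`; then `τ φ - rename inl φ` is divisible by `Y`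
for all `φ`, so `τ (ι f) = Y * Z`. The points: `inl j ↦ s p j`, `inr j ↦ (t p j - s p j) / y.2 p`. Let `Ψ : A[X] → R` be the homomorphism given by `τ ∘ ι` and `X ↦ Y`; the value of `Ψ g` at the point is
`(aeval y g).2 p`, so `Ψ` is injective. `r ∈ A'` corresponds to `W ∈ R` if `y ^ m * r = aeval y g` and `Y ^ m * W = Ψ g` for some `m`, `g`. Uniqueness of `W`: injectivity of `aeval y`. Existence: let
`y ^ m r = g(y)`, `z ^ m' r = g'(z)`; by S_I0 `g_(m - j) = g'_(m' + j) f ^ j`, so `W = ∑_(k ≥ m) Ψ(g_k) Y ^ (k - m) + ∑_(1 ≤ j ≤ m) Ψ(g'_(m' + j)) Z ^ j`. -/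
def S_EI : Prop :=
  ∀ (A : Subalgebra ℚ F) [IsDomain A] (y z : F) (f : A) (σ : Type) (ι : A →ₐ[ℚ] MvPolynomial σ ℚ)
    (t s : ∀ p : Nat.Primes, σ → ℚ_[(p : ℕ)]),
    (∀ (a : A) (p : Nat.Primes), (a : F).2 p = MvPolynomial.aeval (t p) (ι a)) →
    (∀ g : A[X], g ≠ 0 → IsUnit (aeval y g)) → f ≠ 0 → y * z = f →
    (∀ p, y.2 p = MvPolynomial.aeval (s p) (ι f)) → Emb (chart A y X ⊓ chart A z X)

def M_EI : Prop := S_I0 → S_EI

/-- The first ring (proof of `OID.t_BASE`). -/
def S_BASE2 : Prop := ∃ (P : F) (A : Subalgebra ℚ F), HP P ∧ Good P A ∧ Emb A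

def M_BASE2 : Prop := S_AD → S_RAT → S_CONV → S_EG → S_BASE2

/-- Adjoining an element near `α` (proof of `OID.t_G`; the new ring is `A` or `chart A y 1`). -/
def S_G2 : Prop :=
  ∀ (P : F) (A : Subalgebra ℚ F), HP P → Good P A → Emb A → ∀ α : ℝ*, (∃ k : ℕ, |α| < Om ^ k) →
    ∃ A', Good P A' ∧ Ext A A' ∧ Emb A' ∧ ∃ a ∈ A', ∃ n : ℕ, |α - a.1| ≤ n

def M_G2 : Prop := S_RL → S_AD → S_RAT → S_CONV → S_EG → S_G2

/-- Splitting a normal prime (proof of `OID.t_I`, where `y.2` is given by S_AD2 instead of S_AD). -/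
def S_I2 : Prop :=
  ∀ (P : F) (A : Subalgebra ℚ F), HP P → Good P A → Emb A → ∀ f, NPr A f → Om < |f.1| →
    ∃ A', Good P A' ∧ Ext A A' ∧ Emb A' ∧ ¬ Pr A' f

def M_I2 : Prop := S_IVT → S_RL → S_AD2 → S_RAT → S_CONV → S_CHART → S_I0 → S_EI → S_I2

/-- The properties of the final ring. -/
structure Fin2 (P : F) (A : Subalgebra ℚ F) : Prop where
  good : Good P A
  small : ∀ q, NPr A q → |q.1| ≤ Om
  near : ∀ g : A[X], g ≠ 0 → ∀ α : ℝ*, (g.map (toR A)).eval α = 0 → ∃ a ∈ A, ∃ n : ℕ, |α - a.1| ≤ n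
  emb : ∀ s : Finset F, (∀ x ∈ s, x ∈ A) → ∃ B : Subalgebra ℚ F, B ≤ A ∧ Emb B ∧ ∀ x ∈ s, x ∈ B

/-- Closing off with dovetailing: a chain `A 0, A 1, …` such that the `i`-th requirement of `A n` is satisfied by some `A m`. -/
def S_CLO2 : Prop := ∃ (P : F) (A : Subalgebra ℚ F), HP P ∧ Fin2 P A

def M_CLO2 : Prop := S_CONV → S_BASE2 → S_G2 → S_I2 → S_TR → S_UNI → S_CLO2

/-- Equations. Let `B ≤ A` contain the `x i`, `ι`, `t` as in `Emb B`. Let `N` be the set of the prime numbers dividing a denominator of a coefficient of some `ι (x i)`, `J` the finite set of the variables of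
the `ι (x i)`. There are infinitely many rational numbers integral outside of `N` and near to given elements of `ℚ_p`, `p ∈ N`; the polynomial `g` evaluated at the `ι (x i)` is not zero (its image under the evaluation at `t p` is
the `p`-adic component of `aeval x g`, which is not `0` by `Nz`), so by `MvPolynomial.funext_set` (infinite sets of values) there is a point `τ : σ → ℚ` integral outside of `N`, so near to `t p` for `p ∈ N` that the values of
the `ι (x i)` are integral at `p` (they are at `t p`), with `g (ι x) (τ) ≠ 0`. The values of the `ι (x i)` at `τ` are integers. -/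
def S_EQN : Prop :=
  ∀ (P : F) (A : Subalgebra ℚ F), Fin2 P A → ∀ (n : ℕ) (p g : MvPolynomial (Fin n) ℤ)
    (x : Fin n → MM A), MvPolynomial.aeval x p = 0 → MvPolynomial.aeval x g ≠ 0 →
    ∃ z : Fin n → ℤ, MvPolynomial.eval z p = 0 ∧ MvPolynomial.eval z g ≠ 0

def M_EQN : Prop := S_RAT → S_EQN

/-- Integer parts (proof of `OID.t_MINT`). -/
def S_MINT2 : Prop :=
  ∀ (P : F) (A : Subalgebra ℚ F), Fin2 P A → ∀ g : (MM A)[X], g ≠ 0 → ∀ α : ℝ*,
    (g.map ((RingHom.fst ℝ* (∀ p : Nat.Primes, ℚ_[(p : ℕ)])).comp (MM A).subtype)).eval α = 0 →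
    ∃ x ∈ MM A, x.1 ≤ α ∧ α < x.1 + 1

def M_MINT2 : Prop := S_RAT → S_CONV → S_RES → S_MINT2

/-- The ring, with its embedding into the hyperreals (proof of `OID.t_RING`). -/
def S_RING2 : Prop :=
  ∃ (M : Type) (_ : CommRing M) (e : M →+* ℝ*) (P : M), Function.Injective e ∧
    (∀ x, 0 < e x → 1 ≤ e x) ∧ IsDomain M ∧ UniqueFactorizationMonoid M ∧
    (∀ g : M[X], g ≠ 0 → ∀ α, (g.map e).eval α = 0 → ∃ x, e x ≤ α ∧ α < e x + 1) ∧
    (∀ q : M, Prime q → |e q| ≤ Om) ∧ Prime P ∧ e P = Om ∧ (∀ x, ∃ k : ℕ, |e x| < Om ^ k) ∧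
    (∀ (p : ℕ) [Fact p.Prime], ∃ f : M →+* ℤ_[p], Function.Injective f) ∧ Dio M

def M_RING2 : Prop := S_RAT → S_CONV → S_CLO2 → S_MUFD → S_MINT2 → S_EQN → S_RING2

/-- The order (proof of `OID.t_ALG`). -/
def S_ALG2 : Prop :=
  ∃ (M : Type) (_ : CommRing M) (_ : LinearOrder M) (_ : IsStrictOrderedRing M), Alg M ∧
    (∀ (p : ℕ) [Fact p.Prime], ∃ f : M →+* ℤ_[p], Function.Injective f) ∧ Dio M ∧
    ∃ P : M, (∀ n : ℕ, (n : M) < P) ∧ IsPr P ∧ (∀ y, IsPr y → y ≤ P) ∧ ∀ x : M, ∃ k : ℕ, x < P ^ k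

def M_ALG2 : Prop := S_IVT → S_RING2 → S_ALG2

/-- The theorem (proof of `OID.t_MAIN`). -/
def M_MAIN2 : Prop := S_TTERM → S_PHP → S_ALG2 → MainStatement

end OIE
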