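import Pool.Agent.OID.BASE
import Pool.Agent.OIE.St

/-!
# The first ring (with the embedding in a polynomial ring)
-/

namespace OIE

open Polynomial OID

open OID.BASE in
theorem t_BASE2 : M_BASE2 := by
  intro hAD hRAT hCONV _
  -- the ring of the rational numbers
  have hbot : ((⊥ : Subalgebra ℚ F) : Set F).Countable := by
    rw [Algebra.coe_bot]
    exact Set.countable_range _
  have hnzbot : Nz ((⊥ : Subalgebra ℚ F) : Set F) := by
    intro a ha h0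
    obtain ⟨r, rfl⟩ := Algebra.mem_bot.1 ha
    have hr : r ≠ 0 := by
      rintro rfl
      exact h0 (map_zero _)
    refine ⟨fun p => ?_, ?_⟩
    · rw [(hRAT.1 r).2 p]
      exact Rat.cast_ne_zero.2 hr
    · have e : {p : Nat.Primes | ‖(algebraMap ℚ F r).2 p‖ ≠ 1} =
          {p : Nat.Primes | ‖(r : ℚ_[(p : ℕ)])‖ ≠ 1} := by
        ext p
        show ‖(algebraMap ℚ F r).2 p‖ ≠ 1 ↔ ‖(r : ℚ_[(p : ℕ)])‖ ≠ 1
        rw [(hRAT.1 r).2 p]
      rw [e]
      exact fin_rat r hr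
  obtain ⟨y, hy1, hy⟩ := hAD ⊥ hbot hnzbot
  obtain ⟨P, hP⟩ : ∃ P : F, P = (Om, y) := ⟨_, rfl⟩
  obtain ⟨φ, hφ⟩ : ∃ φ : ℚ[X] →ₐ[ℚ] F, φ = aeval P := ⟨_, rfl⟩
  have hφ1 : ∀ g : ℚ[X], (φ g).1 = aeval Om g := by
    intro g
    have h1 := Polynomial.aeval_algHom_apply
      (AlgHom.fst ℚ ℝ* (∀ p : Nat.Primes, ℚ_[(p : ℕ)])) P g
    rw [hφ]
    have h2 : (AlgHom.fst ℚ ℝ* (∀ p : Nat.Primes, ℚ_[(p : ℕ)])) P = Om := by
      rw [hP]
      rfl
    rw [h2] at h1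
    exact h1.symm
  have hnz : ∀ g : ℚ[X], g ≠ 0 → (∀ p, (φ g).2 p ≠ 0) ∧ {p | ‖(φ g).2 p‖ ≠ 1}.Finite := by
    intro g hg
    have h1 : g.map (algebraMap ℚ (⊥ : Subalgebra ℚ F)) ≠ 0 := Polynomial.map_ne_zero hg
    have h2 := hy (g.map (algebraMap ℚ (⊥ : Subalgebra ℚ F))) h1 Om
    rw [Polynomial.aeval_map_algebraMap, ← hP, ← hφ] at h2
    exact h2
  have hne : ∀ g : ℚ[X], g ≠ 0 → φ g ≠ 0 := by
    intro g hg h
    have h1 := (hnz g hg).1 ⟨2, Nat.prime_two⟩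
    rw [h] at h1
    exact h1 rfl
  have hinj : Function.Injective φ := by
    rw [injective_iff_map_eq_zero]
    intro g h
    by_contra hg
    exact hne g hg h
  have hX : φ X = P := by rw [hφ, aeval_X]
  have hPm : P ∈ φ.range := ⟨X, hX⟩
  have hNz : Nz (φ.range : Set F) := by
    rintro _ ⟨g, rfl⟩ h0
    exact hnz g fun h => h0 (by rw [h]; exact map_zero φ)
  have hInf : ∀ a ∈ φ.range, Inf a.1 ∨ ∃ r : ℚ, a = algebraMap ℚ F r := by
    rintro _ ⟨g, rfl⟩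
    show Inf (φ g).1 ∨ ∃ r : ℚ, φ g = algebraMap ℚ F r
    rcases Nat.eq_zero_or_pos g.natDegree with h | h
    · right
      refine ⟨g.coeff 0, ?_⟩
      have h1 : g = C (g.coeff 0) := eq_C_of_natDegree_eq_zero h
      rw [hφ]
      exact (congrArg (aeval P) h1).trans (aeval_C _ _)
    · left
      intro n
      rw [hφ1]
      have h0 : g ≠ 0 := by
        rintro rfl
        rw [natDegree_zero] at h
        omega
      exact (infin g.natDegree g rfl h0).2 h n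
  have e : ℚ[X] ≃ₐ[ℚ] φ.range := AlgEquiv.ofInjective φ hinj
  have hUFM : UniqueFactorizationMonoid φ.range :=
    e.toMulEquiv.uniqueFactorizationMonoid inferInstance
  have hφ2 : ∀ (g : ℚ[X]) (p : Nat.Primes), (φ g).2 p = aeval (P.2 p) g := by
    intro g p
    have h1 := Polynomial.aeval_algHom_apply
      ((Pi.evalAlgHom ℚ (fun p : Nat.Primes => ℚ_[(p : ℕ)]) p).comp
        (AlgHom.snd ℚ ℝ* (∀ p : Nat.Primes, ℚ_[(p : ℕ)]))) P g
    rw [hφ]
    exact h1.symm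
  have hEmb : Emb φ.range := by
    refine ⟨Unit, ((aeval (MvPolynomial.X () : MvPolynomial Unit ℚ) :
      ℚ[X] →ₐ[ℚ] MvPolynomial Unit ℚ).comp ((AlgEquiv.ofInjective φ hinj).symm :
        φ.range →ₐ[ℚ] ℚ[X])), fun p _ => P.2 p, ?_⟩
    intro a p
    obtain ⟨g, rfl⟩ := (AlgEquiv.ofInjective φ hinj).surjective a
    have h1 : ((AlgEquiv.ofInjective φ hinj g : φ.range) : F) = φ g := rfl
    rw [h1, hφ2]
    have h2 : ((aeval (MvPolynomial.X () : MvPolynomial Unit ℚ) :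
      ℚ[X] →ₐ[ℚ] MvPolynomial Unit ℚ).comp ((AlgEquiv.ofInjective φ hinj).symm :
        φ.range →ₐ[ℚ] ℚ[X])) (AlgEquiv.ofInjective φ hinj g) =
        aeval (MvPolynomial.X () : MvPolynomial Unit ℚ) g := by
      rw [AlgHom.comp_apply]
      congr 1
      exact (AlgEquiv.ofInjective φ hinj).symm_apply_apply g
    rw [h2, ← Polynomial.aeval_algHom_apply, MvPolynomial.aeval_X]
  refine ⟨P, φ.range, ⟨by rw [hP], fun p => by rw [hP]; exact hy1 p⟩, ⟨?_, hNz, hInf, ?_, ?_, ?_⟩,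
    hEmb⟩
  · have := cnt_poly
    have h1 : (φ.range : Set F) = Set.range φ := rfl
    rw [h1]
    exact Set.countable_range _
  · exact hCONV.2.1 φ.range hNz hInf hUFM
  · rintro _ ⟨g, rfl⟩
    obtain ⟨k, hk⟩ := bound g
    refine ⟨k, ?_⟩
    show |(φ g).1| < Om ^ k
    rw [hφ1]
    exact hk
  · refine ⟨hPm, ?_⟩
    have h1 : (AlgEquiv.ofInjective φ hinj) X = ⟨P, hPm⟩ := Subtype.ext hX
    rw [← h1]
    have h2 := MulEquiv.prime_iff (p := (X : ℚ[X])) (AlgEquiv.ofInjective φ hinj)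
    first
      | exact h2.1 prime_X
      | exact h2.2 prime_X

end OIE
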