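import Pool.Agent.OIE.Stmts4

/-!
# Module BIG: sparse images
-/

set_option autoImplicit false

namespace OIE

open Polynomial OID

namespace BIG

variable {M : Type} [CommRing M] [LinearOrder M] [IsStrictOrderedRing M]

theorem std_of_le {x y : M} (h0 : 0 ≤ x) (k : ℕ) (h : x ≤ k * y) (hy : Std y) : Std x := by
  obtain ⟨m, hm⟩ := hy
  refine ⟨k * m, ?_⟩
  rw [abs_of_nonneg h0]
  have h1 : y ≤ m := (le_abs_self y).trans hm
  have h2 : (k : M) * y ≤ k * m := mul_le_mul_of_nonneg_left h1 (Nat.cast_nonneg k)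
  push_cast
  exact h.trans h2

theorem tset_nonneg (hA : Alg M) (H : M[X]) : TSet {x : M | 0 ≤ H.eval x} := by
  obtain ⟨B, hB⟩ := hA.roots H
  refine ⟨B, ∅, by simp [NZ], ?_⟩
  intro x y h
  exact hB x y h.1

theorem part {N : Set M → M} (hN : Cnt N) (hc : ∀ S : Set M, TSet S → TSet Sᶜ)
    (hi : ∀ S T : Set M, TSet S → TSet T → TSet (S ∩ T)) (h0 : ∀ S, TSet S → Bd S → 0 ≤ N S)
    (ι : Type) (J : Finset ι) (P : ι → Set M) :
    (∀ j ∈ J, TSet (P j)) → ∀ U : Set M, TSet U → Bd U → ∃ U₁ : Set M, U₁ ⊆ U ∧ TSet U₁ ∧ Bd U₁ ∧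
      (∀ j ∈ J, ∀ x ∈ U₁, ∀ y ∈ U₁, (x ∈ P j ↔ y ∈ P j)) ∧ ∃ r : ℕ, N U ≤ r * N U₁ := by
  classical
  induction J using Finset.induction_on with
  | empty =>
    intro _ U hU hb
    exact ⟨U, subset_rfl, hU, hb, by simp, 1, by simp⟩
  | insert a s ha ih =>
    intro hP U hU hb
    obtain ⟨U₁, h1, h2, h3, h4, r, h5⟩ := ih (fun j hj => hP j (Finset.mem_insert_of_mem hj)) U hU hb
    have hPa := hP a (Finset.mem_insert_self a s)
    have hb' : ∀ V : Set M, V ⊆ U₁ → Bd V := by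
      intro V hV
      obtain ⟨c, hc⟩ := h3
      exact ⟨c, fun x hx => hc x (hV hx)⟩
    have t1 : TSet (U₁ ∩ P a) := hi _ _ h2 hPa
    have t2 : TSet (U₁ ∩ (P a)ᶜ) := hi _ _ h2 (hc _ hPa)
    have e1 : N U₁ = N (U₁ ∩ P a) + N (U₁ ∩ (P a)ᶜ) := by
      have e2 := hN.add _ _ t1 t2 (hb' _ Set.inter_subset_left) (hb' _ Set.inter_subset_left) (by
        rw [Set.disjoint_left]
        rintro x ⟨_, hx⟩ ⟨_, hx'⟩
        exact hx' hx)
      rw [← e2]
      congr 1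
      ext x
      simp only [Set.mem_union, Set.mem_inter_iff, Set.mem_compl_iff]
      tauto
    have p1 := h0 _ t1 (hb' _ Set.inter_subset_left)
    have p2 := h0 _ t2 (hb' _ Set.inter_subset_left)
    have hr : (0 : M) ≤ r := Nat.cast_nonneg r
    rcases le_total (N (U₁ ∩ P a)) (N (U₁ ∩ (P a)ᶜ)) with h | h
    · refine ⟨U₁ ∩ (P a)ᶜ, Set.inter_subset_left.trans h1, t2, hb' _ Set.inter_subset_left, ?_,
        r * 2, ?_⟩
      · intro j hj x hx y hy
        rcases Finset.mem_insert.1 hj with rfl | hj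
        · constructor
          · intro h; exact absurd h hx.2
          · intro h; exact absurd h hy.2
        · exact h4 j hj x hx.1 y hy.1
      · push_cast
        have e3 : N U₁ ≤ 2 * N (U₁ ∩ (P a)ᶜ) := by linarith
        have e4 := mul_le_mul_of_nonneg_left e3 hr
        linarith
    · refine ⟨U₁ ∩ P a, Set.inter_subset_left.trans h1, t1, hb' _ Set.inter_subset_left, ?_,
        r * 2, ?_⟩
      · intro j hj x hx y hy
        rcases Finset.mem_insert.1 hj with rfl | hj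
        · exact ⟨fun _ => hy.2, fun _ => hx.2⟩
        · exact h4 j hj x hx.1 y hy.1
      · push_cast
        have e3 : N U₁ ≤ 2 * N (U₁ ∩ P a) := by linarith
        have e4 := mul_le_mul_of_nonneg_left e3 hr
        linarith

theorem part_cls {N : Set M → M} (hN : Cnt N) (hc : ∀ S : Set M, TSet S → TSet Sᶜ)
    (hi : ∀ S T : Set M, TSet S → TSet T → TSet (S ∩ T)) (h0 : ∀ S, TSet S → Bd S → 0 ≤ N S)
    (B : Finset M) (Q : Finset (M × M)) (L R : M → Set M) (V : M × M → Set M)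
    (hL : ∀ b, TSet (L b)) (hR : ∀ b, TSet (R b)) (hV : ∀ q ∈ Q, TSet (V q))
    (U : Set M) (hU : TSet U) (hb : Bd U) : ∃ U₁ : Set M, U₁ ⊆ U ∧ TSet U₁ ∧ Bd U₁ ∧
      (∀ x ∈ U₁, ∀ y ∈ U₁, (∀ b ∈ B, (x ∈ L b ↔ y ∈ L b) ∧ (x ∈ R b ↔ y ∈ R b)) ∧
        ∀ q ∈ Q, (x ∈ V q ↔ y ∈ V q)) ∧ ∃ r : ℕ, N U ≤ r * N U₁ := by
  obtain ⟨U₁, a1, a2, a3, a4, r₁, a5⟩ := part hN hc hi h0 M B L (fun j _ => hL j) U hU hb
  obtain ⟨U₂, b1, b2, b3, b4, r₂, b5⟩ := part hN hc hi h0 M B R (fun j _ => hR j) U₁ a2 a3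
  obtain ⟨U₃, c1, c2, c3, c4, r₃, c5⟩ := part hN hc hi h0 (M × M) Q V hV U₂ b2 b3
  refine ⟨U₃, (c1.trans b1).trans a1, c2, c3, ?_, r₁ * r₂ * r₃, ?_⟩
  · intro x hx y hy
    refine ⟨fun b hb => ⟨a4 b hb x (b1 (c1 hx)) y (b1 (c1 hy)), b4 b hb x (c1 hx) y (c1 hy)⟩, ?_⟩
    intro q hq
    exact c4 q hq x hx y hy
  · have e1 := mul_le_mul_of_nonneg_left b5 (Nat.cast_nonneg (α := M) r₁)
    have e2 := mul_le_mul_of_nonneg_left c5
      (mul_nonneg (Nat.cast_nonneg (α := M) r₁) (Nat.cast_nonneg (α := M) r₂))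
    push_cast
    have e3 : (r₁ : M) * (r₂ * N U₂) = r₁ * r₂ * N U₂ := by ring
    have e4 : (r₁ : M) * r₂ * (r₃ * N U₃) = r₁ * r₂ * r₃ * N U₃ := by ring
    rw [e3] at e1
    rw [e4] at e2
    exact (a5.trans e1).trans e2

theorem same_mono {B B' : Finset M} {Q : Finset (M × M)} (h : B ⊆ B') {x y : M}
    (hs : Same B' Q x y) : Same B Q x y := ⟨fun b hb => hs.1 b (h hb), hs.2⟩

theorem same_refl (B : Finset M) (Q : Finset (M × M)) (x : M) : Same B Q x x :=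
  ⟨fun _ _ => ⟨Iff.rfl, Iff.rfl⟩, fun _ _ => Iff.rfl⟩

theorem same_symm {B : Finset M} {Q : Finset (M × M)} {x y : M} (h : Same B Q x y) :
    Same B Q y x := ⟨fun b hb => ⟨(h.1 b hb).1.symm, (h.1 b hb).2.symm⟩, fun q hq => (h.2 q hq).symm⟩

theorem same_trans {B : Finset M} {Q : Finset (M × M)} {x y z : M} (h : Same B Q x y)
    (h' : Same B Q y z) : Same B Q x z :=
  ⟨fun b hb => ⟨(h.1 b hb).1.trans (h'.1 b hb).1, (h.1 b hb).2.trans (h'.1 b hb).2⟩,
    fun q hq => (h.2 q hq).trans (h'.2 q hq)⟩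

theorem tset_class (B : Finset M) (Q : Finset (M × M)) (hQ : NZ Q) (x₁ : M) :
    TSet {x | Same B Q x₁ x} :=
  ⟨B, Q, hQ, fun _ _ h => ⟨fun h1 => same_trans h1 h, fun h1 => same_trans h1 (same_symm h)⟩⟩

theorem same_eq {B : Finset M} {Q : Finset (M × M)} {x y : M} (hx : x ∈ B) (h : Same B Q x y) :
    y = x := by
  have h1 := h.1 x hx
  apply le_antisymm
  · by_contra h2
    exact lt_irrefl x (h1.2.2 (not_le.1 h2))
  · by_contra h2
    exact lt_irrefl x (h1.1.2 (not_le.1 h2))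

/-- A tame bounded set, with bounds in `B`. -/
theorem with_bounds {T : Set M} (hT : TSet T) (hb : Bd T) : ∃ (B : Finset M) (Q : Finset (M × M)),
    NZ Q ∧ (∀ x y, Same B Q x y → (x ∈ T ↔ y ∈ T)) ∧ ∀ x ∈ T, (∃ s ∈ B, s < x) ∧ ∃ t ∈ B, x < t := by
  classical
  obtain ⟨B, Q, hQ, h⟩ := hT
  obtain ⟨c, hc⟩ := hb
  refine ⟨insert (-c - 1) (insert (c + 1) B), Q, hQ, ?_, ?_⟩
  · intro x y hs
    refine h x y (same_mono ?_ hs)
    intro b hb
    exact Finset.mem_insert_of_mem (Finset.mem_insert_of_mem hb)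
  · intro x hx
    have h1 := abs_le.1 (hc x hx)
    refine ⟨⟨-c - 1, Finset.mem_insert_self _ _, by linarith [h1.1]⟩,
      ⟨c + 1, Finset.mem_insert_of_mem (Finset.mem_insert_self _ _), by linarith [h1.2]⟩⟩

theorem deg_comp (G : M[X]) (hG : 2 ≤ G.natDegree) (c E k : M) (hE : E ≠ 0) :
    2 ≤ (G.comp (C c + C E * X) - C k).natDegree := by
  rw [natDegree_sub_C, natDegree_comp]
  have h1 : (C c + C E * X : M[X]).natDegree = 1 := by
    rw [add_comm]
    exact natDegree_linear hE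
  rw [h1, mul_one]
  exact hG

theorem fin_level (G : M[X]) (hG : 2 ≤ G.natDegree) (k : M) : {x | G.eval x = k}.Finite := by
  have h : G - C k ≠ 0 := by
    intro h
    have h1 := congrArg natDegree h
    rw [natDegree_sub_C, natDegree_zero] at h1
    omega
  refine (finite_setOf_isRoot h).subset ?_
  intro x hx
  have hx' : G.eval x = k := hx
  change (G - C k).eval x = 0
  rw [eval_sub, eval_C, hx', sub_self]

theorem sgn (d u b : M) (hd : d ≠ 0) : (d * (d * u) - d * d * b < 0 ↔ u < b) ∧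
    (0 < d * (d * u) - d * d * b ↔ b < u) := by
  have hp : 0 < d * d := mul_self_pos.2 hd
  have e : d * (d * u) - d * d * b = d * d * (u - b) := by ring
  rw [e]
  constructor
  · constructor
    · intro h
      by_contra h1
      exact absurd h (not_lt.2 (mul_nonneg hp.le (sub_nonneg.2 (not_lt.1 h1))))
    · intro h
      exact mul_neg_of_pos_of_neg hp (sub_neg.2 h)
  · constructor
    · intro h
      by_contra h1
      exact absurd h (not_lt.2 (mul_nonpos_of_nonneg_of_nonpos hp.le (sub_nonpos.2 (not_lt.1 h1))))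
    · intro h
      exact mul_pos hp (sub_pos.2 h)

end BIG

open BIG in
theorem t_BIG : M_BIG := by
  intro _ hBOOL hTD _ hSEG hNF hDEN hPOS hGRO M _ _ _ hA N hN U T f G d hU hUb hT hTb hNU hd hG hf r
  obtain ⟨bc, bi, bu, be, bun, blt, bgt, bfin, bdv, -, -, -⟩ := hBOOL M
  obtain ⟨p0, p1, pm, pc, pf, -⟩ := hPOS M hA N hN
  have hnf := hNF M hA
  obtain ⟨B', Q', hQ', hT', hT''⟩ := with_bounds hT hTb
  have k1 : ∀ H : M[X], TSet {x : M | H.eval x < 0} := by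
    intro H
    have h1 := bc _ (tset_nonneg hA H)
    have h2 : {x : M | 0 ≤ H.eval x}ᶜ = {x : M | H.eval x < 0} := by
      ext x
      simp
    rwa [h2] at h1
  have k2 : ∀ H : M[X], TSet {x : M | 0 < H.eval x} := by
    intro H
    have h1 := k1 (-H)
    have h2 : {x : M | (-H).eval x < 0} = {x : M | 0 < H.eval x} := by
      ext x
      simp
    rwa [h2] at h1
  -- the values of `f` on `U₁` are in one class
  obtain ⟨U₁, a1, a2, a3, a4, r₁, a5⟩ := part_cls hN bc bi p0 B' Q'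
    (fun b => {x | (C d * G - C (d * d * b)).eval x < 0})
    (fun b => {x | 0 < (C d * G - C (d * d * b)).eval x})
    (fun q => {x | d * q.2 ∣ (G - C (d * q.1)).eval x}) (fun b => k1 _) (fun b => k2 _)
    (fun q hq => hTD M hA _ _ (mul_ne_zero hd (hQ' q hq))) U hU hUb
  have ev : ∀ x ∈ U₁, d * f x = G.eval x := fun x hx => (hf x (a1 hx)).1
  have a6 : ∀ x ∈ U₁, ∀ y ∈ U₁, Same B' Q' (f x) (f y) := by
    intro x hx y hy
    obtain ⟨h1, h2⟩ := a4 x hx y hy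
    constructor
    · intro b hb
      obtain ⟨h3, h4⟩ := h1 b hb
      simp only [Set.mem_setOf_eq, eval_sub, eval_mul, eval_C, ← ev x hx, ← ev y hy] at h3 h4
      rw [(sgn d _ b hd).1, (sgn d _ b hd).1] at h3
      rw [(sgn d _ b hd).2, (sgn d _ b hd).2] at h4
      exact ⟨h3, h4⟩
    · intro q hq
      have h3 := h2 q hq
      simp only [Set.mem_setOf_eq, eval_sub, eval_C, ← ev x hx, ← ev y hy, ← mul_sub] at h3
      rwa [mul_dvd_mul_iff_left hd, mul_dvd_mul_iff_left hd] at h3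
  -- one class of the conditions of `U₁`
  obtain ⟨B₁, Q₁, hQ₁, hU₁, hU₁'⟩ := with_bounds a2 a3
  obtain ⟨A, c1, c2, c3, c4, r₂, c5⟩ := part_cls hN bc bi p0 B₁ Q₁
    (fun b => {x | x < b}) (fun b => {x | b < x}) (fun q => {x | q.2 ∣ x - q.1}) blt bgt
    (fun q hq => bdv q.1 q.2 (hQ₁ q hq)) U₁ a2 a3
  have c6 : N U ≤ (r₁ * r₂ : ℕ) * N A := by
    have h1 := mul_le_mul_of_nonneg_left c5 (Nat.cast_nonneg (α := M) r₁)
    push_cast
    calc N U ≤ r₁ * N U₁ := a5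
      _ ≤ r₁ * (r₂ * N A) := h1
      _ = r₁ * r₂ * N A := by ring
  have hNA : ¬ Std (N A) := fun h => hNU (std_of_le (p0 U hU hUb) _ c6 h)
  have hne : A.Nonempty := by
    rw [Set.nonempty_iff_ne_empty]
    intro h
    apply hNA
    have h1 := pc ∅
    rw [Finset.coe_empty, Finset.card_empty, Nat.cast_zero] at h1
    rw [h, h1]
    exact ⟨0, by simp⟩
  obtain ⟨x₁, hx₁⟩ := hne
  set A' : Set M := {x | Same B₁ Q₁ x₁ x} with hA'
  have tA' : TSet A' := tset_class B₁ Q₁ hQ₁ x₁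
  have sA' : A' ⊆ U₁ := fun x hx => (hU₁ x₁ x hx).1 (c1 hx₁)
  have bA' : Bd A' := by
    obtain ⟨c, hc⟩ := a3
    exact ⟨c, fun x hx => hc x (sA' hx)⟩
  have sA : A ⊆ A' := fun x hx => ⟨(c4 x₁ hx₁ x hx).1, (c4 x₁ hx₁ x hx).2⟩
  have nA : N A ≤ N A' := pm A A' c2 tA' bA' sA
  have c7 : N U ≤ (r₁ * r₂ : ℕ) * N A' :=
    c6.trans (mul_le_mul_of_nonneg_left nA (Nat.cast_nonneg _))
  have hNA' : ¬ Std (N A') := fun h => hNU (std_of_le (p0 U hU hUb) _ c7 h)
  have hfin : ∀ S : Set M, S.Finite → A' ⊆ S → False := by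
    intro S hS hAS
    have h1 : A'.Finite := hS.subset hAS
    apply hNA'
    have h2 := pc h1.toFinset
    rw [Set.Finite.coe_toFinset] at h2
    rw [h2]
    exact ⟨h1.toFinset.card, by rw [Nat.abs_cast]⟩
  have hxB : x₁ ∉ B₁ := by
    intro h
    apply hfin {x₁} (Set.finite_singleton x₁)
    intro x hx
    exact same_eq h hx
  obtain ⟨c, E, n, Q₂, hE, hn, hQ₂, hcl⟩ := hnf B₁ Q₁ x₁ hQ₁ hxB (hU₁' x₁ (c1 hx₁)).1
    (hU₁' x₁ (c1 hx₁)).2
  change A' = _ at hcl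
  -- segments
  obtain ⟨-, -, -, -, sTB, sWn, -⟩ := hSEG M hA
  have nW : N A' = N (Wn n Q₂) := by
    rw [hcl]
    exact (hN.aff (Wn n Q₂) (sWn n Q₂ hQ₂).1 (sWn n Q₂ hQ₂).2 E 1 c (fun w => c + E * w) hE.ne'
      one_ne_zero (fun w _ => by ring)).2.2
  have nle : N (Wn n Q₂) ≤ n := by
    have h1 := pm (Wn n Q₂) (Seg 0 1 n) (sWn n Q₂ hQ₂).1 (sTB 0 1 n one_ne_zero).1
      (sTB 0 1 n one_ne_zero).2 (by
        intro w hw
        exact ⟨w, hw.1, hw.2.1, by ring⟩)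
    rwa [hN.seg 0 1 n one_ne_zero hn] at h1
  have c8 : N U ≤ (r₁ * r₂ : ℕ) * n :=
    c7.trans (mul_le_mul_of_nonneg_left (nW ▸ nle) (Nat.cast_nonneg _))
  have hsn : ¬ Std n := fun h => hNU (std_of_le (p0 U hU hUb) _ c8 h)
  have hn1 : 1 ≤ n := by
    apply hA.disc
    rcases hn.eq_or_lt with h | h
    · exfalso
      apply hsn
      rw [← h]
      exact ⟨0, by simp⟩
    · exact h
  have hWne : (Wn n Q₂).Nonempty := by
    have h1 : x₁ ∈ A' := sA hx₁
    rw [hcl] at h1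
    obtain ⟨w, hw, -⟩ := h1
    exact ⟨w, hw⟩
  -- the class of the values
  have hfx : f x₁ ∈ T := (hf x₁ (a1 (c1 hx₁))).2
  set K : Set M := {y | Same B' Q' (f x₁) y} with hK
  have sK : K ⊆ T := fun y hy => (hT' _ _ hy).1 hfx
  have tK : TSet K := tset_class B' Q' hQ' _
  have bK : Bd K := by
    obtain ⟨c, hc⟩ := hTb
    exact ⟨c, fun x hx => hc x (sK hx)⟩
  have fK : ∀ x ∈ A', f x ∈ K := fun x hx => a6 x₁ (c1 hx₁) x (sA' hx)
  have hyB : f x₁ ∉ B' := by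
    intro h
    apply hfin {x | G.eval x = d * f x₁} (fin_level G hG _)
    intro x hx
    have h1 : f x = f x₁ := same_eq h (fK x hx)
    change G.eval x = d * f x₁
    rw [← ev x (sA' hx), h1]
  obtain ⟨c', E', n', Q₃, hE', hn', hQ₃, hcl'⟩ := hnf B' Q' (f x₁) hQ' hyB (hT'' _ hfx).1
    (hT'' _ hfx).2
  change K = _ at hcl'
  have hγ : ∀ w ∈ Wn n Q₂, ∃ v ∈ Wn n' Q₃, c' + E' * v = f (c + E * w) := by
    intro w hw
    have h1 : c + E * w ∈ A' := by
      rw [hcl]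
      exact ⟨w, hw, rfl⟩
    have h2 := fK _ h1
    rw [hcl'] at h2
    exact h2
  choose! γ hγ1 hγ2 using hγ
  obtain ⟨k, hk⟩ := hGRO M hA n n' Q₂ γ (G.comp (C c + C E * X) - C (d * c')) (d * E') hQ₂ hn hsn
    hWne (mul_ne_zero hd hE'.ne') (deg_comp G hG _ _ _ hE.ne') (by
      intro w hw
      have h1 : c + E * w ∈ A' := by
        rw [hcl]
        exact ⟨w, hw, rfl⟩
      refine ⟨?_, (hγ1 w hw).1, (hγ1 w hw).2.1⟩
      have h2 := ev _ (sA' h1)
      rw [← hγ2 w hw] at h2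
      simp only [eval_sub, eval_comp, eval_add, eval_mul, eval_C, eval_X]
      rw [← h2]
      ring)
  have hsn' : ¬ Std n' := by
    intro h
    apply hsn
    refine std_of_le hn k ?_ h
    have h1 : n ≤ n * n := le_mul_of_one_le_left hn hn1
    exact h1.trans hk
  have hne' : (Wn n' Q₃).Nonempty := by
    obtain ⟨w, hw⟩ := hWne
    exact ⟨γ w, hγ1 w hw⟩
  obtain ⟨k', hk'⟩ := (hDEN M hA N hN n' Q₃ hQ₃ hn').2 hsn' hne'
  have nK : N (Wn n' Q₃) ≤ N T := by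
    have h1 : N K = N (Wn n' Q₃) := by
      rw [hcl']
      exact (hN.aff (Wn n' Q₃) (sWn n' Q₃ hQ₃).1 (sWn n' Q₃ hQ₃).2 E' 1 c' (fun w => c' + E' * w)
        hE'.ne' one_ne_zero (fun w _ => by ring)).2.2
    rw [← h1]
    exact pm K T tK hT hTb sK
  -- the end
  by_contra hcon
  rw [not_lt] at hcon
  apply hsn
  have e1 : n * n ≤ (k * k' * r * (r₁ * r₂) : ℕ) * n := by
    calc n * n ≤ k * n' := hk
      _ ≤ k * (k' * N (Wn n' Q₃)) := mul_le_mul_of_nonneg_left hk' (Nat.cast_nonneg _)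
      _ ≤ k * (k' * N T) := mul_le_mul_of_nonneg_left
          (mul_le_mul_of_nonneg_left nK (Nat.cast_nonneg _)) (Nat.cast_nonneg _)
      _ ≤ k * (k' * (r * N U)) := mul_le_mul_of_nonneg_left
          (mul_le_mul_of_nonneg_left hcon (Nat.cast_nonneg _)) (Nat.cast_nonneg _)
      _ ≤ k * (k' * (r * ((r₁ * r₂ : ℕ) * n))) := mul_le_mul_of_nonneg_left
          (mul_le_mul_of_nonneg_left (mul_le_mul_of_nonneg_left c8 (Nat.cast_nonneg _))
            (Nat.cast_nonneg _)) (Nat.cast_nonneg _)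
      _ = (k * k' * r * (r₁ * r₂) : ℕ) * n := by push_cast; ring
  have e2 : n ≤ (k * k' * r * (r₁ * r₂) : ℕ) := le_of_mul_le_mul_right e1 (by linarith)
  exact ⟨_, by rw [abs_of_nonneg hn]; exact e2⟩

end OIE
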