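import Pool.Agent.OIE.Stmts4

/-!
# Module CNT: existence of the counting function
-/

namespace OIE

open OID

namespace CNT

section

variable {M : Type} [CommRing M] [LinearOrder M]

/-- A weighted segment. -/
abbrev WS (M : Type) : Type := ℤ × M × M × M

/-- its set -/
def sg (p : WS M) : Set M := Seg p.2.1 p.2.2.1 p.2.2.2

/-- admissible -/
def Ok (p : WS M) : Prop := p.2.2.1 ≠ 0 ∧ 0 ≤ p.2.2.2

/-- the characteristic function -/
noncomputable def ind (S : Set M) : M → ℤ := S.indicator fun _ => 1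

/-- the function of a list of weighted segments -/
noncomputable def fn (l : List (WS M)) (x : M) : ℤ := (l.map fun p => p.1 * ind (sg p) x).sum

/-- the number of a list of weighted segments -/
def vl (l : List (WS M)) : M := (l.map fun p => (p.1 : M) * p.2.2.2).sum

/-- change of the weight -/
def sc (a : ℤ) (p : WS M) : WS M := (a * p.1, p.2)

theorem ind_mem {S : Set M} {x : M} (h : x ∈ S) : ind S x = 1 := Set.indicator_of_mem h _

theorem ind_notMem {S : Set M} {x : M} (h : x ∉ S) : ind S x = 0 := Set.indicator_of_notMem h _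

theorem ind_eq_one {S : Set M} {x : M} : ind S x = 1 ↔ x ∈ S := by
  by_cases h : x ∈ S
  · simp [ind_mem h, h]
  · simp [ind_notMem h, h]

theorem ind_congr {S T : Set M} {x y : M} (h : x ∈ S ↔ y ∈ T) : ind S x = ind T y := by
  by_cases h1 : x ∈ S
  · rw [ind_mem h1, ind_mem (h.1 h1)]
  · rw [ind_notMem h1, ind_notMem (fun h2 => h1 (h.2 h2))]

theorem ind_inter (S T : Set M) (x : M) : ind (S ∩ T) x = ind S x * ind T x := by
  by_cases h1 : x ∈ S
  · by_cases h2 : x ∈ T
    · rw [ind_mem h1, ind_mem h2, ind_mem (Set.mem_inter h1 h2), one_mul]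
    · rw [ind_notMem h2, ind_notMem (fun h => h2 h.2), mul_zero]
  · rw [ind_notMem h1, ind_notMem (fun h => h1 h.1), zero_mul]

theorem ind_compl (S : Set M) (x : M) : ind Sᶜ x = 1 - ind S x := by
  by_cases h1 : x ∈ S
  · rw [ind_mem h1, ind_notMem (fun h : x ∈ Sᶜ => h h1), sub_self]
  · rw [ind_notMem h1, ind_mem (show x ∈ Sᶜ from h1), sub_zero]

theorem fn_append (l l' : List (WS M)) (x : M) : fn (l ++ l') x = fn l x + fn l' x := by
  rw [fn, List.map_append, List.sum_append]
  rfl

theorem vl_append (l l' : List (WS M)) : vl (l ++ l') = vl l + vl l' := by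
  rw [vl, List.map_append, List.sum_append]
  rfl

theorem fn_sc (a : ℤ) (l : List (WS M)) (x : M) : fn (l.map (sc a)) x = a * fn l x := by
  induction l with
  | nil => simp [fn]
  | cons p l ih =>
    have h1 : fn ((p :: l).map (sc a)) x = (a * p.1) * ind (sg p) x + fn (l.map (sc a)) x := rfl
    have h2 : fn (p :: l) x = p.1 * ind (sg p) x + fn l x := rfl
    rw [h1, h2, ih]
    ring

theorem vl_sc (a : ℤ) (l : List (WS M)) : vl (l.map (sc a)) = a * vl l := by
  induction l with
  | nil => simp [vl]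
  | cons p l ih =>
    have h1 : vl ((p :: l).map (sc a)) = ((a * p.1 : ℤ) : M) * p.2.2.2 + vl (l.map (sc a)) := rfl
    have h2 : vl (p :: l) = (p.1 : M) * p.2.2.2 + vl l := rfl
    rw [h1, h2, ih]
    push_cast
    ring

theorem ok_sc {a : ℤ} {l : List (WS M)} (h : ∀ p ∈ l, Ok p) : ∀ p ∈ l.map (sc a), Ok p := by
  intro p hp
  obtain ⟨p', hp', rfl⟩ := List.mem_map.1 hp
  exact h p' hp'

theorem ok_append {l l' : List (WS M)} (h : ∀ p ∈ l, Ok p) (h' : ∀ p ∈ l', Ok p) :
    ∀ p ∈ l ++ l', Ok p := by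
  intro p hp
  rcases List.mem_append.1 hp with h1 | h1
  · exact h p h1
  · exact h' p h1

/-- the functions that are integral linear combinations of segments -/
def RepF (F : M → ℤ) : Prop := ∃ l : List (WS M), (∀ p ∈ l, Ok p) ∧ ∀ x, fn l x = F x

theorem RepF.add {F G : M → ℤ} (hF : RepF F) (hG : RepF G) : RepF fun x => F x + G x := by
  obtain ⟨l, h1, h2⟩ := hF
  obtain ⟨l', h1', h2'⟩ := hG
  exact ⟨l ++ l', ok_append h1 h1', fun x => by rw [fn_append, h2, h2']⟩

theorem RepF.smul {F : M → ℤ} (a : ℤ) (hF : RepF F) : RepF fun x => a * F x := by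
  obtain ⟨l, h1, h2⟩ := hF
  exact ⟨l.map (sc a), ok_sc h1, fun x => by rw [fn_sc, h2]⟩

theorem RepF.congr {F G : M → ℤ} (hF : RepF F) (h : ∀ x, F x = G x) : RepF G := by
  obtain ⟨l, h1, h2⟩ := hF
  exact ⟨l, h1, fun x => by rw [h2, h]⟩

theorem repF_sg {p : WS M} (hp : Ok p) : RepF (ind (sg p)) := by
  refine ⟨[(1, p.2)], ?_, ?_⟩
  · intro p' hp'
    rw [List.mem_singleton] at hp'
    subst hp'
    exact hp
  · intro x
    have : fn [((1 : ℤ), p.2)] x = 1 * ind (sg p) x + 0 := rfl
    rw [this, one_mul, add_zero]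

theorem repF_zero : RepF fun _ : M => (0 : ℤ) := ⟨[], by simp, fun x => rfl⟩

/-- sets whose intersections with segments are representable -/
def Good (S : Set M) : Prop := ∀ p : WS M, Ok p → RepF (ind (S ∩ sg p))

theorem RepF.mul {F : M → ℤ} {T : Set M} (hF : RepF F) (hT : Good T) :
    RepF fun x => F x * ind T x := by
  obtain ⟨l, h1, h2⟩ := hF
  have key : ∀ l : List (WS M), (∀ p ∈ l, Ok p) → RepF fun x => fn l x * ind T x := by
    intro l
    induction l with
    | nil =>
      intro _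
      refine repF_zero.congr fun x => ?_
      simp [fn]
    | cons p l ih =>
      intro hl
      have h3 := (RepF.smul p.1 (hT p (hl p List.mem_cons_self))).add
        (ih fun p' hp' => hl p' (List.mem_cons_of_mem _ hp'))
      refine h3.congr fun x => ?_
      have h4 : fn (p :: l) x = p.1 * ind (sg p) x + fn l x := rfl
      rw [h4, ind_inter]
      ring
  exact (key l h1).congr fun x => by rw [h2]

theorem Good.compl {S : Set M} (hS : Good S) : Good Sᶜ := by
  intro p hp
  refine ((repF_sg hp).add (RepF.smul (-1) (hS p hp))).congr fun x => ?_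
  rw [ind_inter, ind_inter, ind_compl]
  ring

theorem Good.inter {S T : Set M} (hS : Good S) (hT : Good T) : Good (S ∩ T) := by
  intro p hp
  refine ((hS p hp).mul hT).congr fun x => ?_
  rw [ind_inter, ind_inter, ind_inter]
  ring

theorem Good.union {S T : Set M} (hS : Good S) (hT : Good T) : Good (S ∪ T) := by
  have h := (hS.compl.inter hT.compl).compl
  rwa [Set.compl_inter, compl_compl, compl_compl] at h

theorem good_empty : Good (∅ : Set M) := by
  intro p hp
  refine repF_zero.congr fun x => ?_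
  rw [ind_notMem]
  exact fun h => h.1

theorem good_univ : Good (Set.univ : Set M) := by
  have h := (good_empty (M := M)).compl
  rwa [Set.compl_empty] at h

theorem same_refl (B : Finset M) (Q : Finset (M × M)) (x : M) : Same B Q x x :=
  ⟨fun _ _ => ⟨Iff.rfl, Iff.rfl⟩, fun _ _ => Iff.rfl⟩

theorem same_symm {B : Finset M} {Q : Finset (M × M)} {x y : M} (h : Same B Q x y) :
    Same B Q y x :=
  ⟨fun b hb => ⟨(h.1 b hb).1.symm, (h.1 b hb).2.symm⟩, fun q hq => (h.2 q hq).symm⟩

theorem same_trans {B : Finset M} {Q : Finset (M × M)} {x y z : M} (h : Same B Q x y)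
    (h' : Same B Q y z) : Same B Q x z :=
  ⟨fun b hb => ⟨(h.1 b hb).1.trans (h'.1 b hb).1, (h.1 b hb).2.trans (h'.1 b hb).2⟩,
    fun q hq => (h.2 q hq).trans (h'.2 q hq)⟩

theorem same_mono {B B' : Finset M} {Q Q' : Finset (M × M)} {x y : M} (hB : B' ⊆ B)
    (hQ : Q' ⊆ Q) (h : Same B Q x y) : Same B' Q' x y :=
  ⟨fun b hb => h.1 b (hB hb), fun q hq => h.2 q (hQ hq)⟩

/-- localisation to a set on which the finer relation is the coarser one -/
theorem good_loc {B B' : Finset M} {Q Q' : Finset (M × M)} {D : Set M} (hD : Good D)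
    (h : ∀ x ∈ D, ∀ y ∈ D, Same B Q x y → Same B' Q' x y)
    (ih : ∀ S : Set M, (∀ x y, Same B Q x y → (x ∈ S ↔ y ∈ S)) → Good S) {S : Set M}
    (hS : ∀ x y, Same B' Q' x y → (x ∈ S ↔ y ∈ S)) : Good (S ∩ D) := by
  have h1 : Good {x | ∃ y, y ∈ D ∧ y ∈ S ∧ Same B Q x y} := by
    apply ih
    intro x y hxy
    constructor
    · rintro ⟨z, hz1, hz2, hz3⟩
      exact ⟨z, hz1, hz2, same_trans (same_symm hxy) hz3⟩
    · rintro ⟨z, hz1, hz2, hz3⟩
      exact ⟨z, hz1, hz2, same_trans hxy hz3⟩
  have h2 : S ∩ D = {x | ∃ y, y ∈ D ∧ y ∈ S ∧ Same B Q x y} ∩ D := by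
    ext x
    constructor
    · rintro ⟨hx1, hx2⟩
      exact ⟨⟨x, hx2, hx1, same_refl _ _ _⟩, hx2⟩
    · rintro ⟨⟨y, hy1, hy2, hy3⟩, hx2⟩
      exact ⟨(hS x y (h x hx2 y hy1 hy3)).2 hy2, hx2⟩
  rw [h2]
  exact h1.inter hD

theorem good_tame (hlt : ∀ b : M, Good {x : M | x < b}) (hgt : ∀ b : M, Good {x : M | b < x})
    (hdv : ∀ c e : M, e ≠ 0 → Good {x : M | e ∣ x - c}) {S : Set M} (hS : TSet S) : Good S := by
  classical
  obtain ⟨B, Q, hQ, hSBQ⟩ := hS
  have key : ∀ Q : Finset (M × M), NZ Q → ∀ B : Finset M, ∀ S : Set M,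
      (∀ x y, Same B Q x y → (x ∈ S ↔ y ∈ S)) → Good S := by
    intro Q
    induction Q using Finset.induction_on with
    | empty =>
      intro _ B
      induction B using Finset.induction_on with
      | empty =>
        intro S hS
        have h0 : ∀ x y : M, Same ∅ ∅ x y := fun x y => ⟨by simp, by simp⟩
        rcases Set.eq_empty_or_nonempty S with h | ⟨x, hx⟩
        · rw [h]
          exact good_empty
        · have h1 : S = Set.univ := by
            ext y
            exact ⟨fun _ => trivial, fun _ => (hS x y (h0 x y)).1 hx⟩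
          rw [h1]
          exact good_univ
      | insert b B hb ih =>
        intro S hS
        have h1 : Good (S ∩ {x | x < b}) := by
          refine good_loc (hlt b) ?_ ih hS
          intro x hx y hy hxy
          refine ⟨?_, hxy.2⟩
          intro b' hb'
          rcases Finset.mem_insert.1 hb' with rfl | hb'
          · exact ⟨iff_of_true hx hy, iff_of_false (not_lt_of_gt hx) (not_lt_of_gt hy)⟩
          · exact hxy.1 b' hb'
        have h2 : Good (S ∩ {x | b < x}) := by
          refine good_loc (hgt b) ?_ ih hS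
          intro x hx y hy hxy
          refine ⟨?_, hxy.2⟩
          intro b' hb'
          rcases Finset.mem_insert.1 hb' with rfl | hb'
          · exact ⟨iff_of_false (not_lt_of_gt hx) (not_lt_of_gt hy), iff_of_true hx hy⟩
          · exact hxy.1 b' hb'
        have h3 : Good (S ∩ ({x | x < b}ᶜ ∩ {x | b < x}ᶜ)) := by
          refine good_loc ((hlt b).compl.inter (hgt b).compl) ?_ ih hS
          intro x hx y hy hxy
          refine ⟨?_, hxy.2⟩
          intro b' hb'
          rcases Finset.mem_insert.1 hb' with rfl | hb'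
          · exact ⟨iff_of_false hx.1 hy.1, iff_of_false hx.2 hy.2⟩
          · exact hxy.1 b' hb'
        have h4 : S = (S ∩ {x | x < b}) ∪ (S ∩ {x | b < x}) ∪
            (S ∩ ({x | x < b}ᶜ ∩ {x | b < x}ᶜ)) := by
          ext x
          constructor
          · intro hx
            by_cases h5 : x < b
            · exact Or.inl (Or.inl ⟨hx, h5⟩)
            · by_cases h6 : b < x
              · exact Or.inl (Or.inr ⟨hx, h6⟩)
              · exact Or.inr ⟨hx, h5, h6⟩
          · rintro ((h | h) | h)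
            · exact h.1
            · exact h.1
            · exact h.1
        rw [h4]
        exact (h1.union h2).union h3
    | insert q Q hq ih =>
      intro hNZ B S hS
      have hq0 : q.2 ≠ 0 := hNZ q (Finset.mem_insert_self _ _)
      have hNZ' : NZ Q := fun q' hq' => hNZ q' (Finset.mem_insert_of_mem hq')
      have h1 : Good (S ∩ {x | q.2 ∣ x - q.1}) := by
        refine good_loc (hdv q.1 q.2 hq0) ?_ (ih hNZ' B) hS
        intro x hx y hy hxy
        refine ⟨hxy.1, ?_⟩
        intro q' hq'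
        rcases Finset.mem_insert.1 hq' with rfl | hq'
        · exact iff_of_true hx hy
        · exact hxy.2 q' hq'
      have h2 : Good (S ∩ {x | q.2 ∣ x - q.1}ᶜ) := by
        refine good_loc (hdv q.1 q.2 hq0).compl ?_ (ih hNZ' B) hS
        intro x hx y hy hxy
        refine ⟨hxy.1, ?_⟩
        intro q' hq'
        rcases Finset.mem_insert.1 hq' with rfl | hq'
        · exact iff_of_false hx hy
        · exact hxy.2 q' hq'
      have h4 : S = (S ∩ {x | q.2 ∣ x - q.1}) ∪ (S ∩ {x | q.2 ∣ x - q.1}ᶜ) := by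
        rw [← Set.inter_union_distrib_left, Set.union_compl_self, Set.inter_univ]
      rw [h4]
      exact h1.union h2
  exact key Q hQ B S hSBQ

/-- finitely many tame sets -/
theorem common (l : List (WS M)) (h : ∀ p ∈ l, TSet (sg p)) :
    ∃ (B : Finset M) (Q : Finset (M × M)), NZ Q ∧
      ∀ x y, Same B Q x y → ∀ p ∈ l, (x ∈ sg p ↔ y ∈ sg p) := by
  classical
  induction l with
  | nil => exact ⟨∅, ∅, by simp [NZ], by simp⟩
  | cons p l ih =>
    obtain ⟨B, Q, h1, h2⟩ := ih fun p' hp' => h p' (List.mem_cons_of_mem _ hp')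
    obtain ⟨B', Q', h1', h2'⟩ := h p List.mem_cons_self
    refine ⟨B ∪ B', Q ∪ Q', ?_, ?_⟩
    · intro q hq
      rcases Finset.mem_union.1 hq with hq | hq
      · exact h1 q hq
      · exact h1' q hq
    · intro x y hxy p' hp'
      rcases List.mem_cons.1 hp' with rfl | hp'
      · exact h2' x y (same_mono Finset.subset_union_right Finset.subset_union_right hxy)
      · exact h2 x y (same_mono Finset.subset_union_left Finset.subset_union_left hxy) p' hp'

theorem fn_congr (l : List (WS M)) {x y : M} (h : ∀ p ∈ l, (x ∈ sg p ↔ y ∈ sg p)) :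
    fn l x = fn l y := by
  rw [fn, fn]
  congr 1
  exact List.map_congr_left fun p hp => by rw [ind_congr (h p hp)]

end

end CNT

open CNT in
theorem t_CNT : M_CNT := by
  classical
  intro _ hTB _ _ hLin hSeg M _ _ _ hA
  obtain ⟨-, -, -, hempty, -⟩ := hTB M
  obtain ⟨-, hs2, hs3, -, hs5, -, hs7⟩ := hSeg M hA
  have hufd := hA.ufd
  -- uniqueness
  have uniq : ∀ l l' : List (WS M), (∀ p ∈ l, Ok p) → (∀ p ∈ l', Ok p) →
      (∀ x, fn l x = fn l' x) → vl l = vl l' := by
    intro l l' h1 h1' h2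
    set L := l ++ l'.map (sc (-1)) with hL
    have hLok : ∀ p ∈ L, Ok p := ok_append h1 (ok_sc h1')
    have h3 : ∀ x, fn L x = 0 := by
      intro x
      rw [hL, fn_append, fn_sc, h2]
      ring
    have h4 := hLin M hA.disc (Fin L.length) Finset.univ (fun i => L[i].1) (fun i => L[i].2.1)
      (fun i => L[i].2.2.1) (fun i => L[i].2.2.2) (fun i _ => hLok _ (List.getElem_mem _)) (by
        intro x
        rw [← h3 x, fn, ← Fin.sum_univ_fun_getElem L (fun p => p.1 * ind (sg p) x)]
        refine Finset.sum_congr rfl fun i _ => ?_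
        by_cases hx : x ∈ sg L[i.1]
        · rw [ind_mem hx, mul_one]
          exact Set.indicator_of_mem hx _
        · rw [ind_notMem hx, mul_zero]
          exact Set.indicator_of_notMem hx _)
    have h5 : vl L = 0 := by
      rw [vl, ← Fin.sum_univ_fun_getElem L (fun p => (p.1 : M) * p.2.2.2), ← h4]
      rfl
    rw [hL, vl_append, vl_sc] at h5
    push_cast at h5
    linear_combination h5
  -- good sets
  have gdv : ∀ c e : M, e ≠ 0 → Good {x : M | e ∣ x - c} := by
    intro c e he p hp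
    obtain ⟨c₁, e₁, n₁, h1, h2, -, h3⟩ := hs2 p.2.1 p.2.2.1 p.2.2.2 c e hp.1 he hp.2
    have h4 : {x : M | e ∣ x - c} ∩ sg p = sg (1, c₁, e₁, n₁) := by
      rw [Set.inter_comm]
      exact h3
    rw [h4]
    exact repF_sg ⟨h1, h2⟩
  have glt : ∀ b : M, Good {x : M | x < b} := by
    intro b p hp
    obtain ⟨⟨c₁, n₁, h2, -, h3⟩, -⟩ := hs3 p.2.1 p.2.2.1 p.2.2.2 b hp.1 hp.2
    have h4 : {x : M | x < b} ∩ sg p = sg (1, c₁, p.2.2.1, n₁) := by
      rw [Set.inter_comm]
      exact h3
    rw [h4]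
    exact repF_sg ⟨hp.1, h2⟩
  have ggt : ∀ b : M, Good {x : M | b < x} := by
    intro b p hp
    obtain ⟨-, c₁, n₁, h2, -, h3⟩ := hs3 p.2.1 p.2.2.1 p.2.2.2 b hp.1 hp.2
    have h4 : {x : M | b < x} ∩ sg p = sg (1, c₁, p.2.2.1, n₁) := by
      rw [Set.inter_comm]
      exact h3
    rw [h4]
    exact repF_sg ⟨hp.1, h2⟩
  have rep : ∀ S : Set M, TSet S → Bd S → RepF (ind S) := by
    intro S hS ⟨c, hc⟩
    have h1 := good_tame glt ggt gdv hS (1, -|c|, 1, 2 * |c| + 1) ⟨one_ne_zero, by positivity⟩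
    have h2 : S ∩ sg (1, -|c|, 1, 2 * |c| + 1) = S := by
      apply Set.inter_eq_left.2
      intro x hx
      have h3 := abs_le.1 (le_trans (hc x hx) (le_abs_self c))
      refine ⟨x + |c|, by linarith [h3.1], by linarith [h3.2], by ring⟩
    rwa [h2] at h1
  -- the counting function
  let N : Set M → M := fun S =>
    if h : ∃ l : List (WS M), (∀ p ∈ l, Ok p) ∧ ∀ x, fn l x = ind S x then vl h.choose else 0
  have hN : ∀ (S : Set M) (l : List (WS M)), (∀ p ∈ l, Ok p) → (∀ x, fn l x = ind S x) →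
      N S = vl l := by
    intro S l h1 h2
    have h : ∃ l : List (WS M), (∀ p ∈ l, Ok p) ∧ ∀ x, fn l x = ind S x := ⟨l, h1, h2⟩
    have h3 : N S = vl h.choose := dif_pos h
    rw [h3]
    exact uniq _ _ h.choose_spec.1 h1 fun x => by rw [h.choose_spec.2 x, h2 x]
  refine ⟨N, ?_, ?_, ?_⟩
  · intro c e n he hn
    rw [hN (Seg c e n) [(1, c, e, n)]]
    · simp [vl]
    · intro p hp
      rw [List.mem_singleton] at hp
      subst hp
      exact ⟨he, hn⟩
    · intro x
      have h1 : fn [((1 : ℤ), c, e, n)] x = 1 * ind (Seg c e n) x + 0 := rfl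
      rw [h1, one_mul, add_zero]
  · intro S T hS hT bS bT hd
    obtain ⟨l, h1, h2⟩ := rep S hS bS
    obtain ⟨l', h1', h2'⟩ := rep T hT bT
    rw [hN S l h1 h2, hN T l' h1' h2', ← vl_append]
    refine hN _ _ (ok_append h1 h1') fun x => ?_
    rw [fn_append, h2, h2']
    by_cases hx : x ∈ S
    · have hx' : x ∉ T := fun h => Set.disjoint_left.1 hd hx h
      rw [ind_mem hx, ind_notMem hx', ind_mem (show x ∈ S ∪ T from Or.inl hx), add_zero]
    · rw [ind_notMem hx, zero_add]
      exact ind_congr ⟨fun h => Or.inr h, fun h => h.resolve_left hx⟩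
  · intro S hS bS p q r φ hp hq hφ
    rcases Set.eq_empty_or_nonempty S with hSe | ⟨x₀, hx₀⟩
    · subst hSe
      rw [Set.image_empty]
      exact ⟨hempty, ⟨0, by simp⟩, rfl⟩
    -- the progression
    obtain ⟨E, hE⟩ := ufd_colon p q hq
    have hE' : ∀ y, q ∣ p * y ↔ E ∣ y := fun y => (hE y).symm
    have hE0 : E ≠ 0 := by
      rintro rfl
      exact hq (zero_dvd_iff.1 ((hE' q).1 (dvd_mul_left q p)))
    have hG0 : q ∣ p * x₀ + r := ⟨φ x₀, (hφ x₀ hx₀).symm⟩
    have hG : ∀ x, q ∣ p * x + r ↔ E ∣ x - x₀ := by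
      intro x
      rw [← hE', ← dvd_sub_left hG0]
      have : p * x + r - (p * x₀ + r) = p * (x - x₀) := by ring
      rw [this]
    -- the affine map on the progression
    let ψ : M → M := fun x => if h : q ∣ p * x + r then h.choose else 0
    have hψ : ∀ x, q ∣ p * x + r → q * ψ x = p * x + r := by
      intro x h
      have h1 : ψ x = h.choose := dif_pos h
      rw [h1, ← h.choose_spec]
    have hψφ : ∀ x ∈ S, φ x = ψ x := by
      intro x hx
      have h1 : q ∣ p * x + r := ⟨φ x, (hφ x hx).symm⟩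
      apply mul_left_cancel₀ hq
      rw [hφ x hx, hψ x h1]
    have hψi : ∀ x y, q ∣ p * x + r → q ∣ p * y + r → ψ x = ψ y → x = y := by
      intro x y hx hy h
      have h1 := hψ x hx
      rw [h, hψ y hy] at h1
      apply mul_left_cancel₀ hp
      linear_combination -h1
    have hSG : ∀ x ∈ S, E ∣ x - x₀ := fun x hx => (hG x).1 ⟨φ x, (hφ x hx).symm⟩
    -- a representation by segments in the progression
    obtain ⟨l, h1, h2⟩ := rep S hS bS
    have step : ∀ l : List (WS M), (∀ p ∈ l, Ok p) → ∃ l₁ l₂ : List (WS M), (∀ p ∈ l₁, Ok p) ∧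
        (∀ p ∈ l₂, Ok p) ∧ vl l₁ = vl l₂ ∧
        (∀ x, fn l₁ x = fn l x * ind {x | E ∣ x - x₀} x) ∧
        (∀ x, E ∣ x - x₀ → fn l₂ (ψ x) = fn l₁ x) ∧
        (∀ y, (∀ x, E ∣ x - x₀ → ψ x ≠ y) → fn l₂ y = 0) := by
      intro l
      induction l with
      | nil => exact fun _ => ⟨[], [], by simp, by simp, rfl, by simp [fn], by simp [fn], by simp [fn]⟩
      | cons a l ih =>
        intro hl
        obtain ⟨l₁, l₂, g1, g2, g3, g4, g5, g6⟩ :=
          ih fun p' hp' => hl p' (List.mem_cons_of_mem _ hp')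
        have ha := hl a List.mem_cons_self
        obtain ⟨c₁, e₁, n₁, k1, k2, -, k3⟩ := hs2 a.2.1 a.2.2.1 a.2.2.2 x₀ E ha.1 hE0 ha.2
        have k4 : ∀ x ∈ Seg c₁ e₁ n₁, q ∣ p * x + r := by
          intro x hx
          rw [← k3] at hx
          exact (hG x).2 hx.2
        obtain ⟨c₂, e₂, k5, k6⟩ := hs7 c₁ e₁ n₁ p q r ψ k1 hp hq k2 fun x hx => hψ x (k4 x hx)
        refine ⟨(a.1, c₁, e₁, n₁) :: l₁, (a.1, c₂, e₂, n₁) :: l₂, ?_, ?_, ?_, ?_, ?_, ?_⟩
        · intro p' hp'
          rcases List.mem_cons.1 hp' with rfl | hp'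
          · exact ⟨k1, k2⟩
          · exact g1 p' hp'
        · intro p' hp'
          rcases List.mem_cons.1 hp' with rfl | hp'
          · exact ⟨k5, k2⟩
          · exact g2 p' hp'
        · have e1 : vl ((a.1, c₁, e₁, n₁) :: l₁) = (a.1 : M) * n₁ + vl l₁ := rfl
          have e2 : vl ((a.1, c₂, e₂, n₁) :: l₂) = (a.1 : M) * n₁ + vl l₂ := rfl
          rw [e1, e2, g3]
        · intro x
          have e1 : fn ((a.1, c₁, e₁, n₁) :: l₁) x = a.1 * ind (Seg c₁ e₁ n₁) x + fn l₁ x := rfl
          have e2 : fn (a :: l) x = a.1 * ind (sg a) x + fn l x := rfl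
          rw [e1, e2, g4, ← k3, ind_inter]
          rw [show ind (Seg a.2.1 a.2.2.1 a.2.2.2) x = ind (sg a) x from rfl]
          ring
        · intro x hx
          have e1 : fn ((a.1, c₁, e₁, n₁) :: l₁) x = a.1 * ind (Seg c₁ e₁ n₁) x + fn l₁ x := rfl
          have e2 : fn ((a.1, c₂, e₂, n₁) :: l₂) (ψ x) =
            a.1 * ind (Seg c₂ e₂ n₁) (ψ x) + fn l₂ (ψ x) := rfl
          rw [e1, e2, g5 x hx, ← k6]
          congr 2
          apply ind_congr
          constructor
          · rintro ⟨x', hx', h⟩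
            rw [← hψi x' x (k4 x' hx') ((hG x).2 hx) h]
            exact hx'
          · intro h
            exact ⟨x, h, rfl⟩
        · intro y hy
          have e2 : fn ((a.1, c₂, e₂, n₁) :: l₂) y = a.1 * ind (Seg c₂ e₂ n₁) y + fn l₂ y := rfl
          rw [e2, g6 y hy, ← k6, ind_notMem, mul_zero, add_zero]
          rintro ⟨x', hx', h⟩
          exact hy x' ((hG x').1 (k4 x' hx')) h
    obtain ⟨l₁, l₂, g1, g2, g3, g4, g5, g6⟩ := step l h1
    have g7 : ∀ x, fn l₁ x = ind S x := by
      intro x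
      rw [g4, h2]
      by_cases hx : x ∈ S
      · rw [ind_mem hx, ind_mem (show x ∈ {x | E ∣ x - x₀} from hSG x hx), one_mul]
      · rw [ind_notMem hx, zero_mul]
    have g8 : ∀ y, fn l₂ y = ind (φ '' S) y := by
      intro y
      by_cases hy : ∃ x, E ∣ x - x₀ ∧ ψ x = y
      · obtain ⟨x, hx, rfl⟩ := hy
        rw [g5 x hx, g7]
        apply ind_congr
        constructor
        · intro h
          exact ⟨x, h, hψφ x h⟩
        · rintro ⟨x', hx', h⟩
          rw [hψφ x' hx'] at h
          rw [← hψi x' x ((hG x').2 (hSG x' hx')) ((hG x).2 hx) h]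
          exact hx'
      · have hy' : ∀ x, E ∣ x - x₀ → ψ x ≠ y := fun x hx h => hy ⟨x, hx, h⟩
        rw [g6 y hy', ind_notMem]
        rintro ⟨x', hx', h⟩
        rw [hψφ x' hx'] at h
        exact hy' x' (hSG x' hx') h
    refine ⟨?_, ?_, ?_⟩
    · obtain ⟨B, Q, k1, k2⟩ := common l₂ fun a ha => (hs5 _ _ _ (g2 a ha).1).1
      refine ⟨B, Q, k1, fun x y hxy => ?_⟩
      rw [← ind_eq_one, ← ind_eq_one, ← g8, ← g8, fn_congr l₂ (k2 x y hxy)]
    · obtain ⟨c, hc⟩ := bS
      refine ⟨|p| * c + |r|, ?_⟩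
      rintro _ ⟨x, hx, rfl⟩
      have k1 : |q| * |φ x| ≤ |p| * c + |r| := by
        rw [← abs_mul, hφ x hx]
        refine le_trans (abs_add_le _ _) ?_
        rw [abs_mul]
        gcongr
        exact hc x hx
      have k2 : 1 ≤ |q| := hA.disc _ (abs_pos.2 hq)
      have k3 := abs_nonneg (φ x)
      nlinarith
    · rw [hN (φ '' S) l₂ g2 g8, hN S l₁ g1 g7, g3]

end OIE
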