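import Pool.Agent.OIE.Stmts1

/-!
# DIV: division with remainder
-/

namespace OIE

open Polynomial OID

namespace DIV

variable {M : Type} [CommRing M] [LinearOrder M] [IsStrictOrderedRing M]

theorem lt_add_one_iff' (hM : Alg M) {a b : M} : a < b → a + 1 ≤ b := by
  intro h
  have h1 := hM.disc (b - a) (sub_pos.2 h)
  linarith

/-- the search -/
theorem search (hM : Alg M) (B : Finset M) (L : M → Prop)
    (hB : ∀ x y : M, (∀ b ∈ B, (x < b ↔ y < b) ∧ (b < x ↔ b < y)) → (L x ↔ L y)) :
    ∀ (n : ℕ) (q₀ q₁ : M), (B.filter fun b => q₀ ≤ b ∧ b ≤ q₁).card = n → q₀ < q₁ → L q₀ → ¬ L q₁ →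
      ∃ q, L q ∧ ¬ L (q + 1) := by
  intro n
  induction n using Nat.strong_induction_on with
  | _ n ih =>
    intro q₀ q₁ hn h01 h0 h1
    by_cases hb : ∃ b ∈ B, q₀ ≤ b ∧ b ≤ q₁
    · obtain ⟨b, hbB, hb0, hb1⟩ := hb
      by_cases hL : L b
      · by_cases hL1 : L (b + 1)
        · have hne : b ≠ q₁ := fun h => h1 (h ▸ hL)
          have h2 : b + 1 ≤ q₁ := lt_add_one_iff' hM (lt_of_le_of_ne hb1 hne)
          have h3 : b + 1 ≠ q₁ := fun h => h1 (h ▸ hL1)
          refine ih _ ?_ (b + 1) q₁ rfl (lt_of_le_of_ne h2 h3) hL1 h1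
          rw [← hn]
          apply Finset.card_lt_card
          refine (Finset.ssubset_iff_of_subset ?_).2 ⟨b, ?_, ?_⟩
          · intro c hc
            rw [Finset.mem_filter] at hc ⊢
            exact ⟨hc.1, by linarith [hc.2.1], hc.2.2⟩
          · rw [Finset.mem_filter]
            exact ⟨hbB, hb0, hb1⟩
          · rw [Finset.mem_filter]
            rintro ⟨_, h4, _⟩
            linarith
        · exact ⟨b, hL, hL1⟩
      · by_cases hL1 : L (b - 1)
        · exact ⟨b - 1, hL1, by rwa [sub_add_cancel]⟩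
        · have hne : q₀ ≠ b := fun h => hL (h ▸ h0)
          have h2 : q₀ + 1 ≤ b := lt_add_one_iff' hM (lt_of_le_of_ne hb0 hne)
          have h3 : q₀ ≠ b - 1 := fun h => hL1 (h ▸ h0)
          refine ih _ ?_ q₀ (b - 1) rfl (lt_of_le_of_ne (by linarith) h3) h0 hL1
          rw [← hn]
          apply Finset.card_lt_card
          refine (Finset.ssubset_iff_of_subset ?_).2 ⟨b, ?_, ?_⟩
          · intro c hc
            rw [Finset.mem_filter] at hc ⊢
            exact ⟨hc.1, hc.2.1, by linarith [hc.2.2]⟩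
          · rw [Finset.mem_filter]
            exact ⟨hbB, hb0, hb1⟩
          · rw [Finset.mem_filter]
            rintro ⟨_, _, h4⟩
            linarith
    · exfalso
      refine h1 ((hB q₀ q₁ ?_).1 h0)
      intro b hbB
      have h2 : ¬ (q₀ ≤ b ∧ b ≤ q₁) := fun h => hb ⟨b, hbB, h⟩
      rw [not_and_or, not_le, not_le] at h2
      rcases h2 with h2 | h2
      · exact ⟨⟨fun h => absurd h (not_lt.2 h2.le), fun h => absurd h (not_lt.2 (h2.trans h01).le)⟩,
          fun _ => h2.trans h01, fun _ => h2⟩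
      · exact ⟨⟨fun _ => h2, fun _ => h01.trans h2⟩,
          fun h => absurd h (not_lt.2 (h01.trans h2).le), fun h => absurd h (not_lt.2 h2.le)⟩

end DIV

theorem t_DIV : S_DIV := by
  intro M _ _ _ hM x e he
  obtain ⟨B, hB⟩ := hM.roots (C x - C e * X)
  have hev : ∀ q : M, (C x - C e * X : M[X]).eval q = x - e * q := by
    intro q
    simp
  have h1 : (1 : M) ≤ e := hM.disc e he
  have hx0 : 0 ≤ |x| := abs_nonneg x
  obtain ⟨q, hq, hq1⟩ := DIV.search hM B (fun q => 0 ≤ (C x - C e * X : M[X]).eval q) hB _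
    (-|x|) (|x| + 1) rfl (by linarith) (by
      rw [hev]
      nlinarith [neg_abs_le x]) (by
      rw [hev, not_le]
      nlinarith [le_abs_self x])
  rw [hev] at hq hq1
  exact ⟨q, x - e * q, by ring, hq, by
    rw [not_le] at hq1
    linarith [mul_add e q 1, mul_one e]⟩

end OIE
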