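import Pool.Agent.OIE.St
import Pool.Agent.OID.G

/-!
# Embeddings of the trivial ring and of a polynomial ring in one variable
-/

namespace OIE

open Polynomial OID

namespace EG

theorem emb_bot : Emb ⊥ := by
  refine ⟨Empty, (Algebra.ofId ℚ (MvPolynomial Empty ℚ)).comp (Algebra.botEquiv ℚ F).toAlgHom,
    fun p => Empty.elim, ?_⟩
  intro a p
  obtain ⟨r, hr⟩ := Algebra.mem_bot.1 a.2
  have ha : a = algebraMap ℚ (⊥ : Subalgebra ℚ F) r := Subtype.ext hr.symm
  rw [ha, AlgHom.commutes, AlgHom.commutes]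
  rfl

theorem sec_eq {A : Subalgebra ℚ F} {y : F} {σ : Type} (ι : A →ₐ[ℚ] MvPolynomial σ ℚ)
    (t : ∀ p : Nat.Primes, σ → ℚ_[(p : ℕ)])
    (h : ∀ (a : A) (p : Nat.Primes), (a : F).2 p = MvPolynomial.aeval (t p) (ι a))
    (p : Nat.Primes) (g : A[X]) :
    (aeval y g).2 p = MvPolynomial.aeval (fun o : Option σ => o.elim (y.2 p) (t p))
      ((MvPolynomial.optionEquivLeft ℚ σ).symm (g.map ι.toRingHom)) := by
  have key : ∀ q : MvPolynomial σ ℚ,
      MvPolynomial.aeval (fun o : Option σ => o.elim (y.2 p) (t p))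
        ((MvPolynomial.optionEquivLeft ℚ σ).symm (C q)) = MvPolynomial.aeval (t p) q := by
    intro q
    induction q using MvPolynomial.induction_on with
    | C r =>
      rw [MvPolynomial.optionEquivLeft_symm_C_C]
      simp
    | add a b ha hb =>
      rw [map_add, map_add, map_add, map_add, ha, hb]
    | mul_X a j ha =>
      rw [map_mul, map_mul, map_mul, map_mul, ha, MvPolynomial.optionEquivLeft_symm_C_X]
      simp
  induction g using Polynomial.induction_on' with
  | add a b ha hb =>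
    rw [map_add, Polynomial.map_add, map_add, map_add, ← ha, ← hb]
    rfl
  | monomial n a =>
    rw [← C_mul_X_pow_eq_monomial, map_mul, map_pow, aeval_X, aeval_C, Polynomial.map_mul,
      Polynomial.map_pow, map_C, map_X, map_mul, map_pow, map_mul, map_pow,
      MvPolynomial.optionEquivLeft_symm_X, MvPolynomial.aeval_X, key]
    change (a : F).2 p * (y ^ n).2 p = MvPolynomial.aeval (t p) (ι a) * (y.2 p) ^ n
    rw [← h]
    rfl

end EG

theorem t_EG : S_EG := by
  refine ⟨EG.emb_bot, ?_⟩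
  rintro A y ⟨σ, ι, t, h⟩ hy
  let ρ : chart A y 1 →+* MvPolynomial (Option σ) ℚ :=
    ((MvPolynomial.optionEquivLeft ℚ σ).symm.toAlgHom.toRingHom).comp
      ((Polynomial.mapRingHom ι.toRingHom).comp (G.iso hy).symm.toRingHom)
  refine ⟨Option σ, ρ.toRatAlgHom, fun p o => o.elim (y.2 p) (t p), ?_⟩
  intro a p
  have h1 := EG.sec_eq (y := y) ι t h p ((G.iso hy).symm a)
  have h2 : (aeval y ((G.iso hy).symm a) : F) = a := by
    rw [← G.iso_val hy, RingEquiv.apply_symm_apply]
  rw [h2] at h1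
  exact h1

end OIE
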