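import Pool.Agent.OIE.St

/-!
# The embedding in step `I`
-/

namespace OIE

open Polynomial OID

namespace EI

/-- The component at `p`, as a ring homomorphism. -/
noncomputable def cp (p : Nat.Primes) : F →+* ℚ_[(p : ℕ)] :=
  (Pi.evalRingHom (fun p : Nat.Primes => ℚ_[(p : ℕ)]) p).comp
    (RingHom.snd ℝ* (∀ p : Nat.Primes, ℚ_[(p : ℕ)]))

theorem cp_apply (p : Nat.Primes) (x : F) : cp p x = x.2 p := rfl

variable {σ : Type}

/-- The substitution. -/
noncomputable def tau (Y : MvPolynomial (σ ⊕ σ) ℚ) :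
    MvPolynomial σ ℚ →ₐ[ℚ] MvPolynomial (σ ⊕ σ) ℚ :=
  MvPolynomial.aeval fun j => MvPolynomial.X (Sum.inl j) + Y * MvPolynomial.X (Sum.inr j)

/-- It is congruent to the inclusion modulo `Y`. -/
theorem tau_dvd (Y : MvPolynomial (σ ⊕ σ) ℚ) (φ : MvPolynomial σ ℚ) :
    Y ∣ tau Y φ - MvPolynomial.rename Sum.inl φ := by
  induction φ using MvPolynomial.induction_on with
  | C a =>
    simp [tau]
  | add p q hp hq =>
    rw [map_add, map_add]
    have := dvd_add hp hq
    have e : tau Y p + tau Y q - (MvPolynomial.rename Sum.inl p + MvPolynomial.rename Sum.inl q) =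
      (tau Y p - MvPolynomial.rename Sum.inl p) + (tau Y q - MvPolynomial.rename Sum.inl q) := by
      ring
    rw [e]
    exact this
  | mul_X p j hp =>
    rw [map_mul, map_mul, MvPolynomial.rename_X]
    have e : tau Y (MvPolynomial.X j) =
        MvPolynomial.X (Sum.inl j) + Y * MvPolynomial.X (Sum.inr j) := by
      simp [tau]
    rw [e]
    have e2 : tau Y p * (MvPolynomial.X (Sum.inl j) + Y * MvPolynomial.X (Sum.inr j)) -
        MvPolynomial.rename Sum.inl p * MvPolynomial.X (Sum.inl j) =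
        (tau Y p - MvPolynomial.rename Sum.inl p) * MvPolynomial.X (Sum.inl j) +
          Y * (tau Y p * MvPolynomial.X (Sum.inr j)) := by ring
    rw [e2]
    exact dvd_add (hp.mul_right _) (dvd_mul_right _ _)

section

variable (A : Subalgebra ℚ F) (y : F) (Y : MvPolynomial (σ ⊕ σ) ℚ)
  (Ψ : A[X] →+* MvPolynomial (σ ⊕ σ) ℚ)

/-- The correspondence. -/
def Cor (r : F) (W : MvPolynomial (σ ⊕ σ) ℚ) : Prop :=
  ∃ (m : ℕ) (g : A[X]), y ^ m * r = aeval y g ∧ Y ^ m * W = Ψ g

variable {A y Y Ψ}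

theorem cor_add (hX : Ψ X = Y) {r r' : F} {W W' : MvPolynomial (σ ⊕ σ) ℚ}
    (h : Cor A y Y Ψ r W) (h' : Cor A y Y Ψ r' W') : Cor A y Y Ψ (r + r') (W + W') := by
  obtain ⟨m, g, h1, h2⟩ := h
  obtain ⟨m', g', h1', h2'⟩ := h'
  refine ⟨m + m', X ^ m' * g + X ^ m * g', ?_, ?_⟩
  · rw [map_add, map_mul, map_mul, map_pow, map_pow, aeval_X, ← h1, ← h1']; ring
  · rw [map_add, map_mul, map_mul, map_pow, map_pow, hX, ← h2, ← h2']; ring

theorem cor_mul {r r' : F} {W W' : MvPolynomial (σ ⊕ σ) ℚ}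
    (h : Cor A y Y Ψ r W) (h' : Cor A y Y Ψ r' W') : Cor A y Y Ψ (r * r') (W * W') := by
  obtain ⟨m, g, h1, h2⟩ := h
  obtain ⟨m', g', h1', h2'⟩ := h'
  refine ⟨m + m', g * g', ?_, ?_⟩
  · rw [map_mul, ← h1, ← h1']; ring
  · rw [map_mul, ← h2, ← h2']; ring

theorem cor_uniq (hX : Ψ X = Y) (hY : Y ≠ 0)
    (hy : ∀ g g' : A[X], aeval y g = aeval y g' → g = g') {r : F}
    {W W' : MvPolynomial (σ ⊕ σ) ℚ} (h : Cor A y Y Ψ r W) (h' : Cor A y Y Ψ r W') : W = W' := by
  obtain ⟨m, g, h1, h2⟩ := h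
  obtain ⟨m', g', h1', h2'⟩ := h'
  have e : X ^ m' * g = X ^ m * g' := by
    apply hy
    rw [map_mul, map_mul, map_pow, map_pow, aeval_X, ← h1, ← h1']; ring
  have e2 : Y ^ m' * Ψ g = Y ^ m * Ψ g' := by
    have := congrArg Ψ e
    rwa [map_mul, map_mul, map_pow, map_pow, hX] at this
  rw [← h2, ← h2'] at e2
  have e3 : Y ^ (m + m') * (W - W') = 0 := by
    rw [mul_sub, pow_add, sub_eq_zero]
    calc Y ^ m * Y ^ m' * W = Y ^ m' * (Y ^ m * W) := by ring
      _ = Y ^ m * (Y ^ m' * W') := e2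
      _ = _ := by ring
  rcases mul_eq_zero.mp e3 with e4 | e4
  · exact absurd e4 (pow_ne_zero _ hY)
  · exact sub_eq_zero.mp e4

/-- The homomorphism given by the correspondence. -/
theorem exists_hom (B : Subalgebra ℚ F) (hX : Ψ X = Y) (hY : Y ≠ 0)
    (hy : ∀ g g' : A[X], aeval y g = aeval y g' → g = g')
    (hC : ∀ r : ℚ, Ψ (C (algebraMap ℚ A r)) = algebraMap ℚ _ r)
    (hex : ∀ r ∈ B, ∃ W, Cor A y Y Ψ r W) :
    ∃ ι' : B →ₐ[ℚ] MvPolynomial (σ ⊕ σ) ℚ, ∀ b : B, Cor A y Y Ψ (b : F) (ι' b) := by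
  choose W hW using hex
  have huniq : ∀ {r : F} {W W' : MvPolynomial (σ ⊕ σ) ℚ}, Cor A y Y Ψ r W → Cor A y Y Ψ r W' →
    W = W' := fun h h' => cor_uniq hX hY hy h h'
  have hcomm : ∀ r : ℚ, Cor A y Y Ψ (algebraMap ℚ F r) (algebraMap ℚ _ r) := by
    intro r
    refine ⟨0, C (algebraMap ℚ A r), ?_, ?_⟩
    · rw [pow_zero, one_mul, aeval_C]; rfl
    · rw [pow_zero, one_mul, hC]
  refine ⟨{ toFun := fun b => W b.1 b.2
            map_one' := ?_
            map_mul' := ?_
            map_zero' := ?_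
            map_add' := ?_
            commutes' := ?_ }, fun b => hW b.1 b.2⟩
  · have := hcomm 1
    rw [map_one, map_one] at this
    exact huniq (hW _ _) this
  · intro a b
    exact huniq (hW _ _) (cor_mul (hW a.1 a.2) (hW b.1 b.2))
  · have := hcomm 0
    rw [map_zero, map_zero] at this
    exact huniq (hW _ _) this
  · intro a b
    exact huniq (hW _ _) (cor_add hX (hW a.1 a.2) (hW b.1 b.2))
  · intro r
    exact huniq (hW _ _) (hcomm r)

end

end EI

open EI in
theorem t_EI : M_EI := by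
  intro hI0 A _ y z f σ ι t s h1 hy hf hyz hs
  have hyinj : ∀ g g' : A[X], aeval y g = aeval y g' → g = g' := by
    intro g g' hg
    by_contra hne
    have h2 := hy (g + (C (-1)) * g') (fun h => hne (by
      have h3 : g = g + (C (-1)) * g' + g' := by
        rw [add_assoc]
        have : (C (-1 : A)) * g' + g' = 0 := by
          rw [C_neg, C_1]; ring
        rw [this, add_zero]
      rw [h3, h, zero_add]))
    rw [map_add, map_mul, hg, aeval_C] at h2
    have h4 : aeval y g' + algebraMap A F (-1) * aeval y g' = 0 := by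
      have : algebraMap A F (-1) = -1 := rfl
      rw [this]; ring
    rw [h4] at h2
    exact not_isUnit_zero h2
  set Y : MvPolynomial (σ ⊕ σ) ℚ := MvPolynomial.rename Sum.inl (ι f) with hYdef
  obtain ⟨Z, hZ⟩ : Y ∣ tau Y (ι f) := by
    have h := tau_dvd Y (ι f)
    have h' : Y ∣ (tau Y (ι f) - MvPolynomial.rename Sum.inl (ι f)) + Y :=
      dvd_add h (dvd_refl _)
    rwa [← hYdef, sub_add_cancel] at h'
  have hyp : ∀ p : Nat.Primes, y.2 p ≠ 0 := by
    intro p hp
    have hu : IsUnit (cp p y) := by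
      have := hy X X_ne_zero
      rw [aeval_X] at this
      exact this.map (cp p)
    rw [cp_apply, hp] at hu
    exact not_isUnit_zero hu
  set Ψ : A[X] →+* MvPolynomial (σ ⊕ σ) ℚ :=
    eval₂RingHom ((tau Y).toRingHom.comp ι.toRingHom) Y with hΨ
  have hΨX : Ψ X = Y := by
    rw [hΨ, coe_eval₂RingHom, eval₂_X]
  have hΨC : ∀ a : A, Ψ (C a) = tau Y (ι a) := by
    intro a
    rw [hΨ, coe_eval₂RingHom, eval₂_C]
    rfl
  let t' : ∀ p : Nat.Primes, σ ⊕ σ → ℚ_[(p : ℕ)] := fun p =>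
    Sum.elim (s p) (fun j => (t p j - s p j) / y.2 p)
  have hevY : ∀ p, MvPolynomial.aeval (t' p) Y = y.2 p := by
    intro p
    rw [hYdef, MvPolynomial.aeval_rename, hs p]
    rfl
  have hevtau : ∀ (p : Nat.Primes) (φ : MvPolynomial σ ℚ),
      MvPolynomial.aeval (t' p) (tau Y φ) = MvPolynomial.aeval (t p) φ := by
    intro p φ
    have : (MvPolynomial.aeval (t' p)).comp (tau Y) = MvPolynomial.aeval (t p) := by
      apply MvPolynomial.algHom_ext
      intro j
      rw [AlgHom.comp_apply, tau, MvPolynomial.aeval_X, map_add, map_mul, hevY,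
        MvPolynomial.aeval_X, MvPolynomial.aeval_X, MvPolynomial.aeval_X]
      simp only [t', Sum.elim_inl, Sum.elim_inr]
      field_simp [hyp p]
      ring
    rw [← this]
    rfl
  have hev : ∀ (p : Nat.Primes) (g : A[X]), MvPolynomial.aeval (t' p) (Ψ g) = (aeval y g).2 p := by
    intro p g
    rw [← cp_apply, aeval_def, hom_eval₂, hΨ, coe_eval₂RingHom]
    have h2 := hom_eval₂ g ((tau Y).toRingHom.comp ι.toRingHom)
      (MvPolynomial.aeval (R := ℚ) (t' p)).toRingHom Y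
    have h3 : (MvPolynomial.aeval (R := ℚ) (t' p)).toRingHom.comp
        ((tau Y).toRingHom.comp ι.toRingHom) = (cp p).comp (algebraMap A F) := by
      ext a
      change MvPolynomial.aeval (t' p) (tau Y (ι a)) = (a : F).2 p
      rw [hevtau, h1]
    rw [h3] at h2
    refine h2.trans ?_
    congr 1
    exact hevY p
  have hYne : Y ≠ 0 := by
    intro h
    have p : Nat.Primes := ⟨2, Nat.prime_two⟩
    have := hevY p
    rw [h, map_zero] at this
    exact hyp p this.symm
  have hex : ∀ r ∈ chart A y X ⊓ chart A z X, ∃ W, Cor A y Y Ψ r W := by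
    rintro r ⟨hr1, hr2⟩
    obtain ⟨m, g, hg⟩ := hr1
    obtain ⟨m', g', hg'⟩ := hr2
    rw [aeval_X] at hg hg'
    have hc := hI0 A y z f hy hf hyz r m m' g g' hg hg'
    have hdvd : Y ^ m ∣ Ψ g := by
      rw [hΨ, coe_eval₂RingHom, eval₂_eq_sum_range]
      apply Finset.dvd_sum
      intro k _
      by_cases hk : m ≤ k
      · exact (pow_dvd_pow Y hk).mul_left _
      · push Not at hk
        have h3 := hc (m - k) (by omega)
        rw [show m - (m - k) = k by omega] at h3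
        rw [h3, map_mul, map_pow]
        have h4 : ((tau Y).toRingHom.comp ι.toRingHom) f = Y * Z := hZ
        rw [h4, mul_pow]
        have h5 : Y ^ (m - k) * Y ^ k = Y ^ m := by rw [← pow_add]; congr 1; omega
        refine ⟨((tau Y).toRingHom.comp ι.toRingHom) (g'.coeff (m' + (m - k))) * Z ^ (m - k), ?_⟩
        rw [← h5]; ring
    obtain ⟨W, hW⟩ := hdvd
    exact ⟨W, m, g, hg, hW.symm⟩
  obtain ⟨ι', hι'⟩ := exists_hom (Ψ := Ψ) (chart A y X ⊓ chart A z X) hΨX hYne hyinj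
    (fun r => by
      rw [hΨC, AlgHom.commutes, AlgHom.commutes]) hex
  refine ⟨σ ⊕ σ, ι', t', fun a p => ?_⟩
  obtain ⟨m, g, h2, h3⟩ := hι' a
  have h4 : (y.2 p) ^ m * (a : F).2 p = (y.2 p) ^ m * MvPolynomial.aeval (t' p) (ι' a) := by
    have h5 := congrArg (cp p) h2
    rw [map_mul, map_pow, cp_apply, cp_apply, cp_apply, ← hev, ← h3, map_mul, map_pow, hevY] at h5
    exact h5
  exact mul_left_cancel₀ (pow_ne_zero m (hyp p)) h4

end OIE
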