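import Pool.Agent.OIE.St
import Pool.Agent.OID.RES

/-!
# Module EQN: solutions in the final ring give integer solutions
-/

namespace OIE

open Polynomial OID

namespace EQN

/-- small natural numbers -/
theorem small (N : Finset Nat.Primes) (ε : Nat.Primes → ℝ) (hε : ∀ p, 0 < ε p) :
    ∃ n : ℕ, 0 < n ∧ ∀ p ∈ N, ‖((n : ℕ) : ℚ_[(p : ℕ)])‖ < ε p := by
  classical
  have h1 : ∀ p : Nat.Primes, ∃ E : ℕ, (p : ℝ) ^ (-E : ℤ) < ε p := by
    intro p
    have h2 : (1 : ℝ) < ((p : ℕ) : ℝ) := by exact_mod_cast p.2.one_lt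
    obtain ⟨E, hE⟩ := pow_unbounded_of_one_lt (1 / ε p) h2
    refine ⟨E, ?_⟩
    rw [zpow_neg, zpow_natCast, inv_lt_comm₀ (by positivity) (hε p), ← one_div]
    exact hE
  choose E hE using h1
  refine ⟨∏ p ∈ N, (p : ℕ) ^ E p, Finset.prod_pos fun p _ => pow_pos p.2.pos _, fun p hp => ?_⟩
  rw [← Finset.mul_prod_erase N _ hp]
  push_cast
  rw [norm_mul]
  have h3 : ‖∏ q ∈ N.erase p, ((q : ℕ) : ℚ_[(p : ℕ)]) ^ E q‖ ≤ 1 := by
    have : (∏ q ∈ N.erase p, ((q : ℕ) : ℚ_[(p : ℕ)]) ^ E q) =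
        (((∏ q ∈ N.erase p, (q : ℕ) ^ E q : ℕ) : ℤ) : ℚ_[(p : ℕ)]) := by push_cast; rfl
    rw [this]
    exact Padic.norm_int_le_one _
  calc ‖((p : ℕ) : ℚ_[(p : ℕ)]) ^ E p‖ * ‖∏ q ∈ N.erase p, ((q : ℕ) : ℚ_[(p : ℕ)]) ^ E q‖
      ≤ ‖((p : ℕ) : ℚ_[(p : ℕ)]) ^ E p‖ * 1 := mul_le_mul_of_nonneg_left h3 (norm_nonneg _)
    _ < ε p := by rw [mul_one, Padic.norm_p_pow]; exact hE p

/-- weak approximation, with integrality outside of `N` -/
theorem approx (h1 : S_RAT) (N : Finset Nat.Primes) (t : ∀ p : Nat.Primes, ℚ_[(p : ℕ)])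
    (ε : Nat.Primes → ℝ) (hε : ∀ p, 0 < ε p) :
    ∃ q : ℚ, (∀ p ∈ N, ‖(q : ℚ_[(p : ℕ)]) - t p‖ < ε p) ∧
      ∀ p, p ∉ N → ‖(q : ℚ_[(p : ℕ)])‖ ≤ 1 := by
  classical
  obtain ⟨r, hr, hr1⟩ := h1.2.2.2 ((0, fun p => if p ∈ N ∧ t p ≠ 0 then t p else 1) : F)
    (by
      intro p
      dsimp only
      split_ifs with h
      · exact h.2
      · exact one_ne_zero)
    (by
      refine N.finite_toSet.subset ?_
      intro p hp
      by_contra hpN
      apply hp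
      dsimp only
      rw [if_neg (fun h => hpN h.1), norm_one])
  have hr0 : ∀ p : Nat.Primes, (r : ℚ_[(p : ℕ)]) ≠ 0 := by
    intro p
    exact_mod_cast hr.ne'
  have hr2 : ∀ p : Nat.Primes, ‖(r : ℚ_[(p : ℕ)]) * (if p ∈ N ∧ t p ≠ 0 then t p else 1)‖ = 1 := by
    intro p
    have := hr1 p
    change ‖(algebraMap ℚ F r).2 p * _‖ = 1 at this
    rwa [(h1.1 r).2 p] at this
  have hout : ∀ p, p ∉ N → ‖(r : ℚ_[(p : ℕ)])‖ = 1 := by
    intro p hp
    have := hr2 p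
    rwa [if_neg (fun h => hp h.1), mul_one] at this
  have hin : ∀ p ∈ N, ‖(r : ℚ_[(p : ℕ)]) * t p‖ ≤ 1 := by
    intro p hp
    by_cases ht : t p = 0
    · rw [ht, mul_zero, norm_zero]; exact zero_le_one
    · have := hr2 p
      rw [if_pos ⟨hp, ht⟩] at this
      exact this.le
  obtain ⟨n, hn, hn1⟩ := small N (fun p => ‖(r : ℚ_[(p : ℕ)])‖ * ε p)
    (fun p => mul_pos (norm_pos_iff.2 (hr0 p)) (hε p))
  obtain ⟨z, hz⟩ := t_RES ((0, fun p => if p ∈ N then (r : ℚ_[(p : ℕ)]) * t p else 0) : F)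
    (by
      intro p
      dsimp only
      split_ifs with h
      · exact hin p h
      · rw [norm_zero]; exact zero_le_one) n hn
  refine ⟨z / r, fun p hp => ?_, fun p hp => ?_⟩
  · have hz' := hz p
    dsimp only at hz'
    rw [if_pos hp] at hz'
    have h3 := lt_of_le_of_lt hz' (hn1 p hp)
    have e : (r : ℚ_[(p : ℕ)]) * t p - z = r * (t p - (z / r : ℚ)) := by
      push_cast
      field_simp [hr0 p]
    rw [e, norm_mul] at h3
    rw [norm_sub_rev]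
    exact lt_of_mul_lt_mul_left h3 (norm_nonneg _)
  · push_cast
    rw [norm_div, hout p hp, div_one]
    exact Padic.norm_int_le_one z

/-- infinitely many -/
theorem approx_inf (h1 : S_RAT) (N : Finset Nat.Primes) (t : ∀ p : Nat.Primes, ℚ_[(p : ℕ)])
    (ε : Nat.Primes → ℝ) (hε : ∀ p, 0 < ε p) :
    {q : ℚ | (∀ p ∈ N, ‖(q : ℚ_[(p : ℕ)]) - t p‖ < ε p) ∧
      ∀ p, p ∉ N → ‖(q : ℚ_[(p : ℕ)])‖ ≤ 1}.Infinite := by
  obtain ⟨q, hq, hq'⟩ := approx h1 N t ε hε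
  obtain ⟨n, hn, hn1⟩ := small N ε hε
  refine Set.infinite_of_injective_forall_mem (f := fun k : ℕ => q + k * n) ?_ ?_
  · intro a b hab
    have h0 : ((n : ℕ) : ℚ) ≠ 0 := by exact_mod_cast hn.ne'
    simp only [add_right_inj] at hab
    have := mul_right_cancel₀ h0 hab
    exact_mod_cast this
  · intro k
    have hk : ∀ p : Nat.Primes, ‖((k : ℕ) : ℚ_[(p : ℕ)])‖ ≤ 1 := by
      intro p
      exact_mod_cast Padic.norm_int_le_one (p := (p : ℕ)) (k : ℤ)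
    have hn' : ∀ p : Nat.Primes, ‖((n : ℕ) : ℚ_[(p : ℕ)])‖ ≤ 1 := by
      intro p
      exact_mod_cast Padic.norm_int_le_one (p := (p : ℕ)) (n : ℤ)
    refine ⟨fun p hp => ?_, fun p hp => ?_⟩
    · have e : ((q + k * n : ℚ) : ℚ_[(p : ℕ)]) - t p = (q - t p) + k * n := by
        push_cast; ring
      rw [e]
      refine lt_of_le_of_lt (Padic.nonarchimedean _ _) (max_lt (hq p hp) ?_)
      rw [norm_mul]
      calc ‖((k : ℕ) : ℚ_[(p : ℕ)])‖ * ‖((n : ℕ) : ℚ_[(p : ℕ)])‖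
          ≤ 1 * ‖((n : ℕ) : ℚ_[(p : ℕ)])‖ := mul_le_mul_of_nonneg_right (hk p) (norm_nonneg _)
        _ < ε p := by rw [one_mul]; exact hn1 p hp
    · have e : ((q + k * n : ℚ) : ℚ_[(p : ℕ)]) = q + k * n := by
        push_cast; ring
      rw [e]
      refine (Padic.nonarchimedean _ _).trans (max_le (hq' p hp) ?_)
      rw [norm_mul]
      exact mul_le_one₀ (hk p) (norm_nonneg _) (hn' p)

/-- the primes in the denominators of a rational number -/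
theorem fin_den (r : ℚ) : {p : Nat.Primes | ¬ ‖(r : ℚ_[(p : ℕ)])‖ ≤ 1}.Finite := by
  have h : (r.den.primeFactors : Set ℕ).Finite := Finset.finite_toSet _
  refine (h.preimage (f := fun p : Nat.Primes => (p : ℕ))
    (Set.injOn_of_injective Subtype.coe_injective)).subset ?_
  intro p hp
  rw [Set.mem_preimage, Finset.mem_coe, Nat.mem_primeFactors]
  refine ⟨p.2, ?_, r.den_nz⟩
  by_contra hd
  exact hp (Padic.norm_rat_le_one hd)

/-- integral values -/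
theorem int_val {σ : Type} (p : Nat.Primes) (φ : MvPolynomial σ ℚ)
    (hφ : ∀ m, ‖((φ.coeff m : ℚ) : ℚ_[(p : ℕ)])‖ ≤ 1) (τ : σ → ℚ_[(p : ℕ)])
    (hτ : ∀ j, ‖τ j‖ ≤ 1) : ‖MvPolynomial.aeval τ φ‖ ≤ 1 := by
  rw [MvPolynomial.aeval_def, MvPolynomial.eval₂_eq]
  have key : (∑ d ∈ φ.support, (algebraMap ℚ ℚ_[(p : ℕ)]) (φ.coeff d) *
      ∏ i ∈ d.support, τ i ^ d i) ∈ PadicInt.subring (p : ℕ) := by
    refine sum_mem fun d _ => mul_mem ?_ (prod_mem fun i _ => pow_mem ?_ _)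
    · exact hφ d
    · exact hτ i
  exact key

/-- continuity of the values -/
theorem cont {σ : Type} (p : Nat.Primes) (φ : MvPolynomial σ ℚ) (t : σ → ℚ_[(p : ℕ)]) :
    ∃ δ : ℝ, 0 < δ ∧ ∀ τ : σ → ℚ_[(p : ℕ)], (∀ j, ‖τ j - t j‖ < δ) →
      ‖MvPolynomial.aeval τ φ - MvPolynomial.aeval t φ‖ ≤ 1 := by
  classical
  have hc : Continuous fun τ : σ → ℚ_[(p : ℕ)] => MvPolynomial.aeval τ φ := by
    have e : (fun τ : σ → ℚ_[(p : ℕ)] => MvPolynomial.aeval τ φ) = fun τ =>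
        MvPolynomial.eval τ (MvPolynomial.map (algebraMap ℚ ℚ_[(p : ℕ)]) φ) := by
      funext τ
      rw [MvPolynomial.eval_map, MvPolynomial.aeval_def]
    rw [e]
    exact MvPolynomial.continuous_eval _
  have h1 := hc.continuousAt (x := t)
  have h2 := h1.eventually (Metric.closedBall_mem_nhds (MvPolynomial.aeval t φ) one_pos)
  rw [nhds_pi, Filter.eventually_iff, Filter.mem_pi] at h2
  obtain ⟨I, hI, s, hs, hsub⟩ := h2
  have h3 : ∀ j, ∃ δ : ℝ, 0 < δ ∧ Metric.ball (t j) δ ⊆ s j := fun j => Metric.mem_nhds_iff.1 (hs j)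
  choose δ hδ hδs using h3
  obtain ⟨δ0, hδ0, hδ1⟩ : ∃ δ0 : ℝ, 0 < δ0 ∧ ∀ j ∈ I, δ0 ≤ δ j := by
    by_cases hne : hI.toFinset.Nonempty
    · obtain ⟨j0, -, hj0⟩ := hI.toFinset.exists_min_image δ hne
      exact ⟨δ j0, hδ j0, fun j hj => hj0 j (hI.mem_toFinset.2 hj)⟩
    · refine ⟨1, one_pos, fun j hj => ?_⟩
      exact absurd ⟨j, hI.mem_toFinset.2 hj⟩ hne
  refine ⟨δ0, hδ0, fun τ hτ => ?_⟩
  have : τ ∈ I.pi s := by
    intro j hj
    apply hδs j
    rw [Metric.mem_ball, dist_eq_norm]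
    exact lt_of_lt_of_le (hτ j) (hδ1 j hj)
  have h4 := hsub this
  change dist _ _ ≤ 1 at h4
  rw [dist_eq_norm] at h4
  exact h4

end EQN

open EQN in
theorem t_EQN : M_EQN := by
  classical
  intro h1 P A hA n p g x hp hg
  have hB := hA.emb (Finset.univ.image fun i => (x i : F)) (by
    intro y hy
    obtain ⟨i, -, rfl⟩ := Finset.mem_image.1 hy
    exact (x i).2.1)
  obtain ⟨B, hBA, ⟨σ, ι, t, ht⟩, hxB⟩ := hB
  have hxB' : ∀ i, (x i : F) ∈ B := fun i => hxB _ (Finset.mem_image_of_mem _ (Finset.mem_univ i))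
  let b : Fin n → B := fun i => ⟨x i, hxB' i⟩
  let φ : Fin n → MvPolynomial σ ℚ := fun i => ι (b i)
  -- transfer of polynomial expressions
  have hF : ∀ f : MvPolynomial (Fin n) ℤ,
      ((MvPolynomial.aeval b f : B) : F) = ((MvPolynomial.aeval x f : MM A) : F) := by
    intro f
    have e1 : ((MvPolynomial.aeval b f : B) : F) = MvPolynomial.aeval (fun i => (x i : F)) f := by
      refine (MvPolynomial.map_aeval b (algebraMap B F) f).trans ?_
      exact congrArg₂ (fun r v => MvPolynomial.eval₂ r v f) (RingHom.ext_int _ _) rfl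
    have e2 : ((MvPolynomial.aeval x f : MM A) : F) = MvPolynomial.aeval (fun i => (x i : F)) f := by
      refine (MvPolynomial.map_aeval x ((MM A).subtype) f).trans ?_
      exact congrArg₂ (fun r v => MvPolynomial.eval₂ r v f) (RingHom.ext_int _ _) rfl
    rw [e1, e2]
  have hι : ∀ f : MvPolynomial (Fin n) ℤ, ι (MvPolynomial.aeval b f) = MvPolynomial.aeval φ f := by
    intro f
    refine (MvPolynomial.map_aeval b (ι : B →+* MvPolynomial σ ℚ) f).trans ?_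
    exact congrArg₂ (fun r v => MvPolynomial.eval₂ r v f) (RingHom.ext_int _ _) rfl
  have hp0 : MvPolynomial.aeval φ p = 0 := by
    rw [← hι]
    have : (MvPolynomial.aeval b p : B) = 0 := by
      apply Subtype.ext
      rw [hF, hp]
      rfl
    rw [this, map_zero]
  obtain ⟨γ, hγ⟩ : ∃ γ : MvPolynomial σ ℚ, γ = MvPolynomial.aeval φ g := ⟨_, rfl⟩
  have hγ0 : γ ≠ 0 := by
    intro h0
    have h2 : ((MvPolynomial.aeval x g : MM A) : F) ≠ 0 := by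
      intro h; exact hg (Subtype.ext h)
    have h3 := (hA.good.nz _ (MvPolynomial.aeval x g : MM A).2.1 h2).1 ⟨2, Nat.prime_two⟩
    apply h3
    rw [← hF, ht, hι, ← hγ, h0, map_zero]
  -- the bad primes
  have hfin : {q : Nat.Primes | ∃ i, ∃ m ∈ (φ i).support,
      ¬ ‖(((φ i).coeff m : ℚ) : ℚ_[(q : ℕ)])‖ ≤ 1}.Finite := by
    have : {q : Nat.Primes | ∃ i, ∃ m ∈ (φ i).support,
        ¬ ‖(((φ i).coeff m : ℚ) : ℚ_[(q : ℕ)])‖ ≤ 1} = ⋃ i, ⋃ m ∈ (φ i).support,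
        {q : Nat.Primes | ¬ ‖(((φ i).coeff m : ℚ) : ℚ_[(q : ℕ)])‖ ≤ 1} := by
      ext q; simp
    rw [this]
    refine Set.finite_iUnion fun i => ?_
    exact Set.Finite.biUnion (Finset.finite_toSet _) fun m _ => fin_den _
  obtain ⟨N, hN⟩ : ∃ N : Finset Nat.Primes, N = hfin.toFinset := ⟨_, rfl⟩
  have hNout : ∀ q, q ∉ N → ∀ i m, ‖(((φ i).coeff m : ℚ) : ℚ_[(q : ℕ)])‖ ≤ 1 := by
    intro q hq i m
    by_contra hcon
    apply hq
    rw [hN, Set.Finite.mem_toFinset]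
    refine ⟨i, m, ?_, hcon⟩
    rw [MvPolynomial.mem_support_iff]
    intro h0
    apply hcon
    rw [h0]
    simp
  -- radii
  have hδ : ∀ q : Nat.Primes, ∃ δ : ℝ, 0 < δ ∧ ∀ i, ∀ τ : σ → ℚ_[(q : ℕ)],
      (∀ j, ‖τ j - t q j‖ < δ) →
      ‖MvPolynomial.aeval τ (φ i) - MvPolynomial.aeval (t q) (φ i)‖ ≤ 1 := by
    intro q
    choose δ hδ hδ1 using fun i => cont q (φ i) (t q)
    obtain ⟨δ0, hδ0, hδ2⟩ : ∃ δ0 : ℝ, 0 < δ0 ∧ ∀ j : Fin n, δ0 ≤ δ j := by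
      by_cases hne : (Finset.univ : Finset (Fin n)).Nonempty
      · obtain ⟨j0, -, hj0⟩ := Finset.univ.exists_min_image δ hne
        exact ⟨δ j0, hδ j0, fun j => hj0 j (Finset.mem_univ j)⟩
      · refine ⟨1, one_pos, fun j => ?_⟩
        exact absurd ⟨j, Finset.mem_univ j⟩ hne
    exact ⟨δ0, hδ0, fun i τ hτ => hδ1 i τ fun j => lt_of_lt_of_le (hτ j) (hδ2 i)⟩
  choose δ hδ0 hδ1 using hδ
  obtain ⟨τ, hτ, hτγ⟩ : ∃ τ : σ → ℚ, (∀ j, (∀ q ∈ N, ‖(τ j : ℚ_[(q : ℕ)]) - t q j‖ < δ q) ∧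
      ∀ q, q ∉ N → ‖(τ j : ℚ_[(q : ℕ)])‖ ≤ 1) ∧ MvPolynomial.eval τ γ ≠ 0 := by
    by_contra hcon
    push Not at hcon
    apply hγ0
    refine MvPolynomial.funext_set (fun j => {q : ℚ | (∀ p ∈ N, ‖(q : ℚ_[(p : ℕ)]) - t p j‖ < δ p) ∧
      ∀ p, p ∉ N → ‖(q : ℚ_[(p : ℕ)])‖ ≤ 1}) (fun j => approx_inf h1 N _ δ hδ0) ?_
    intro τ hτ
    rw [map_zero]
    exact hcon τ fun j => hτ j (Set.mem_univ j)
  -- the values
  have hcast : ∀ (q : Nat.Primes) (f : MvPolynomial σ ℚ),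
      ((MvPolynomial.eval τ f : ℚ) : ℚ_[(q : ℕ)]) =
        MvPolynomial.aeval (fun j => (τ j : ℚ_[(q : ℕ)])) f := by
    intro q f
    have := MvPolynomial.eval₂_comp_left (algebraMap ℚ ℚ_[(q : ℕ)]) (RingHom.id ℚ) τ f
    rw [MvPolynomial.aeval_def]
    exact this
  have hint : ∀ i, ∃ z : ℤ, MvPolynomial.eval τ (φ i) = z := by
    intro i
    apply h1.2.1
    intro q
    rw [hcast]
    by_cases hq : q ∈ N
    · have h2 := hδ1 q i (fun j => (τ j : ℚ_[(q : ℕ)])) (fun j => (hτ j).1 q hq)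
      have h3 : ‖MvPolynomial.aeval (t q) (φ i)‖ ≤ 1 := by
        rw [← ht]
        exact (x i).2.2 q
      have e : MvPolynomial.aeval (fun j => (τ j : ℚ_[(q : ℕ)])) (φ i) =
          (MvPolynomial.aeval (fun j => (τ j : ℚ_[(q : ℕ)])) (φ i) -
            MvPolynomial.aeval (t q) (φ i)) + MvPolynomial.aeval (t q) (φ i) := by ring
      rw [e]
      exact (Padic.nonarchimedean _ _).trans (max_le h2 h3)
    · exact int_val q (φ i) (hNout q hq i) _ fun j => (hτ j).2 q hq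
  choose z hz using hint
  have hval : ∀ f : MvPolynomial (Fin n) ℤ,
      ((MvPolynomial.eval z f : ℤ) : ℚ) = MvPolynomial.eval τ (MvPolynomial.aeval φ f) := by
    intro f
    have e1 := MvPolynomial.eval₂_comp_left (Int.castRingHom ℚ) (RingHom.id ℤ) z f
    have e2 := MvPolynomial.map_aeval φ (MvPolynomial.eval τ) f
    rw [e2]
    change (Int.castRingHom ℚ) (MvPolynomial.eval₂ (RingHom.id ℤ) z f) = _
    rw [e1]
    change MvPolynomial.eval₂ _ _ f = MvPolynomial.eval₂ _ _ f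
    congr 1
    · exact RingHom.ext_int _ _
    · funext i
      exact (hz i).symm
  refine ⟨z, ?_, ?_⟩
  · have := hval p
    rw [hp0, map_zero] at this
    exact_mod_cast this
  · intro h0
    apply hτγ
    rw [hγ, ← hval g, h0]
    rfl

end OIE
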