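import Pool.Agent.OID.G
import Pool.Agent.OIE.St

/-!
# Adjoining an element near a hyperreal number (with the embedding in a polynomial ring)
-/

namespace OIE

open Polynomial OID

open OID.G in
theorem t_G2 : M_G2 := by
  intro hRL hAD hRAT hCONV hEG P A hP hA hE α hαb
  by_cases hα : ∃ a ∈ A, ∃ n : ℕ, |α - a.1| ≤ n
  · exact ⟨A, hA, ext_refl A, hE, hα⟩
  have hα' : ∀ a ∈ A, Inf (α - a.1) := by
    intro a ha
    by_contra h
    exact hα ⟨a, ha, not_inf h⟩
  obtain ⟨hdom, hufd, -, -⟩ := hCONV.1 P A hA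
  obtain ⟨y2, hy2, hy2'⟩ := hAD A hA.cnt hA.nz
  have : Countable A := hA.cnt.to_subtype
  have : Countable A[X] := by
    refine Function.Injective.countable (f := fun g : A[X] =>
      (⟨g.natDegree, fun i : Fin (g.natDegree + 1) => g.coeff i⟩ :
        Σ n : ℕ, (Fin (n + 1) → A))) ?_
    intro g g' h
    have h1 : g.natDegree = g'.natDegree := congrArg Sigma.fst h
    ext1 i
    rcases Nat.lt_or_ge g.natDegree i with h2 | h2
    · rw [coeff_eq_zero_of_natDegree_lt h2, coeff_eq_zero_of_natDegree_lt (h1 ▸ h2)]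
    · have h3 : ∀ x x' : Σ n : ℕ, (Fin (n + 1) → A), x = x' → ∀ i : ℕ, ∀ hi : i < x.1 + 1,
          ∀ hi' : i < x'.1 + 1, x.2 ⟨i, hi⟩ = x'.2 ⟨i, hi'⟩ := by
        rintro x x' rfl i hi hi'
        rfl
      exact h3 _ _ h i (Nat.lt_succ_of_le h2) (Nat.lt_succ_of_le (h2.trans h1.le))
  obtain ⟨θ, hθ0, hθ1, hθ⟩ := hRL
    ((fun g : A[X] => taylor α (g.map (toR A))) '' {g | 1 ≤ g.natDegree})
    ((Set.to_countable _).image _) (by
      rintro G ⟨g, hg, rfl⟩
      exact inf_coeff hA hα' g hg)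
  set y : F := (α + (θ : ℝ*), y2) with hy
  have hy0 : ∀ g : A[X], aeval y g = 0 → g = 0 := by
    intro g hg
    by_contra hg0
    have h1 := (hy2' g hg0 (α + (θ : ℝ*))).1 ⟨2, Nat.prime_two⟩
    apply h1
    rw [← hy, hg]
    rfl
  have hnz : Nz (chart A y 1 : Set F) := by
    intro a ha ha0
    obtain ⟨g, rfl⟩ := mem_chart.1 ha
    have hg0 : g ≠ 0 := by
      rintro rfl
      exact ha0 (map_zero _)
    exact hy2' g hg0 (α + (θ : ℝ*))
  have hinf : ∀ a ∈ chart A y 1, Inf a.1 ∨ ∃ r : ℚ, a = algebraMap ℚ F r := by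
    intro a ha
    obtain ⟨g, rfl⟩ := mem_chart.1 ha
    rcases Nat.lt_or_ge g.natDegree 1 with h | h
    · have h0 : g.natDegree = 0 := by omega
      rw [Polynomial.eq_C_of_natDegree_eq_zero h0, aeval_C']
      exact hA.inf _ (g.coeff 0).2
    · left
      rw [aeval_fst]
      have h1 := hθ _ ⟨g, h, rfl⟩
      rw [taylor_eval, add_comm] at h1
      exact h1
  have hufd' : UniqueFactorizationMonoid (chart A y 1) :=
    MulEquiv.uniqueFactorizationMonoid (iso hy0).toMulEquiv inferInstance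
  have hθabs : |(θ : ℝ*)| ≤ 1 := by
    rw [← Hyperreal.coe_abs, ← Hyperreal.coe_one, Hyperreal.coe_le_coe, abs_le]
    constructor <;> linarith
  refine ⟨chart A y 1, ⟨?_, hnz, hinf, hCONV.2.1 _ hnz hinf hufd', ?_, pr_chart hy0 hA.pr⟩,
    ⟨le_chart A y, ?_, fun q hq => Or.inl ⟨pr_chart hy0 hq.1, hq.2⟩⟩, hEG.2 A y hE hy0, y, ?_, 1, ?_⟩
  · have h1 : (chart A y 1 : Set F) = Set.range fun g : A[X] => aeval y g := by
      ext r
      exact mem_chart
    rw [h1]
    exact Set.countable_range _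
  · intro a ha
    obtain ⟨g, rfl⟩ := mem_chart.1 ha
    refine bd_aeval hA.bd (bd_add hαb ?_) g
    exact ⟨1, by
      rw [pow_one]
      exact lt_of_le_of_lt hθabs (lt_trans (by norm_num) two_lt)⟩
  · intro a ha b hb c hc ha0 hab
    obtain ⟨g, rfl⟩ := mem_chart.1 hc
    have h1 : C (⟨a, ha⟩ : A) * g = C (⟨b, hb⟩ : A) := by
      apply (iso hy0).injective
      apply Subtype.ext
      rw [iso_val, iso_val, map_mul, aeval_C', aeval_C']
      exact hab
    have ha1 : (⟨a, ha⟩ : A) ≠ 0 := fun h => ha0 (congrArg Subtype.val h)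
    have h3 : g.natDegree = 0 := by
      have h4 := congrArg natDegree h1
      rwa [natDegree_C_mul ha1, natDegree_C] at h4
    rw [Polynomial.eq_C_of_natDegree_eq_zero h3, aeval_C']
    exact (g.coeff 0).2
  · exact mem_chart.2 ⟨X, aeval_X _⟩
  · rw [hy]
    change |α - (α + (θ : ℝ*))| ≤ ((1 : ℕ) : ℝ*)
    rw [sub_add_cancel_left, abs_neg, Nat.cast_one]
    exact hθabs

end OIE
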