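import Pool.Agent.OID.I
import Pool.Agent.OIE.St

/-!
# Splitting a normal prime (with the embedding in a polynomial ring)
-/

namespace OIE

open Polynomial OID

open OID.I in
theorem t_I2 : M_I2 := by
  intro hIVT hRL hAD2 hR hC hCH hI0 hEI P A hP hA hE f hf hfO
  obtain ⟨σ, ι, t, hιt⟩ := hE
  obtain ⟨hdom, hufd, hunF, hrat⟩ := hC.1 P A hA
  obtain ⟨hfA, hfp⟩ := hf.1
  have hfne : (⟨f, hfA⟩ : A) ≠ 0 := hfp.ne_zero
  have hf0 : f ≠ 0 := fun h => hfne (Subtype.ext h)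
  have hf1 : 0 < |f.1| := om_pos.trans hfO
  obtain ⟨ρ, hρ0, hρf⟩ := exists_rho hIVT |f.1| hf1
  have hρ : Inf ρ := inf_rho hfO hρ0 hρf
  obtain ⟨θ, hθh, hθ1, hθ⟩ := exists_theta hRL A hA.cnt ρ
  have hθ0 : 0 < θ := by linarith
  have hθ0' : (0 : ℝ*) < (θ : ℝ*) := by exact_mod_cast hθ0
  have hθ1' : (θ : ℝ*) < 1 := by exact_mod_cast hθ1
  obtain ⟨s, hy₂, hy₂'⟩ := hAD2 P A hA σ ι t hιt ⟨f, hfA⟩ hf
  obtain ⟨y₂, hy₂def⟩ : ∃ y₂ : ∀ p : Nat.Primes, ℚ_[(p : ℕ)],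
      y₂ = fun p => MvPolynomial.aeval (s p) (ι ⟨f, hfA⟩) := ⟨_, rfl⟩
  obtain ⟨y, hydef⟩ : ∃ y : F, y = (ρ * (θ : ℝ*), y₂) := ⟨_, rfl⟩
  have hy1 : y.1 = ρ * (θ : ℝ*) := by rw [hydef]
  have hy2 : ∀ p, ‖y.2 p‖ = 1 := fun p => by rw [hydef, hy₂def]; exact hy₂ p
  have hyAD : ∀ g : A[X], g ≠ 0 → (∀ p, (aeval y g).2 p ≠ 0) ∧
      {p | ‖(aeval y g).2 p‖ ≠ 1}.Finite := fun g hg => by
    rw [hydef, hy₂def]; exact hy₂' g hg _
  have huy : ∀ g : A[X], g ≠ 0 → IsUnit (aeval y g) := fun g hg =>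
    unit_y hA hR hρ0 hρ θ hθ y hy1 (fun g hg => (hyAD g hg).1) g hg
  have hyu : IsUnit y := by
    have := huy X X_ne_zero
    rwa [aeval_X] at this
  obtain ⟨u, hu⟩ := hyu
  obtain ⟨z, hzdef⟩ : ∃ z : F, z = f * ((u⁻¹ : Fˣ) : F) := ⟨_, rfl⟩
  have hyz : y * z = f := by
    rw [hzdef, ← hu, mul_comm f, ← mul_assoc, Units.mul_inv, one_mul]
  have huz : ∀ g : A[X], g ≠ 0 → IsUnit (aeval z g) := by
    intro g hg
    rw [hzdef]
    exact unit_z A u ⟨f, hfA⟩ hfne (fun g hg => by rw [hu]; exact huy g hg) g hg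
  have hyu : IsUnit y := ⟨u, hu⟩
  have hzu : IsUnit z := by
    have := huz X X_ne_zero
    rwa [aeval_X] at this
  have hyz1 : y.1 * z.1 = f.1 := by rw [← hyz]; rfl
  have hz2 : ∀ p, ‖z.2 p‖ = 1 := by
    intro p
    have h1 : y.2 p * z.2 p = f.2 p := by rw [← hyz]; rfl
    have h2 := congrArg norm h1
    rw [norm_mul, hy2 p, one_mul, hf.2 p] at h2
    exact h2
  -- the charts
  have hCX : ¬ (C (⟨f, hfA⟩ : A)) ∣ (X : A[X]) := by
    intro h
    rw [C_dvd_iff_dvd_coeff] at h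
    have := h 1
    rw [coeff_X_one] at this
    exact hfp.not_isUnit (isUnit_of_dvd_one this)
  have chart_y : ∀ x : A, (x : F) ∈ chart A y X := fun x => (chart A y X).algebraMap_mem' |> fun _ =>
    (chart_X A y x).2 ⟨0, C x, by rw [pow_zero, one_mul, aeval_C]; rfl⟩
  have chart_z : ∀ x : A, (x : F) ∈ chart A z X := fun x =>
    (chart_X A z x).2 ⟨0, C x, by rw [pow_zero, one_mul, aeval_C]; rfl⟩
  have hzz : z ∈ chart A z X := (chart_X A z z).2 ⟨0, X, by rw [pow_zero, one_mul, aeval_X]⟩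
  have hyy : y ∈ chart A y X := (chart_X A y y).2 ⟨0, X, by rw [pow_zero, one_mul, aeval_X]⟩
  have hyz' : y ∈ chart A z X := (chart_X A z y).2 ⟨1, C ⟨f, hfA⟩, by
    rw [pow_one, aeval_C, mul_comm, hyz]; rfl⟩
  have hzy' : z ∈ chart A y X := (chart_X A y z).2 ⟨1, C ⟨f, hfA⟩, by
    rw [pow_one, aeval_C, hyz]; rfl⟩
  obtain ⟨zi, hzi⟩ := hzu.exists_right_inv
  obtain ⟨yi, hyi⟩ := hyu.exists_right_inv
  have hziz : zi ∈ chart A z X := (chart_X A z zi).2 ⟨1, 1, by rw [pow_one, hzi, map_one]⟩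
  have hyiy : yi ∈ chart A y X := (chart_X A y yi).2 ⟨1, 1, by rw [pow_one, hyi, map_one]⟩
  obtain ⟨hle, hyA', hdom', hufd', hpy, hprs⟩ := hCH A y z X X ⟨f, hfA⟩ huy huz prime_X hfp hCX hyz'
    ⟨zi, hziz, by
      rw [aeval_X]
      change y = f * zi
      rw [← hyz, mul_assoc, hzi, mul_one]⟩
    ⟨z, hzz, by
      rw [aeval_X]
      change f = y * z
      exact hyz.symm⟩
  obtain ⟨-, -, -, -, hpz, -⟩ := hCH A z y X X ⟨f, hfA⟩ huz huy prime_X hfp hCX hzy'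
    ⟨yi, hyiy, by
      rw [aeval_X]
      change z = f * yi
      rw [← hyz, mul_comm y z, mul_assoc, hyi, mul_one]⟩
    ⟨y, hyy, by
      rw [aeval_X]
      change f = z * y
      rw [mul_comm]
      exact hyz.symm⟩
  rw [inf_comm] at hpz
  rw [aeval_X] at hpy hpz
  obtain ⟨A', hA'def⟩ : ∃ A' : Subalgebra ℚ F, A' = chart A y X ⊓ chart A z X := ⟨_, rfl⟩
  rw [← hA'def] at hle hyA' hdom' hufd' hpy hprs hpz
  have hA'y : ∀ r ∈ A', r ∈ chart A y X := fun r hr => by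
    rw [hA'def] at hr; exact hr.1
  have hA'z : ∀ r ∈ A', r ∈ chart A z X := fun r hr => by
    rw [hA'def] at hr; exact hr.2
  have hzA' : z ∈ A' := by rw [hA'def]; exact ⟨hzy', hzz⟩
  have hnyp : NPr A' y := ⟨hpy, hy2⟩
  have hnzp : NPr A' z := ⟨hpz, hz2⟩
  -- the properties of `A'`
  have hnz : Nz (A' : Set F) := by
    intro a ha h0
    exact nz_chart A y hyu hy2 hyAD a (hA'y a ha) h0
  have hinf : ∀ a ∈ A', Inf a.1 ∨ ∃ r : ℚ, a = algebraMap ℚ F r := by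
    intro a ha
    rcases dich hA hR hI0 hρ0 hρ θ hθ0 hθ1 hθ y z ⟨f, hfA⟩ hy1 huy hfne hyz hρf.symm a
      (hA'y a ha) (hA'z a ha) with h | h
    · exact Or.inl h
    · exact hA.inf a h
  have hbdy : OID.I.Bd y := by
    obtain ⟨k, hk⟩ := hA.bd f hfA
    refine ⟨k, lt_of_le_of_lt ?_ hk⟩
    rw [hy1, abs_mul, abs_of_pos hρ0, abs_of_pos hθ0', ← hρf]
    have h1 : (1 : ℝ*) ≤ ρ := by
      have := hρ 1
      rw [abs_of_pos hρ0] at this
      push_cast at this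
      exact this.le
    nlinarith
  have hbdyi : OID.I.Bd yi := by
    refine ⟨1, ?_⟩
    have h1 : y.1 * yi.1 = 1 := by
      have := congrArg Prod.fst hyi
      exact this
    have h2 : (1 : ℝ*) ≤ y.1 := by
      rw [hy1]
      have h3 := hρ 2
      rw [abs_of_pos hρ0] at h3
      push_cast at h3
      have h4 : ((1 / 2 : ℝ) : ℝ*) < (θ : ℝ*) := by exact_mod_cast hθh
      have h5 : ((1 / 2 : ℝ) : ℝ*) = 1 / 2 := by push_cast; rfl
      rw [h5] at h4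
      nlinarith
    have h3 : |yi.1| ≤ 1 := by
      have h4 : yi.1 = (y.1)⁻¹ := eq_inv_of_mul_eq_one_right h1
      rw [h4, abs_of_nonneg (inv_nonneg.2 (zero_le_one.trans h2))]
      exact inv_le_one_of_one_le₀ h2
    have h4 := om_nat 1
    push_cast at h4
    rw [pow_one]
    exact h3.trans_lt h4
  have hexp : ∀ a ∈ A', ∃ (m : ℕ) (g : A[X]), a = yi ^ m * aeval y g := by
    intro a ha
    obtain ⟨m, g, hg⟩ := (chart_X A y a).1 (hA'y a ha)
    refine ⟨m, g, ?_⟩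
    rw [← hg, ← mul_assoc, ← mul_pow, mul_comm yi y, hyi, one_pow, one_mul]
  have hbd : ∀ a ∈ A', ∃ k : ℕ, |a.1| < Om ^ k := by
    intro a ha
    obtain ⟨m, g, hg⟩ := hexp a ha
    rw [hg]
    exact (hbdyi.pow m).mul (OID.I.Bd.aeval A hA.bd hbdy g)
  have hcnt : (A' : Set F).Countable := by
    have := countable_poly A hA.cnt
    refine (Set.countable_range (fun x : ℕ × A[X] => yi ^ x.1 * aeval y x.2)).mono ?_
    intro a ha
    obtain ⟨m, g, hg⟩ := hexp a ha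
    exact ⟨(m, g), hg.symm⟩
  have hpr : Pr A' P := by
    obtain ⟨hPA, hPp⟩ := hA.pr
    refine hprs ⟨P, hPA⟩ hPp ?_
    intro h
    obtain ⟨r, hr, hr2⟩ := pm hA hR hC f P hf ⟨⟨hPA, hPp⟩, hP.2⟩ hfA hPA h
    have h1 : |P.1| = |f.1| := by
      rw [hr2, Prod.fst_mul, abs_mul, (hR.1 r).1]
      rcases hr with rfl | rfl <;> simp
    rw [hP.1, abs_of_pos om_pos] at h1
    exact absurd hfO (by rw [← h1]; exact lt_irrefl _)
  have hEmb : Emb A' := by
    rw [hA'def]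
    exact hEI A y z ⟨f, hfA⟩ σ ι t s hιt huy hfne hyz (fun p => by rw [hydef, hy₂def])
  refine ⟨A', ⟨hcnt, hnz, hinf, hC.2.1 A' hnz hinf hufd', hbd, hpr⟩, ⟨hle, ?_, ?_⟩, hEmb, ?_⟩
  · -- division
    intro a ha b hb c hc ha0 hac
    obtain ⟨m, g, hg⟩ := (chart_X A y c).1 (hA'y c hc)
    have h1 : aeval y (C (⟨a, ha⟩ : A) * g) = aeval y (C (⟨b, hb⟩ : A) * X ^ m) := by
      rw [map_mul, map_mul, aeval_C, aeval_C, map_pow, aeval_X, ← hg]
      change a * (y ^ m * c) = b * y ^ m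
      rw [← hac]
      ring
    have h2 := inj_of_unit A y huy h1
    have ha0' : (⟨a, ha⟩ : A) ≠ 0 := fun h => ha0 (congrArg Subtype.val h)
    have h3 : ∀ k, k ≠ m → g.coeff k = 0 := by
      intro k hk
      have h4 := congrArg (fun q => coeff q k) h2
      simp only [coeff_C_mul, coeff_X_pow, if_neg hk, mul_zero] at h4
      rcases mul_eq_zero.1 h4 with h5 | h5
      · exact absurd h5 ha0'
      · exact h5
    rw [eq_C_mul_X_pow g m h3, map_mul, aeval_C, map_pow, aeval_X] at hg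
    have h5 : y ^ m * c = y ^ m * (g.coeff m : F) := by
      rw [hg]
      exact mul_comm _ _
    rw [(hyu.pow m).mul_left_cancel h5]
    exact (g.coeff m).2
  · -- primes
    intro q hq
    obtain ⟨hqA, hqp⟩ := hq.1
    by_cases h : (⟨f, hfA⟩ : A) ∣ ⟨q, hqA⟩
    · right
      obtain ⟨r, hr, hr2⟩ := pm hA hR hC f q hf hq hfA hqA h
      have h1 : |q.1| = |f.1| := by
        rw [hr2, Prod.fst_mul, abs_mul, (hR.1 r).1]
        rcases hr with rfl | rfl <;> simp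
      refine ⟨by rw [h1]; exact hfO, {y, z}, r, ?_, ?_⟩
      · rw [hr2, ← hyz]
        simp
      · have h4 : ((1 / 2 : ℝ) : ℝ*) < (θ : ℝ*) := by exact_mod_cast hθh
        have h5 : ((1 / 2 : ℝ) : ℝ*) = 1 / 2 := by push_cast; rfl
        rw [h5] at h4
        intro w hw
        have hw' : w = y ∨ w = z := by simpa using hw
        rcases hw' with rfl | rfl
        · refine ⟨hnyp, ?_⟩
          rw [h1, hy1, ← hρf]
          have : (θ : ℝ*) ^ 2 ≤ 4 := by nlinarith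
          nlinarith [sq_nonneg ρ]
        · refine ⟨hnzp, ?_⟩
          rw [h1]
          have h6 : (y.1 * w.1) ^ 2 = |f.1| ^ 2 := by rw [hyz1, sq_abs]
          rw [hy1, ← hρf] at h6
          rw [← hρf]
          have h7 : (θ : ℝ*) ^ 2 * w.1 ^ 2 = ρ ^ 2 := by
            have h8 : ρ ^ 2 * ((θ : ℝ*) ^ 2 * w.1 ^ 2) = ρ ^ 2 * ρ ^ 2 := by
              calc _ = (ρ * (θ : ℝ*) * w.1) ^ 2 := by ring
                _ = (ρ ^ 2) ^ 2 := h6
                _ = _ := by ring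
            exact mul_left_cancel₀ (pow_ne_zero 2 hρ0.ne') h8
          have h9 : (1 / 4 : ℝ*) ≤ (θ : ℝ*) ^ 2 := by nlinarith
          nlinarith [sq_nonneg w.1]
    · left
      exact ⟨hprs ⟨q, hqA⟩ hqp h, hq.2⟩
  · -- `f` is not prime
    rintro ⟨hfA', hfp'⟩
    have h1 : (⟨f, hfA'⟩ : A') = ⟨y, hyA'⟩ * ⟨z, hzA'⟩ := Subtype.ext hyz.symm
    obtain ⟨_, hpy'⟩ := hpy
    obtain ⟨_, hpz'⟩ := hpz
    rcases hfp'.irreducible.isUnit_or_isUnit h1 with h2 | h2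
    · exact hpy'.not_isUnit h2
    · exact hpz'.not_isUnit h2

end OIE
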