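import Pool.Agent.OIE.Stmts4

/-!
# Module OID_LIN: relations between segments
-/

namespace OIE

open OID

namespace LIN

open AddMonoidAlgebra

section act

variable (M : Type) [CommRing M]

/-- translations -/
noncomputable def tr : Multiplicative M →* Module.End ℤ (M → ℤ) where
  toFun m :=
    { toFun := fun F x => F (x - m.toAdd)
      map_add' := fun _ _ => rfl
      map_smul' := fun _ _ => rfl }
  map_one' := by
    apply LinearMap.ext
    intro F
    funext x
    change F (x - 0) = F x
    rw [sub_zero]
  map_mul' a b := by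
    apply LinearMap.ext
    intro F
    funext x
    change F (x - (a.toAdd + b.toAdd)) = F (x - a.toAdd - b.toAdd)
    rw [sub_sub]

/-- the action of the group ring on the functions -/
noncomputable def act : AddMonoidAlgebra ℤ M →ₐ[ℤ] Module.End ℤ (M → ℤ) :=
  AddMonoidAlgebra.lift ℤ (Module.End ℤ (M → ℤ)) M (tr M)

open Classical in
/-- the function concentrated at zero -/
noncomputable def dl : M → ℤ := fun x => if x = 0 then 1 else 0

variable {M}

theorem act_single (m : M) (r : ℤ) (F : M → ℤ) (x : M) :
    act M (single m r) F x = r * F (x - m) := by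
  rw [act, lift_single]
  rfl

theorem act_dl (Q : AddMonoidAlgebra ℤ M) (x : M) : act M Q (dl M) x = Q.coeff x := by
  classical
  induction Q using AddMonoidAlgebra.induction_on with
  | of m =>
    have h1 : (of ℤ M) (Multiplicative.ofAdd m) = single m 1 := rfl
    rw [h1, act_single, dl]
    simp only [sub_eq_zero, one_mul]
    rw [AddMonoidAlgebra.coeff_single, Finsupp.single_apply]
    simp only [eq_comm]
  | add P Q hP hQ =>
    rw [map_add, LinearMap.add_apply, Pi.add_apply, hP, hQ, AddMonoidAlgebra.coeff_add]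
    rfl
  | smul r P hP =>
    rw [map_smul, LinearMap.smul_apply, Pi.smul_apply, hP, AddMonoidAlgebra.coeff_smul]
    rfl

theorem act_dl_inj (Q : AddMonoidAlgebra ℤ M) (h : act M Q (dl M) = 0) : Q = 0 := by
  apply AddMonoidAlgebra.ext
  ext x
  rw [← act_dl, h]
  rfl

end act

section seg

variable {M : Type} [CommRing M] [LinearOrder M] [IsStrictOrderedRing M]

open Classical in
/-- the indicator function of a segment -/
noncomputable def sg (c e n : M) : M → ℤ := (Seg c e n).indicator fun _ => 1

theorem mem_seg (c e n w : M) (he : e ≠ 0) : c + e * w ∈ Seg c e n ↔ 0 ≤ w ∧ w < n := by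
  constructor
  · rintro ⟨v, h1, h2, h3⟩
    have h4 : e * w = e * v := add_left_cancel h3
    have h5 := mul_left_cancel₀ he h4
    rw [h5]
    exact ⟨h1, h2⟩
  · rintro ⟨h1, h2⟩
    exact ⟨w, h1, h2, rfl⟩

theorem tel (hd : ∀ x : M, 0 < x → 1 ≤ x) (c e n : M) (he : e ≠ 0) (hn : 0 ≤ n) :
    act M (1 - single e 1) (sg c e n) =
      act M (single c 1 - single (c + e * n) 1) (dl M) := by
  classical
  funext x
  have h1 : act M (1 - single e 1) (sg c e n) x = sg c e n x - sg c e n (x - e) := by
    rw [map_sub, map_one, LinearMap.sub_apply, Pi.sub_apply, act_single, one_mul]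
    rfl
  have h2 : act M (single c 1 - single (c + e * n) 1) (dl M) x =
      dl M (x - c) - dl M (x - (c + e * n)) := by
    rw [map_sub, LinearMap.sub_apply, Pi.sub_apply, act_single, act_single, one_mul, one_mul]
  rw [h1, h2]
  simp only [sg, dl, Set.indicator_apply, sub_eq_zero]
  by_cases hx : ∃ w, x = c + e * w
  · obtain ⟨w, rfl⟩ := hx
    have h3 : c + e * w - e = c + e * (w - 1) := by ring
    have h4 : c + e * w = c ↔ w = 0 := by
      constructor
      · intro h
        have h5 : e * w = 0 := by simpa using h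
        exact (mul_eq_zero.1 h5).resolve_left he
      · rintro rfl
        simp
    have h5 : c + e * w = c + e * n ↔ w = n := by
      constructor
      · intro h
        exact mul_left_cancel₀ he (add_left_cancel h)
      · rintro rfl
        rfl
    rw [h3, mem_seg c e n w he, mem_seg c e n (w - 1) he]
    simp only [h4, h5]
    have hd1 : 0 < w → 1 ≤ w := hd w
    have hd2 : w < n → w + 1 ≤ n := fun h => by
      have := hd (n - w) (sub_pos.2 h)
      linarith
    have hd3 : 0 < n → 1 ≤ n := hd n
    have hd4 : n < w → n + 1 ≤ w := fun h => by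
      have := hd (w - n) (sub_pos.2 h)
      linarith
    have hd5 : w < 0 → w + 1 ≤ 0 := fun h => by
      have := hd (0 - w) (sub_pos.2 h)
      linarith
    rcases lt_trichotomy w 0 with h6 | h6 | h6
    · have a1 : ¬ (0 ≤ w ∧ w < n) := fun h => absurd h.1 (not_le.2 h6)
      have a2 : ¬ (0 ≤ w - 1 ∧ w - 1 < n) := fun h => by linarith [h.1]
      have a3 : ¬ w = 0 := ne_of_lt h6
      have a4 : ¬ w = n := ne_of_lt (lt_of_lt_of_le h6 hn)
      rw [if_neg a1, if_neg a2, if_neg a3, if_neg a4]
    · rw [h6]
      have a2 : ¬ ((0 : M) ≤ 0 - 1 ∧ (0 : M) - 1 < n) := fun h => by linarith [h.1]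
      rw [if_neg a2, if_pos rfl]
      by_cases h7 : (0 : M) = n
      · have a1 : ¬ ((0 : M) ≤ 0 ∧ (0 : M) < n) := fun h => absurd h7 (ne_of_lt h.2)
        rw [if_neg a1, if_pos h7]
        rfl
      · have a1 : (0 : M) ≤ 0 ∧ (0 : M) < n := ⟨le_rfl, lt_of_le_of_ne hn h7⟩
        rw [if_pos a1, if_neg h7]
    · have a3 : ¬ w = 0 := ne_of_gt h6
      rw [if_neg a3]
      rcases lt_trichotomy w n with h7 | h7 | h7
      · have a1 : 0 ≤ w ∧ w < n := ⟨h6.le, h7⟩
        have a2 : 0 ≤ w - 1 ∧ w - 1 < n := ⟨by linarith [hd1 h6], by linarith⟩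
        rw [if_pos a1, if_pos a2, if_neg (ne_of_lt h7)]
        rfl
      · have a1 : ¬ (0 ≤ w ∧ w < n) := fun h => absurd h7 (ne_of_lt h.2)
        have a2 : 0 ≤ w - 1 ∧ w - 1 < n := ⟨by linarith [hd1 h6], by linarith⟩
        rw [if_neg a1, if_pos a2, if_pos h7]
      · have a1 : ¬ (0 ≤ w ∧ w < n) := fun h => absurd h.2 (not_lt.2 h7.le)
        have a2 : ¬ (0 ≤ w - 1 ∧ w - 1 < n) := fun h => by linarith [h.2, hd4 h7]
        rw [if_neg a1, if_neg a2, if_neg (ne_of_gt h7)]
  · have b1 : x ∉ Seg c e n := fun ⟨w, _, _, h⟩ => hx ⟨w, h⟩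
    have b2 : x - e ∉ Seg c e n := fun ⟨w, _, _, h⟩ => hx ⟨w + 1, by
      rw [mul_add, mul_one, ← add_assoc, ← h]
      ring⟩
    have b3 : ¬ x = c := fun h => hx ⟨0, by rw [h]; ring⟩
    have b4 : ¬ x = c + e * n := fun h => hx ⟨n, h⟩
    rw [if_neg b1, if_neg b2, if_neg b3, if_neg b4]

end seg

section power

variable (K : Type) [Field K] [Algebra ℚ K]

/-- `t ^ m ↦ exp (m X)` -/
noncomputable def ex (M : Type) [CommRing M] [Algebra M K] :
    AddMonoidAlgebra ℤ M →ₐ[ℤ] PowerSeries K :=
  AddMonoidAlgebra.lift ℤ (PowerSeries K) M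
    { toFun := fun m => PowerSeries.rescale (algebraMap M K m.toAdd) (PowerSeries.exp K)
      map_one' := by
        have h1 : (Multiplicative.toAdd (1 : Multiplicative M)) = 0 := rfl
        rw [h1, map_zero, PowerSeries.rescale_zero_apply]
        ext n
        simp
      map_mul' := fun a b => by
        have h1 : (Multiplicative.toAdd (a * b)) = a.toAdd + b.toAdd := rfl
        rw [h1, map_add, PowerSeries.exp_mul_exp_eq_exp_add] }

variable {M : Type} [CommRing M] [Algebra M K]

theorem ex_single (m : M) : ex K M (single m 1) =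
    PowerSeries.rescale (algebraMap M K m) (PowerSeries.exp K) := by
  rw [ex, lift_single]
  exact one_smul ℤ _

theorem ex_cc (m : M) : PowerSeries.constantCoeff (ex K M (single m 1)) = 1 := by
  rw [ex_single, ← PowerSeries.coeff_zero_eq_constantCoeff_apply, PowerSeries.coeff_rescale]
  simp

theorem ex_c1 (m : M) : PowerSeries.coeff 1 (ex K M (single m 1)) = algebraMap M K m := by
  rw [ex_single, PowerSeries.coeff_rescale]
  simp

omit [Algebra ℚ K] in
theorem coeff_prod {ι : Type} (I : Finset ι) (f : ι → PowerSeries K)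
    (hf : ∀ i ∈ I, PowerSeries.constantCoeff (f i) = 0) :
    PowerSeries.coeff I.card (∏ i ∈ I, f i) = ∏ i ∈ I, PowerSeries.coeff 1 (f i) := by
  have h1 : ∀ i ∈ I, ∃ g : PowerSeries K, f i = PowerSeries.X * g := fun i hi =>
    PowerSeries.X_dvd_iff.2 (hf i hi)
  choose! g hg using h1
  rw [Finset.prod_congr rfl hg, Finset.prod_mul_distrib, Finset.prod_const]
  have h2 := PowerSeries.coeff_X_pow_mul (∏ i ∈ I, g i) I.card 0
  rw [zero_add] at h2
  rw [h2, PowerSeries.coeff_zero_eq_constantCoeff_apply, map_prod]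
  apply Finset.prod_congr rfl
  intro i hi
  rw [hg i hi]
  have h3 := PowerSeries.coeff_X_pow_mul (g i) 1 0
  rw [zero_add, pow_one] at h3
  rw [h3, PowerSeries.coeff_zero_eq_constantCoeff_apply]

end power

end LIN

open AddMonoidAlgebra in
theorem t_LIN : S_LIN := by
  intro M _ _ _ hd ι I α c e n he hrel
  classical
  -- the relation in the group ring
  have h1 : ∑ i ∈ I, (α i : AddMonoidAlgebra ℤ M) * ((∏ j ∈ I.erase i, (1 - single (e j) 1)) *
      (single (c i) 1 - single (c i + e i * n i) 1)) = 0 := by
    apply LIN.act_dl_inj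
    have h2 : ∀ i ∈ I, LIN.act M ((α i : AddMonoidAlgebra ℤ M) *
        ((∏ j ∈ I.erase i, (1 - single (e j) 1)) *
          (single (c i) 1 - single (c i + e i * n i) 1))) (LIN.dl M) =
        LIN.act M (∏ j ∈ I, (1 - single (e j) 1))
          ((Seg (c i) (e i) (n i)).indicator fun _ => α i) := by
      intro i hi
      have h3 : ((Seg (c i) (e i) (n i)).indicator fun _ => α i) =
          α i • LIN.sg (c i) (e i) (n i) := by
        funext x
        rw [Pi.smul_apply, LIN.sg, Set.indicator_apply, Set.indicator_apply]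
        split_ifs <;> simp
      have h4 : (∏ j ∈ I, (1 - single (e j) 1) : AddMonoidAlgebra ℤ M) =
          (∏ j ∈ I.erase i, (1 - single (e j) 1)) * (1 - single (e i) 1) :=
        (Finset.prod_erase_mul I _ hi).symm
      rw [h3, h4, map_mul, map_mul, map_mul, map_smul, Module.End.mul_apply,
        Module.End.mul_apply, Module.End.mul_apply, map_intCast,
        ← LIN.tel hd _ _ _ (he i hi).1 (he i hi).2]
      rfl
    rw [map_sum, LinearMap.sum_apply, Finset.sum_congr rfl h2, ← map_sum]
    have h5 : ∑ i ∈ I, (Seg (c i) (e i) (n i)).indicator (fun _ => α i) = 0 := by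
      funext x
      rw [Finset.sum_apply]
      exact hrel x
    rw [h5, map_zero]
  have : CharZero (FractionRing M) :=
    charZero_of_injective_algebraMap (IsFractionRing.injective M (FractionRing M))
  let _ : Algebra ℚ (FractionRing M) := DivisionRing.toRatAlgebra
  set K := FractionRing M with hK
  have h2 := congrArg (LIN.ex K M) h1
  rw [map_sum, map_zero] at h2
  have h3 := congrArg (PowerSeries.coeff I.card) h2
  rw [map_sum, map_zero] at h3
  have h4 : ∀ i ∈ I, PowerSeries.coeff I.card (LIN.ex K M ((α i : AddMonoidAlgebra ℤ M) *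
      ((∏ j ∈ I.erase i, (1 - single (e j) 1)) *
        (single (c i) 1 - single (c i + e i * n i) 1)))) =
      (∏ j ∈ I, (-(algebraMap M K (e j)))) * algebraMap M K (α i * n i) := by
    intro i hi
    rw [map_mul (LIN.ex K M), map_mul (LIN.ex K M), map_intCast, map_prod, ← zsmul_eq_mul,
      map_zsmul]
    have h5 : (∏ j ∈ I.erase i, LIN.ex K M (1 - single (e j) 1)) *
        LIN.ex K M (single (c i) 1 - single (c i + e i * n i) 1) =
        ∏ j ∈ I, (if j = i then LIN.ex K M (single (c i) 1 - single (c i + e i * n i) 1)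
          else LIN.ex K M (1 - single (e j) 1)) := by
      rw [← Finset.prod_erase_mul I _ hi, if_pos rfl]
      congr 1
      apply Finset.prod_congr rfl
      intro j hj
      rw [if_neg (Finset.ne_of_mem_erase hj)]
    rw [h5, LIN.coeff_prod K I]
    · rw [← Finset.prod_erase_mul I _ hi, if_pos rfl,
        ← Finset.prod_erase_mul I (fun j => -(algebraMap M K (e j))) hi]
      have h6 : ∏ j ∈ I.erase i, PowerSeries.coeff 1 (if j = i then
          LIN.ex K M (single (c i) 1 - single (c i + e i * n i) 1)
          else LIN.ex K M (1 - single (e j) 1)) = ∏ j ∈ I.erase i, (-(algebraMap M K (e j))) := by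
        apply Finset.prod_congr rfl
        intro j hj
        rw [if_neg (Finset.ne_of_mem_erase hj), map_sub, map_one, map_sub, LIN.ex_c1]
        have h7 : PowerSeries.coeff 1 (1 : PowerSeries K) = 0 := by
          rw [PowerSeries.coeff_one]
          simp
        rw [h7, zero_sub]
      rw [h6, map_sub, map_sub, LIN.ex_c1, LIN.ex_c1, zsmul_eq_mul]
      simp only [map_add, map_mul, map_intCast]
      ring
    · intro j hj
      split_ifs with h6
      · rw [map_sub, map_sub, LIN.ex_cc, LIN.ex_cc, sub_self]
      · rw [map_sub, map_one, map_sub, map_one, LIN.ex_cc, sub_self]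
  rw [Finset.sum_congr rfl h4, ← Finset.mul_sum, ← map_sum] at h3
  have h5 : ∏ j ∈ I, (-(algebraMap M K (e j))) ≠ 0 := by
    apply Finset.prod_ne_zero_iff.2
    intro j hj
    rw [neg_ne_zero]
    intro h6
    apply (he j hj).1
    apply IsFractionRing.injective M K
    rw [h6, map_zero]
  have h6 := (mul_eq_zero.1 h3).resolve_left h5
  apply IsFractionRing.injective M K
  rw [h6, map_zero]

end OIE
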