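import Pool.Agent.OID.MINT
import Pool.Agent.OIE.St

/-!
# Integer parts
-/

namespace OIE

open Polynomial OID

open OID.MINT in
theorem t_MINT2 : M_MINT2 := by
  intro h1 _ h3 P A hA g hg α hα
  obtain ⟨φ, hφ⟩ : ∃ φ : MM A →+* A, φ = (MM A).subtype.codRestrict A fun x => x.2.1 := ⟨_, rfl⟩
  have hφ1 : ∀ x, ((φ x : A) : F) = x := by
    intro x
    rw [hφ]
    rfl
  have hφi : Function.Injective φ := by
    intro x y hxy
    apply Subtype.ext
    rw [← hφ1 x, ← hφ1 y, hxy]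
  have hφ2 : (toR A).comp φ =
      (RingHom.fst ℝ* (∀ p : Nat.Primes, ℚ_[(p : ℕ)])).comp (MM A).subtype := by
    ext x
    change ((φ x : A) : F).1 = (x : F).1
    rw [hφ1]
  obtain ⟨a, ha, n, hn⟩ := hA.near (g.map φ) ((Polynomial.map_ne_zero_iff hφi).2 hg) α (by
    rw [Polynomial.map_map, hφ2]
    exact hα)
  obtain ⟨b, hb, m, hm⟩ := exists_int h1 h3 hA.good ha
  obtain ⟨k, hk1, hk2⟩ := exists_floor (α - b.1) (n + m) (by
    have h4 : α - b.1 = (α - a.1) + (a.1 - b.1) := by ring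
    rw [h4]
    push_cast
    exact (abs_add_le _ _).trans (add_le_add hn hm))
  refine ⟨b + (k : F), add_mem hb (intCast_mem _ k), ?_, ?_⟩
  · change b.1 + (k : ℝ*) ≤ α
    linarith
  · change α < b.1 + (k : ℝ*) + 1
    linarith

end OIE
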