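import Pool.Agent.OIE.Stmts4

/-!
# Normal form of bounded classes
-/

namespace OIE

open OID

namespace NF

variable {M : Type} [CommRing M] [LinearOrder M] [IsStrictOrderedRing M]

/-- least common multiples of finitely many elements -/
theorem exists_lcm (hA : Alg M) (Q : Finset (M × M)) (hQ : NZ Q) :
    ∃ E : M, 0 < E ∧ ∀ y, E ∣ y ↔ ∀ q ∈ Q, q.2 ∣ y := by
  classical
  induction Q using Finset.induction_on with
  | empty => exact ⟨1, zero_lt_one, by simp⟩
  | insert a s _ ih =>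
    obtain ⟨E, hE, h1⟩ := ih fun q hq => hQ q (Finset.mem_insert_of_mem hq)
    have ha : a.2 ≠ 0 := hQ a (Finset.mem_insert_self _ _)
    have hp := hA.ufd
    obtain ⟨g, h2⟩ := ufd_lcm E a.2
    have hg0 : g ≠ 0 := by
      rintro rfl
      have h3 := (h2 (E * a.2)).2 ⟨dvd_mul_right _ _, dvd_mul_left _ _⟩
      rw [zero_dvd_iff] at h3
      exact mul_ne_zero hE.ne' ha h3
    refine ⟨|g|, abs_pos.2 hg0, fun y => ?_⟩
    rw [abs_dvd, h2, h1]
    constructor
    · rintro ⟨h3, h4⟩ q hq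
      rcases Finset.mem_insert.1 hq with rfl | hq'
      · exact h4
      · exact h3 q hq'
    · intro h3
      exact ⟨fun q hq => h3 q (Finset.mem_insert_of_mem hq), h3 a (Finset.mem_insert_self _ _)⟩

/-- comparison of quotients -/
theorem le_of_div (hA : Alg M) {E q r w : M} (hE : 0 < E) (hr : r < E)
    (h : E * w ≤ E * q + r) : w ≤ q := by
  by_contra hlt
  rw [not_le] at hlt
  have h1 : 1 ≤ w - q := hA.disc _ (sub_pos.2 hlt)
  have h2 : E * 1 ≤ E * (w - q) := mul_le_mul_of_nonneg_left h1 hE.le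
  have h3 : E * (w - q) = E * w - E * q := by ring
  rw [h3, mul_one] at h2
  linarith

theorem pos_iff (hA : Alg M) {x y : M} : x < y ↔ x ≤ y - 1 := by
  constructor
  · intro h
    have := hA.disc _ (sub_pos.2 h)
    linarith
  · intro h
    linarith

end NF

theorem t_NF : M_NF := by
  classical
  intro hS hD _ M _ _ _ hA B Q x₁ hQ hx hs ht
  -- the neighbours
  obtain ⟨s, hsB, hsm⟩ := (B.filter (fun b => b < x₁)).exists_maximal
    (by obtain ⟨s, h1, h2⟩ := hs; exact ⟨s, Finset.mem_filter.2 ⟨h1, h2⟩⟩)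
  obtain ⟨t, htB, htm⟩ := (B.filter (fun b => x₁ < b)).exists_minimal
    (by obtain ⟨t, h1, h2⟩ := ht; exact ⟨t, Finset.mem_filter.2 ⟨h1, h2⟩⟩)
  rw [Finset.mem_filter] at hsB htB
  have hs' : ∀ b ∈ B, b < x₁ → b ≤ s := by
    intro b hb hbx
    by_contra hlt
    rw [not_le] at hlt
    exact absurd (hsm (Finset.mem_filter.2 ⟨hb, hbx⟩) hlt.le) (not_le.2 hlt)
  have ht' : ∀ b ∈ B, x₁ < b → t ≤ b := by
    intro b hb hbx
    by_contra hlt
    rw [not_le] at hlt
    exact absurd (htm (Finset.mem_filter.2 ⟨hb, hbx⟩) hlt.le) (not_le.2 hlt)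
  have hpos : ∀ x : M, (∀ b ∈ B, (x₁ < b ↔ x < b) ∧ (b < x₁ ↔ b < x)) ↔ s < x ∧ x < t := by
    intro x
    constructor
    · intro h
      exact ⟨((h s hsB.1).2).1 hsB.2, ((h t htB.1).1).1 htB.2⟩
    · rintro ⟨h1, h2⟩ b hb
      rcases lt_trichotomy b x₁ with h3 | h3 | h3
      · have h4 := hs' b hb h3
        have h5 : b < x := lt_of_le_of_lt h4 h1
        exact ⟨⟨fun h => absurd h h3.asymm, fun h => absurd h h5.asymm⟩, ⟨fun _ => h5, fun _ => h3⟩⟩
      · exact absurd (h3 ▸ hb) hx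
      · have h4 := ht' b hb h3
        have h5 : x < b := lt_of_lt_of_le h2 h4
        exact ⟨⟨fun _ => h5, fun _ => h3⟩, ⟨fun h => absurd h h3.asymm, fun h => absurd h h5.asymm⟩⟩
  -- the modulus
  obtain ⟨E, hE, hlcm⟩ := NF.exists_lcm hA (Q.filter fun q => q.2 ∣ x₁ - q.1)
    fun q hq => hQ q (Finset.mem_filter.1 hq).1
  have hmod : ∀ x : M, (∀ q ∈ Q, (q.2 ∣ x₁ - q.1 ↔ q.2 ∣ x - q.1)) ↔
      E ∣ x - x₁ ∧ ∀ q ∈ Q.filter (fun q => ¬ q.2 ∣ x₁ - q.1), ¬ q.2 ∣ x - q.1 := by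
    intro x
    rw [hlcm]
    constructor
    · intro h
      refine ⟨fun q hq => ?_, fun q hq => ?_⟩
      · obtain ⟨h1, h2⟩ := Finset.mem_filter.1 hq
        have h3 := (h q h1).1 h2
        have h4 : x - x₁ = (x - q.1) - (x₁ - q.1) := by ring
        rw [h4]
        exact dvd_sub h3 h2
      · obtain ⟨h1, h2⟩ := Finset.mem_filter.1 hq
        exact fun h3 => h2 ((h q h1).2 h3)
    · rintro ⟨h1, h2⟩ q hq
      by_cases h3 : q.2 ∣ x₁ - q.1
      · refine ⟨fun _ => ?_, fun _ => h3⟩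
        have h4 := h1 q (Finset.mem_filter.2 ⟨hq, h3⟩)
        have h5 : x - q.1 = (x - x₁) + (x₁ - q.1) := by ring
        rw [h5]
        exact dvd_add h4 h3
      · exact ⟨fun h => absurd h h3, fun h => absurd h (h2 q (Finset.mem_filter.2 ⟨hq, h3⟩))⟩
  -- the first element
  obtain ⟨q, r, hqr, hr0, hrE⟩ := hD M hA (x₁ - s - 1) E hE
  have hsx := hsB.2
  have htx := htB.2
  have hsx1 : 0 ≤ x₁ - s - 1 := by
    have := (NF.pos_iff hA).1 hsx
    linarith
  have hq0 : 0 ≤ q := by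
    have h1 : E * 0 ≤ E * q + r := by rw [mul_zero, ← hqr]; exact hsx1
    exact NF.le_of_div hA hE hrE h1
  let c : M := x₁ - E * q
  have hc : c = s + 1 + r := by
    change x₁ - E * q = s + 1 + r
    linarith
  have hcx : c ≤ x₁ := by
    change x₁ - E * q ≤ x₁
    have := mul_nonneg hE.le hq0
    linarith
  obtain ⟨q', r', hqr', hr0', hrE'⟩ := hD M hA (t - c - 1) E hE
  have htc : 0 ≤ t - c - 1 := by
    have := (NF.pos_iff hA).1 (lt_of_le_of_lt hcx htx)
    linarith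
  have hq0' : 0 ≤ q' := by
    have h1 : E * 0 ≤ E * q' + r' := by rw [mul_zero, ← hqr']; exact htc
    exact NF.le_of_div hA hE hrE' h1
  obtain ⟨Q', hQ', -, hw⟩ := (hS M hA).2.2.2.1 c E (Q.filter fun q => ¬ q.2 ∣ x₁ - q.1) hE.ne'
    fun q hq => hQ q (Finset.mem_filter.1 hq).1
  refine ⟨c, E, q' + 1, Q', hE, by linarith, hQ', ?_⟩
  -- the interval for the parameter
  have hint : ∀ w : M, (s < c + E * w ∧ c + E * w < t) ↔ 0 ≤ w ∧ w < q' + 1 := by
    intro w
    constructor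
    · rintro ⟨h1, h2⟩
      constructor
      · have h3 : E * (-w) ≤ E * 0 + r := by
          rw [hc] at h1
          have h4 := (NF.pos_iff hA).1 h1
          have h5 : E * (-w) = -(E * w) := by ring
          rw [h5]
          linarith
        have h4 := NF.le_of_div hA hE hrE h3
        linarith
      · have h3 := (NF.pos_iff hA).1 h2
        have h4 : E * w ≤ E * q' + r' := by rw [← hqr']; linarith
        have h5 := NF.le_of_div hA hE hrE' h4
        linarith
    · rintro ⟨h1, h2⟩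
      constructor
      · have := mul_nonneg hE.le h1
        rw [hc]
        linarith
      · have h3 := (NF.pos_iff hA).1 h2
        have h4 : E * w ≤ E * q' := mul_le_mul_of_nonneg_left (by linarith) hE.le
        linarith
  ext x
  constructor
  · rintro ⟨h1, h2⟩
    have h3 := (hpos x).1 h1
    obtain ⟨⟨v, hv⟩, h5⟩ := (hmod x).1 h2
    have hxw : x = c + E * (v + q) := by
      change x = x₁ - E * q + E * (v + q)
      have h6 : E * (v + q) = E * v + E * q := by ring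
      rw [h6, ← hv]
      ring
    refine ⟨v + q, ?_, hxw.symm⟩
    rw [hxw] at h3 h5
    have h7 := (hint _).1 h3
    exact ⟨h7.1, h7.2, (hw _).1 h5⟩
  · rintro ⟨w, ⟨h1, h2, h3⟩, rfl⟩
    refine ⟨(hpos _).2 ((hint w).2 ⟨h1, h2⟩), (hmod _).2 ⟨⟨w - q, ?_⟩, (hw w).2 h3⟩⟩
    change x₁ - E * q + E * w - x₁ = E * (w - q)
    ring

end OIE
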