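import Pool.Agent.OIE.Stmts4

/-!
# Positivity of the counting function
-/

namespace OIE

open OID

namespace POS

section

variable {M : Type} [CommRing M] [LinearOrder M]

/-- the signature of a point -/
def sg (B : Finset M) (Q : Finset (M × M)) (x : M) : (B → Prop × Prop) × (Q → Prop) :=
  (fun b => (x < b.1, b.1 < x), fun q => q.1.2 ∣ x - q.1.1)

theorem sg_eq (B : Finset M) (Q : Finset (M × M)) (x y : M) :
    sg B Q x = sg B Q y ↔ Same B Q x y := by
  unfold sg Same
  constructor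
  · intro h
    have h1 := congrArg Prod.fst h
    have h2 := congrArg Prod.snd h
    refine ⟨fun b hb => ?_, fun q hq => ?_⟩
    · have h3 := congrFun h1 ⟨b, hb⟩
      have h4 := congrArg Prod.fst h3
      have h5 := congrArg Prod.snd h3
      exact ⟨iff_of_eq h4, iff_of_eq h5⟩
    · have h3 := congrFun h2 ⟨q, hq⟩
      exact iff_of_eq h3
  · intro h
    refine Prod.ext ?_ ?_
    · funext b
      exact Prod.ext (propext (h.1 b.1 b.2).1) (propext (h.1 b.1 b.2).2)
    · funext q
      exact propext (h.2 q.1 q.2)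

theorem class_tset (B : Finset M) (Q : Finset (M × M)) (hQ : NZ Q) (x₁ : M) :
    TSet {x | Same B Q x₁ x} := by
  refine ⟨B, Q, hQ, fun x y hxy => ?_⟩
  have e1 : (x ∈ {x | Same B Q x₁ x}) ↔ Same B Q x₁ x := Iff.rfl
  have e2 : (y ∈ {x | Same B Q x₁ x}) ↔ Same B Q x₁ y := Iff.rfl
  rw [e1, e2, ← sg_eq, ← sg_eq, (sg_eq B Q x y).2 hxy]

end

section

variable {M : Type} [CommRing M] [LinearOrder M] [IsStrictOrderedRing M]

theorem bd_union {S T : Set M} (hS : Bd S) (hT : Bd T) : Bd (S ∪ T) := by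
  obtain ⟨c, hc⟩ := hS
  obtain ⟨d, hd⟩ := hT
  refine ⟨max c d, fun x hx => ?_⟩
  rcases hx with hx | hx
  · exact (hc x hx).trans (le_max_left _ _)
  · exact (hd x hx).trans (le_max_right _ _)

theorem bd_mono {S T : Set M} (h : S ⊆ T) (hT : Bd T) : Bd S := by
  obtain ⟨c, hc⟩ := hT
  exact ⟨c, fun x hx => hc x (h hx)⟩

theorem bd_empty : Bd (∅ : Set M) := ⟨0, fun x hx => absurd hx (Set.notMem_empty x)⟩

theorem bd_singleton (c : M) : Bd ({c} : Set M) := ⟨|c|, fun x hx => by
  rw [Set.mem_singleton_iff] at hx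
  rw [hx]⟩

theorem bd_finset (s : Finset M) : Bd (s : Set M) := by
  classical
  induction s using Finset.induction_on with
  | empty => rw [Finset.coe_empty]; exact bd_empty
  | insert a s ha ih =>
    rw [Finset.coe_insert, Set.insert_eq]
    exact bd_union (bd_singleton a) ih

theorem bd_biUnion {ι : Type} (I : Finset ι) (S : ι → Set M) (h : ∀ i ∈ I, Bd (S i)) :
    Bd (⋃ i ∈ I, S i) := by
  classical
  induction I using Finset.induction_on with
  | empty => simp only [Finset.notMem_empty, Set.iUnion_of_empty, Set.iUnion_empty]; exact bd_empty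
  | insert a s ha ih =>
    rw [Finset.set_biUnion_insert]
    exact bd_union (h a (Finset.mem_insert_self _ _))
      (ih fun i hi => h i (Finset.mem_insert_of_mem hi))

/-- small elements are natural numbers -/
theorem nat_of_lt (hd : ∀ x : M, 0 < x → 1 ≤ x) (k : ℕ) :
    ∀ w : M, 0 ≤ w → w < k → ∃ j : ℕ, j < k ∧ w = j := by
  induction k with
  | zero =>
    intro w h0 h1
    rw [Nat.cast_zero] at h1
    exact absurd h0 (not_le.2 h1)
  | succ k ih =>
    intro w h0 h1
    rcases lt_or_ge w (k : M) with h | h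
    · obtain ⟨j, hj, rfl⟩ := ih w h0 h
      exact ⟨j, hj.trans (Nat.lt_succ_self k), rfl⟩
    · refine ⟨k, Nat.lt_succ_self k, ?_⟩
      by_contra hne
      have h2 : 0 < w - k := sub_pos.2 (lt_of_le_of_ne h (Ne.symm hne))
      have h3 := hd _ h2
      rw [Nat.cast_succ] at h1
      have h4 : w < w := by
        calc w < k + 1 := h1
          _ ≤ k + (w - k) := by gcongr
          _ = w := by ring
      exact lt_irrefl _ h4

theorem wn_finite (hd : ∀ x : M, 0 < x → 1 ≤ x) (n : M) (Q : Finset (M × M)) (hn : Std n) :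
    (Wn n Q).Finite := by
  obtain ⟨k, hk⟩ := hn
  have hsub : Wn n Q ⊆ ((Finset.range k).image (fun j : ℕ => (j : M)) : Finset M) := by
    intro w hw
    obtain ⟨h0, h1, -⟩ := hw
    obtain ⟨j, hj, rfl⟩ := nat_of_lt hd k w h0 (h1.trans_le ((le_abs_self n).trans hk))
    rw [Finset.mem_coe, Finset.mem_image]
    exact ⟨j, Finset.mem_range.2 hj, rfl⟩
  exact (Finset.finite_toSet _).subset hsub

theorem n_empty {N : Set M → M} (hN : Cnt N) : N ∅ = 0 := by
  have h1 := hN.seg 0 1 0 one_ne_zero le_rfl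
  have h2 : Seg (0 : M) 1 0 = ∅ := by
    ext x
    constructor
    · rintro ⟨w, h0, h1, -⟩
      exact absurd h0 (not_le.2 h1)
    · intro hx
      exact absurd hx (Set.notMem_empty x)
  rw [← h2]
  exact h1

theorem n_singleton (hd : ∀ x : M, 0 < x → 1 ≤ x) {N : Set M → M} (hN : Cnt N) (c : M) :
    N {c} = 1 := by
  have h1 := hN.seg c 1 1 one_ne_zero zero_le_one
  have h2 : Seg c 1 1 = {c} := by
    ext x
    rw [Set.mem_singleton_iff]
    constructor
    · rintro ⟨w, h0, h1, h2⟩
      have h3 : w = 0 := by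
        by_contra hne
        exact absurd (hd w (lt_of_le_of_ne h0 (Ne.symm hne))) (not_le.2 h1)
      rw [h2, h3]
      ring
    · rintro rfl
      exact ⟨0, le_rfl, zero_lt_one, by ring⟩
  rw [← h2]
  exact h1

theorem n_biUnion (hB : S_TBOOL) {N : Set M → M} (hN : Cnt N) {ι : Type} (I : Finset ι)
    (S : ι → Set M) (h : ∀ i ∈ I, TSet (S i) ∧ Bd (S i))
    (hd : ∀ i ∈ I, ∀ j ∈ I, i ≠ j → Disjoint (S i) (S j)) :
    N (⋃ i ∈ I, S i) = ∑ i ∈ I, N (S i) := by
  classical
  induction I using Finset.induction_on with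
  | empty =>
    simp only [Finset.notMem_empty, Set.iUnion_of_empty, Set.iUnion_empty, Finset.sum_empty]
    exact n_empty hN
  | insert a s ha ih =>
    have hT := (hB M).2.2.2.2.2.2.2.2.2.1
    rw [Finset.set_biUnion_insert, Finset.sum_insert ha,
      hN.add _ _ (h a (Finset.mem_insert_self _ _)).1
        (hT ι s S fun i hi => (h i (Finset.mem_insert_of_mem hi)).1)
        (h a (Finset.mem_insert_self _ _)).2
        (bd_biUnion s S fun i hi => (h i (Finset.mem_insert_of_mem hi)).2),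
      ih (fun i hi => h i (Finset.mem_insert_of_mem hi))
        (fun i hi j hj => hd i (Finset.mem_insert_of_mem hi) j (Finset.mem_insert_of_mem hj))]
    rw [Set.disjoint_iUnion₂_right]
    intro i hi
    exact hd a (Finset.mem_insert_self _ _) i (Finset.mem_insert_of_mem hi)
      (fun h => ha (h ▸ hi))

/-- the properties of a class -/
theorem class_ok (hA : Alg M) (hSEG : S_SEG) (hNF : S_NF) (hDEN : S_DEN)
    {N : Set M → M} (hN : Cnt N) (B : Finset M) (Q : Finset (M × M)) (hQ : NZ Q) (x₁ : M)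
    (hs : ∃ s ∈ B, s < x₁) (ht : ∃ t ∈ B, x₁ < t) :
    0 ≤ N {x | Same B Q x₁ x} ∧ (Std (N {x | Same B Q x₁ x}) → {x | Same B Q x₁ x}.Finite) := by
  by_cases hx : x₁ ∈ B
  · have h1 : {x | Same B Q x₁ x} = {x₁} := by
      ext x
      have e1 : (x ∈ {x | Same B Q x₁ x}) ↔ Same B Q x₁ x := Iff.rfl
      rw [Set.mem_singleton_iff, e1]
      constructor
      · intro h
        obtain ⟨h2, h3⟩ := h.1 x₁ hx
        rcases lt_trichotomy x x₁ with h4 | h4 | h4
        · exact absurd (h2.2 h4) (lt_irrefl _)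
        · exact h4
        · exact absurd (h3.2 h4) (lt_irrefl _)
      · rintro rfl
        exact ⟨fun b _ => ⟨Iff.rfl, Iff.rfl⟩, fun q _ => Iff.rfl⟩
    rw [h1, n_singleton hA.disc hN]
    exact ⟨zero_le_one, fun _ => Set.finite_singleton _⟩
  · obtain ⟨c, E, n, Q', hE, hn, hQ', heq⟩ := hNF M hA B Q x₁ hQ hx hs ht
    have hW := (hSEG M hA).2.2.2.2.2.1 n Q' hQ'
    have h2 := hN.aff (Wn n Q') hW.1 hW.2 E 1 c (fun w => c + E * w) hE.ne' one_ne_zero
      (fun x _ => by ring)
    have h3 := hDEN M hA N hN n Q' hQ' hn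
    rw [heq, h2.2.2]
    refine ⟨h3.1, fun hst => ?_⟩
    by_cases hns : Std n
    · exact (wn_finite hA.disc n Q' hns).image _
    · rcases Set.eq_empty_or_nonempty (Wn n Q') with he | hne
      · rw [he, Set.image_empty]
        exact Set.finite_empty
      · obtain ⟨C, hC⟩ := h3.2 hns hne
        obtain ⟨k, hk⟩ := hst
        refine absurd ⟨C * k, ?_⟩ hns
        rw [abs_of_nonneg hn, Nat.cast_mul]
        refine hC.trans ?_
        exact mul_le_mul_of_nonneg_left ((le_abs_self _).trans hk) (Nat.cast_nonneg _)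

/-- the decomposition into classes -/
theorem decomp (hA : Alg M) (hB : S_TBOOL) (hSEG : S_SEG) (hNF : S_NF) (hDEN : S_DEN)
    {N : Set M → M} (hN : Cnt N) (S : Set M) (hS : TSet S) (hb : Bd S) :
    ∃ (κ : Type) (_ : Fintype κ) (P : κ → Set M), (⋃ i, P i) = S ∧
      N S = ∑ i, N (P i) ∧ ∀ i, 0 ≤ N (P i) ∧ (Std (N (P i)) → (P i).Finite) := by
  classical
  obtain ⟨B₀, Q, hQ, hS1⟩ := hS
  obtain ⟨c, hc⟩ := hb
  let B : Finset M := insert (-c - 1) (insert (c + 1) B₀)
  have hsub : ∀ x y, Same B Q x y → Same B₀ Q x y := by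
    intro x y h
    exact ⟨fun b hb => h.1 b (Finset.mem_insert_of_mem (Finset.mem_insert_of_mem hb)), h.2⟩
  let κ : Type := (B → Prop × Prop) × (Q → Prop)
  have : Fintype κ := Fintype.ofFinite κ
  let P : κ → Set M := fun i => {x | x ∈ S ∧ sg B Q x = i}
  have hU : (⋃ i, P i) = S := by
    ext x
    rw [Set.mem_iUnion]
    constructor
    · rintro ⟨i, hi⟩
      exact hi.1
    · intro hx
      exact ⟨sg B Q x, hx, rfl⟩
  have hP : ∀ i, P i = ∅ ∨ ∃ x₁ ∈ S, P i = {x | Same B Q x₁ x} := by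
    intro i
    rcases Set.eq_empty_or_nonempty (P i) with h | ⟨x₁, hx₁⟩
    · exact Or.inl h
    · refine Or.inr ⟨x₁, hx₁.1, ?_⟩
      ext x
      have e1 : (x ∈ {x | Same B Q x₁ x}) ↔ Same B Q x₁ x := Iff.rfl
      rw [e1]
      constructor
      · intro hx
        rw [← sg_eq]
        exact hx₁.2.trans hx.2.symm
      · intro hx
        refine ⟨(hS1 x₁ x (hsub x₁ x hx)).1 hx₁.1, ?_⟩
        rw [← hx₁.2, eq_comm, sg_eq]
        exact hx
  have hPT : ∀ i, TSet (P i) ∧ Bd (P i) := by
    intro i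
    refine ⟨?_, bd_mono (T := S) (fun x hx => hx.1) ⟨c, hc⟩⟩
    rcases hP i with h | ⟨x₁, _, h⟩
    · rw [h]
      exact (hB M).2.2.2.1
    · rw [h]
      exact class_tset B Q hQ x₁
  refine ⟨κ, this, P, hU, ?_, ?_⟩
  · have h1 := n_biUnion hB hN (Finset.univ : Finset κ) P (fun i _ => hPT i) (by
      intro i _ j _ hij
      rw [Set.disjoint_left]
      intro x hx hx'
      exact hij (hx.2.symm.trans hx'.2))
    have h2 : (⋃ i ∈ (Finset.univ : Finset κ), P i) = S := by
      rw [← hU]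
      simp only [Finset.mem_univ, Set.iUnion_true]
    rw [h2] at h1
    exact h1
  · intro i
    rcases hP i with h | ⟨x₁, hx₁, h⟩
    · rw [h, n_empty hN]
      exact ⟨le_rfl, fun _ => Set.finite_empty⟩
    · rw [h]
      have h1 := abs_le.1 (hc x₁ hx₁)
      refine class_ok hA hSEG hNF hDEN hN B Q hQ x₁ ⟨-c - 1, Finset.mem_insert_self _ _, ?_⟩
        ⟨c + 1, Finset.mem_insert_of_mem (Finset.mem_insert_self _ _), ?_⟩
      · exact (sub_one_lt _).trans_le h1.1
      · exact h1.2.trans_lt (lt_add_one _)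

end

end POS

theorem t_POS : M_POS := by
  intro _ hB _ _ hSEG hNF hDEN M _ _ _ hA N hN
  classical
  have h1 : ∀ S, TSet S → Bd S → 0 ≤ N S := by
    intro S hS hb
    obtain ⟨κ, _, P, -, hs, hP⟩ := POS.decomp hA hB hSEG hNF hDEN hN S hS hb
    rw [hs]
    exact Finset.sum_nonneg fun i _ => (hP i).1
  have hfin : ∀ S : Set M, S.Finite → TSet S := (hB M).2.2.2.2.2.2.2.1
  have h3 : ∀ S T, TSet S → TSet T → Bd T → S ⊆ T → N S ≤ N T := by
    intro S T hS hT hb hST
    have h4 : TSet (T ∩ Sᶜ) := (hB M).2.1 _ _ hT ((hB M).1 _ hS)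
    have h5 : Bd (T ∩ Sᶜ) := POS.bd_mono Set.inter_subset_left hb
    have h6 := hN.add S (T ∩ Sᶜ) hS h4 (POS.bd_mono hST hb) h5 (by
      rw [Set.disjoint_left]
      intro x hx hx'
      exact hx'.2 hx)
    have h7 : S ∪ (T ∩ Sᶜ) = T := by
      ext x
      constructor
      · rintro (hx | hx)
        · exact hST hx
        · exact hx.1
      · intro hx
        by_cases hxS : x ∈ S
        · exact Or.inl hxS
        · exact Or.inr ⟨hx, hxS⟩
    rw [h7] at h6
    rw [h6]
    exact le_add_of_nonneg_right (h1 _ h4 h5)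
  refine ⟨h1, ?_, h3, ?_, ?_, ?_⟩
  · rintro S hS hb ⟨x, hx⟩
    have h4 := h3 {x} S (hfin _ (Set.finite_singleton x)) hS hb (Set.singleton_subset_iff.2 hx)
    rwa [POS.n_singleton hA.disc hN] at h4
  · intro s
    induction s using Finset.induction_on with
    | empty => rw [Finset.coe_empty, POS.n_empty hN, Finset.card_empty, Nat.cast_zero]
    | insert a s ha ih =>
      rw [Finset.coe_insert, Set.insert_eq, hN.add _ _ (hfin _ (Set.finite_singleton a))
        (hfin _ (Finset.finite_toSet s)) (POS.bd_singleton a) (POS.bd_finset s)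
        (by rw [Set.disjoint_singleton_left]; exact fun h => ha (Finset.mem_coe.1 h)),
        POS.n_singleton hA.disc hN, ih, Finset.card_insert_of_notMem ha, Nat.cast_add,
        Nat.cast_one, add_comm]
  · intro S hS hb hst
    obtain ⟨κ, _, P, hU, hs, hP⟩ := POS.decomp hA hB hSEG hNF hDEN hN S hS hb
    rw [← hU]
    refine Set.finite_iUnion fun i => (hP i).2 ?_
    obtain ⟨k, hk⟩ := hst
    refine ⟨k, ?_⟩
    rw [abs_of_nonneg (hP i).1]
    refine le_trans ?_ ((le_abs_self _).trans hk)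
    rw [hs]
    exact Finset.single_le_sum (f := fun i => N (P i)) (fun i _ => (hP i).1) (Finset.mem_univ i)
  · intro ι I S h hd
    exact POS.n_biUnion hB hN I S h hd

end OIE
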