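import Pool.Agent.OID.RING
import Pool.Agent.OIE.St

/-!
# The ring
-/

namespace OIE

open Polynomial OID

open OID.RING in
theorem t_RING2 : M_RING2 := by
  rintro hRAT - ⟨P, A, hP, hF⟩ hMUFD hMINT hEQN
  have hG := hF.good
  obtain ⟨hdom, hufd, hNPr, -, hprimes⟩ := hMUFD P A hG
  have hcomp := hRAT.1
  have hPA : P ∈ A := by
    obtain ⟨h, -⟩ := hG.pr
    exact h
  have hPM : P ∈ MM A := ⟨hPA, fun p => le_of_eq (hP.2 p)⟩
  have hNP : NPr A P := ⟨hG.pr, hP.2⟩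
  -- injectivity
  have hinj0 : ∀ a : F, a ∈ A → a.1 = 0 → a = 0 := by
    intro a ha h0
    rcases hG.inf a ha with h | ⟨r, hr⟩
    · exact absurd h (not_inf_zero h0)
    · have h1 : ((r : ℚ) : ℝ*) = 0 := by
        rw [← (hcomp r).1, ← hr, h0]
      rw [hr, cast_zero h1, map_zero]
  refine ⟨MM A, inferInstance, eM A, ⟨P, hPM⟩, ?_, ?_, hdom, hufd, ?_, ?_, ?_, hP.1, ?_, ?_,
    fun n p g ⟨x, h1, h2⟩ => hEQN P A hF n p g x h1 h2⟩
  · intro x y hxy
    have h1 : ((x : F) - (y : F)) = 0 := by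
      apply hinj0 _ (A.sub_mem x.2.1 y.2.1)
      have : (x : F).1 = (y : F).1 := hxy
      rw [Prod.fst_sub, this, sub_self]
    exact Subtype.ext (sub_eq_zero.1 h1)
  · intro x hx
    have hx' : 0 < (x : F).1 := hx
    change 1 ≤ (x : F).1
    rcases hG.inf x x.2.1 with h | ⟨r, hr⟩
    · have h1 := h 1
      rw [abs_of_pos hx', Nat.cast_one] at h1
      exact h1.le
    · have h2 : ∀ p : Nat.Primes, ‖((r : ℚ) : ℚ_[(p : ℕ)])‖ ≤ 1 := by
        intro p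
        rw [← (hcomp r).2 p, ← hr]
        exact x.2.2 p
      obtain ⟨z, rfl⟩ := hRAT.2.1 r h2
      rw [hr, (hcomp _).1] at hx' ⊢
      have h3 : (0 : ℚ) < ((z : ℤ) : ℚ) := by exact_mod_cast hx'
      have h4 : 0 < z := by exact_mod_cast h3
      have h5 : (1 : ℚ) ≤ ((z : ℤ) : ℚ) := by exact_mod_cast h4
      exact_mod_cast h5
  · intro g hg α hα
    obtain ⟨x, hx, h1, h2⟩ := hMINT P A hF g hg α hα
    exact ⟨⟨x, hx⟩, h1, h2⟩
  · intro q hq
    rcases hprimes q hq with h | ⟨l, -, h | h⟩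
    · exact hF.small _ h
    · rw [h, map_natCast, abs_of_nonneg (Nat.cast_nonneg l)]
      exact (by exact_mod_cast (Hyperreal.coe_lt_omega (l : ℝ)).le)
    · rw [h, map_neg, map_natCast, abs_neg, abs_of_nonneg (Nat.cast_nonneg l)]
      exact (by exact_mod_cast (Hyperreal.coe_lt_omega (l : ℝ)).le)
  · exact hNPr ⟨P, hPM⟩ hNP
  · intro x
    exact hG.bd x x.2.1
  · intro p hp
    refine ⟨fM A ⟨p, hp.out⟩, ?_⟩
    intro x y hxy
    have h1 : (x : F).2 ⟨p, hp.out⟩ = (y : F).2 ⟨p, hp.out⟩ := by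
      rw [← fM_apply A ⟨p, hp.out⟩ x, ← fM_apply A ⟨p, hp.out⟩ y, hxy]
    by_contra hne
    have h2 : ((x : F) - (y : F)) ≠ 0 := fun h => hne (Subtype.ext (sub_eq_zero.1 h))
    have h3 := (hG.nz _ (A.sub_mem x.2.1 y.2.1) h2).1 ⟨p, hp.out⟩
    apply h3
    rw [Prod.snd_sub, Pi.sub_apply, h1, sub_self]

end OIE
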