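import Mathlib

/-!
# Unique factorization domains: least common multiples, greatest common divisors, quotients of ideals
-/

namespace OIE

theorem ufd_lcm {M : Type} [CommRing M] [IsDomain M] [UniqueFactorizationMonoid M] (a b : M) :
    ∃ g : M, ∀ y, g ∣ y ↔ a ∣ y ∧ b ∣ y := by
  classical
  letI : GCDMonoid M := UniqueFactorizationMonoid.toGCDMonoid M
  exact ⟨GCDMonoid.lcm a b, fun y => lcm_dvd_iff⟩

theorem ufd_gcd {M : Type} [CommRing M] [IsDomain M] [UniqueFactorizationMonoid M] (a b : M) :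
    ∃ g : M, ∀ y, y ∣ g ↔ y ∣ a ∧ y ∣ b := by
  classical
  letI : GCDMonoid M := UniqueFactorizationMonoid.toGCDMonoid M
  exact ⟨GCDMonoid.gcd a b, fun y => dvd_gcd_iff y a b⟩

theorem ufd_gcd_mul {M : Type} [CommRing M] [IsDomain M] [UniqueFactorizationMonoid M] (a b g : M)
    (hg : ∀ y, y ∣ g ↔ y ∣ a ∧ y ∣ b) (c d : M) (h1 : d ∣ c * a) (h2 : d ∣ c * b) : d ∣ c * g := by
  classical
  letI : GCDMonoid M := UniqueFactorizationMonoid.toGCDMonoid M
  have h3 : GCDMonoid.gcd a b ∣ g := (hg _).2 ⟨GCDMonoid.gcd_dvd_left a b, GCDMonoid.gcd_dvd_right a b⟩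
  have h4 : d ∣ GCDMonoid.gcd (c * a) (c * b) := GCDMonoid.dvd_gcd h1 h2
  exact (h4.trans (gcd_mul_left' c a b).dvd).trans (mul_dvd_mul_left c h3)

/-- `e' ∣ e w` if and only if `a ∣ w`, for some `a`. -/
theorem ufd_colon {M : Type} [CommRing M] [IsDomain M] [UniqueFactorizationMonoid M] (e e' : M)
    (he' : e' ≠ 0) : ∃ a : M, ∀ w, a ∣ w ↔ e' ∣ e * w := by
  classical
  letI : GCDMonoid M := UniqueFactorizationMonoid.toGCDMonoid M
  obtain ⟨x, y, h1, h2, h3⟩ := extract_gcd e' e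
  have hg : GCDMonoid.gcd e' e ≠ 0 := fun h => he' (by rw [h1, h, zero_mul])
  refine ⟨x, fun w => ?_⟩
  have h4 : e' ∣ e * w ↔ x ∣ y * w := by
    have h6 : e' ∣ e * w ↔ GCDMonoid.gcd e' e * x ∣ GCDMonoid.gcd e' e * (y * w) := by
      rw [← h1, ← mul_assoc, ← h2]
    rw [h6]
    exact mul_dvd_mul_iff_left hg
  rw [h4]
  have h5 : IsRelPrime x y := (gcd_isUnit_iff_isRelPrime).1 h3
  exact ⟨fun h => h.mul_left y, fun h => h5.dvd_of_dvd_mul_left h⟩

/-- finitely many common multiples -/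
theorem ufd_lcms {M ι : Type} [CommRing M] [IsDomain M] [UniqueFactorizationMonoid M] (s : Finset ι)
    (f : ι → M) : ∃ g : M, ∀ y, g ∣ y ↔ ∀ i ∈ s, f i ∣ y := by
  classical
  induction s using Finset.induction_on with
  | empty => exact ⟨1, by simp⟩
  | insert a s _ ih =>
    obtain ⟨g, hg⟩ := ih
    obtain ⟨g', hg'⟩ := ufd_lcm (f a) g
    refine ⟨g', fun y => ?_⟩
    rw [hg', hg, Finset.forall_mem_insert]

end OIE
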