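import Pool.Agent.OIE.Stmts1

set_option autoImplicit false

namespace OIE

open Polynomial OID

namespace TBOOL

variable {M : Type} [CommRing M] [LinearOrder M]

theorem Same.symm' {B : Finset M} {Q : Finset (M × M)} {x y : M} (h : Same B Q x y) :
    Same B Q y x :=
  ⟨fun b hb => ⟨(h.1 b hb).1.symm, (h.1 b hb).2.symm⟩, fun q hq => (h.2 q hq).symm⟩

theorem Same.mono' {B B' : Finset M} {Q Q' : Finset (M × M)} {x y : M} (h : Same B' Q' x y)
    (hB : B ⊆ B') (hQ : Q ⊆ Q') : Same B Q x y :=
  ⟨fun b hb => h.1 b (hB hb), fun q hq => h.2 q (hQ hq)⟩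

theorem compl {S : Set M} (h : TSet S) : TSet Sᶜ := by
  obtain ⟨B, Q, h0, h1⟩ := h
  exact ⟨B, Q, h0, fun x y hxy => not_congr (h1 x y hxy)⟩

theorem inter {S T : Set M} (h : TSet S) (h' : TSet T) : TSet (S ∩ T) := by
  classical
  obtain ⟨B, Q, h0, h1⟩ := h
  obtain ⟨B', Q', h0', h1'⟩ := h'
  refine ⟨B ∪ B', Q ∪ Q', ?_, ?_⟩
  · intro q hq
    rcases Finset.mem_union.1 hq with hq | hq
    · exact h0 q hq
    · exact h0' q hq
  · intro x y hxy
    exact and_congr (h1 x y (Same.mono' hxy Finset.subset_union_left Finset.subset_union_left))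
      (h1' x y (Same.mono' hxy Finset.subset_union_right Finset.subset_union_right))

theorem union {S T : Set M} (h : TSet S) (h' : TSet T) : TSet (S ∪ T) := by
  have h1 := compl (inter (compl h) (compl h'))
  rwa [Set.compl_inter, compl_compl, compl_compl] at h1

theorem univ : TSet (Set.univ : Set M) :=
  ⟨∅, ∅, fun q hq => absurd hq (Finset.notMem_empty q), fun x y _ => Iff.rfl⟩

theorem empty : TSet (∅ : Set M) :=
  ⟨∅, ∅, fun q hq => absurd hq (Finset.notMem_empty q), fun x y _ => Iff.rfl⟩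

theorem lt (b : M) : TSet {x | x < b} :=
  ⟨{b}, ∅, fun q hq => absurd hq (Finset.notMem_empty q), fun x y h =>
    (h.1 b (Finset.mem_singleton_self b)).1⟩

theorem gt (b : M) : TSet {x | b < x} :=
  ⟨{b}, ∅, fun q hq => absurd hq (Finset.notMem_empty q), fun x y h =>
    (h.1 b (Finset.mem_singleton_self b)).2⟩

theorem fin {S : Set M} (hS : S.Finite) : TSet S := by
  refine ⟨hS.toFinset, ∅, fun q hq => absurd hq (Finset.notMem_empty q), ?_⟩
  have key : ∀ x y, Same hS.toFinset ∅ x y → x ∈ S → y ∈ S := by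
    intro x y h hx
    obtain ⟨h1, h2⟩ := h.1 x (hS.mem_toFinset.2 hx)
    have h3 : ¬ y < x := fun h => lt_irrefl x (h1.2 h)
    have h4 : ¬ x < y := fun h => lt_irrefl x (h2.2 h)
    rw [le_antisymm (not_lt.1 h4) (not_lt.1 h3)]
    exact hx
  exact fun x y h => ⟨key x y h, key y x (Same.symm' h)⟩

theorem dvd (c e : M) (he : e ≠ 0) : TSet {x | e ∣ x - c} :=
  ⟨∅, {(c, e)}, fun q hq => by rw [Finset.mem_singleton.1 hq]; exact he, fun x y h =>
    h.2 (c, e) (Finset.mem_singleton_self _)⟩

theorem biUnion {ι : Type} (s : Finset ι) (S : ι → Set M) (h : ∀ i ∈ s, TSet (S i)) :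
    TSet (⋃ i ∈ s, S i) := by
  classical
  induction s using Finset.induction_on with
  | empty => simpa using empty
  | insert a s _ ih =>
    rw [Finset.set_biUnion_insert]
    exact union (h a (Finset.mem_insert_self a s)) (ih fun i hi => h i (Finset.mem_insert_of_mem hi))

theorem biInter {ι : Type} (s : Finset ι) (S : ι → Set M) (h : ∀ i ∈ s, TSet (S i)) :
    TSet (⋂ i ∈ s, S i) := by
  classical
  induction s using Finset.induction_on with
  | empty => simpa using univ
  | insert a s _ ih =>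
    rw [Finset.set_biInter_insert]
    exact inter (h a (Finset.mem_insert_self a s)) (ih fun i hi => h i (Finset.mem_insert_of_mem hi))

theorem affine [IsStrictOrderedRing M] (S : Set M) (c p : M) (hp : p ≠ 0) (h : TSet S) :
    TSet {x | ∃ w ∈ S, x = c + p * w} := by
  classical
  obtain ⟨B, Q, h0, h1⟩ := h
  refine ⟨B.image fun b => c + p * b,
    insert (c, p) (Q.image fun q => (c + p * q.1, p * q.2)), ?_, ?_⟩
  · intro q hq
    rcases Finset.mem_insert.1 hq with hq | hq
    · rw [hq]
      exact hp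
    · obtain ⟨q', hq', rfl⟩ := Finset.mem_image.1 hq
      exact mul_ne_zero hp (h0 q' hq')
  · have key : ∀ x y, Same (B.image fun b => c + p * b)
        (insert (c, p) (Q.image fun q => (c + p * q.1, p * q.2))) x y →
        (∃ w ∈ S, x = c + p * w) → ∃ w ∈ S, y = c + p * w := by
      rintro x y h ⟨w, hw, rfl⟩
      have h2 := h.2 (c, p) (Finset.mem_insert_self _ _)
      simp only [add_sub_cancel_left] at h2
      obtain ⟨v, hv⟩ := h2.1 (Dvd.intro w rfl)
      have hv' : y = c + p * v := by rw [← hv]; ring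
      subst hv'
      refine ⟨v, (h1 w v ⟨?_, ?_⟩).1 hw, rfl⟩
      · intro b hb
        obtain ⟨h3, h4⟩ := h.1 (c + p * b) (Finset.mem_image_of_mem _ hb)
        rcases lt_or_gt_of_ne hp with hn | hn
        · simp only [add_lt_add_iff_left, mul_lt_mul_left_of_neg hn] at h3 h4
          exact ⟨h4, h3⟩
        · simp only [add_lt_add_iff_left, mul_lt_mul_iff_right₀ hn] at h3 h4
          exact ⟨h3, h4⟩
      · intro q hq
        have h3 := h.2 (c + p * q.1, p * q.2)
          (Finset.mem_insert_of_mem (Finset.mem_image_of_mem _ hq))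
        simp only [add_sub_add_left_eq_sub, ← mul_sub, mul_dvd_mul_iff_left hp] at h3
        exact h3
    exact fun x y h => ⟨key x y h, key y x (Same.symm' h)⟩

end TBOOL

theorem t_TBOOL : S_TBOOL := by
  intro M _ _ _
  exact ⟨fun S h => TBOOL.compl h, fun S T h h' => TBOOL.inter h h',
    fun S T h h' => TBOOL.union h h', TBOOL.empty, TBOOL.univ, TBOOL.lt, TBOOL.gt,
    fun S h => TBOOL.fin h, TBOOL.dvd, fun ι s S h => TBOOL.biUnion s S h,
    fun ι s S h => TBOOL.biInter s S h, fun S c p hp h => TBOOL.affine S c p hp h⟩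

end OIE
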