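import Pool.Agent.OIE.Stmts1

/-!
# The local principle for tame sets and tame functions
-/

namespace OIE

open OID

namespace TLOC

variable {M : Type} [CommRing M] [LinearOrder M]

theorem symm {B : Finset M} {Q : Finset (M × M)} {x y : M} (h : Same B Q x y) : Same B Q y x :=
  ⟨fun b hb => ⟨(h.1 b hb).1.symm, (h.1 b hb).2.symm⟩, fun q hq => (h.2 q hq).symm⟩

theorem trans {B : Finset M} {Q : Finset (M × M)} {x y z : M} (h : Same B Q x y)
    (h' : Same B Q y z) : Same B Q x z :=
  ⟨fun b hb => ⟨(h.1 b hb).1.trans (h'.1 b hb).1, (h.1 b hb).2.trans (h'.1 b hb).2⟩,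
    fun q hq => (h.2 q hq).trans (h'.2 q hq)⟩

theorem mono {B B' : Finset M} {Q Q' : Finset (M × M)} (hB : B ⊆ B') (hQ : Q ⊆ Q') {x y : M}
    (h : Same B' Q' x y) : Same B Q x y :=
  ⟨fun b hb => h.1 b (hB hb), fun q hq => h.2 q (hQ hq)⟩

/-- the class of a point -/
def cd (B : Finset M) (Q : Finset (M × M)) (x : M) :
    ({b // b ∈ B} → Prop × Prop) × ({q // q ∈ Q} → Prop) :=
  (fun b => (x < b.1, b.1 < x), fun q => q.1.2 ∣ x - q.1.1)

theorem same_of_cd {B : Finset M} {Q : Finset (M × M)} {x y : M} (h : cd B Q x = cd B Q y) :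
    Same B Q x y := by
  have h1 := congrArg Prod.fst h
  have h2 := congrArg Prod.snd h
  refine ⟨fun b hb => ?_, fun q hq => ?_⟩
  · have := congrFun h1 ⟨b, hb⟩
    simp only [cd, Prod.mk.injEq] at this
    exact ⟨iff_of_eq this.1, iff_of_eq this.2⟩
  · have := congrFun h2 ⟨q, hq⟩
    simp only [cd] at this
    exact iff_of_eq this

/-- finitely many representatives -/
theorem reps (B : Finset M) (Q : Finset (M × M)) : ∃ R : Finset M, ∀ x, ∃ r ∈ R, Same B Q r x := by
  classical
  have hf : (Set.range (cd B Q)).Finite := Set.toFinite _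
  choose g hg using fun c : Set.range (cd B Q) => c.2
  have : Finite (Set.range (cd B Q)) := hf
  have hfin : (Set.range g).Finite := Set.finite_range g
  refine ⟨hfin.toFinset, fun x => ⟨g ⟨cd B Q x, x, rfl⟩, ?_, ?_⟩⟩
  · rw [Set.Finite.mem_toFinset]
    exact ⟨_, rfl⟩
  · exact same_of_cd (hg ⟨cd B Q x, x, rfl⟩)

end TLOC

open TLOC in
theorem t_TLOC : S_TLOC := by
  intro M _ _ B Q hQ
  classical
  obtain ⟨R, hR⟩ := reps B Q
  constructor
  · intro S hS
    choose S' hT hS' using hS
    choose B' Q' hNZ hsame using hT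
    refine ⟨B ∪ R.biUnion B', Q ∪ R.biUnion Q', ?_, ?_⟩
    · intro q hq
      rcases Finset.mem_union.1 hq with h | h
      · exact hQ q h
      · obtain ⟨r, hr, h⟩ := Finset.mem_biUnion.1 h
        exact hNZ r q h
    · intro x y hxy
      obtain ⟨r, hr, hx⟩ := hR x
      have h1 : Same B Q x y := mono Finset.subset_union_left Finset.subset_union_left hxy
      have h2 : Same (B' r) (Q' r) x y :=
        mono ((Finset.subset_biUnion_of_mem B' hr).trans Finset.subset_union_right)
          ((Finset.subset_biUnion_of_mem Q' hr).trans Finset.subset_union_right) hxy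
      rw [hS' r x hx, hS' r y (trans hx h1)]
      exact hsame r x y h2
  · intro f hf
    choose f' hT hf' using hf
    choose B' Q' hNZ hpol using hT
    refine ⟨B ∪ R.biUnion B', Q ∪ R.biUnion Q', ?_, ?_⟩
    · intro q hq
      rcases Finset.mem_union.1 hq with h | h
      · exact hQ q h
      · obtain ⟨r, hr, h⟩ := Finset.mem_biUnion.1 h
        exact hNZ r q h
    · intro x₀
      obtain ⟨r, hr, hx⟩ := hR x₀
      obtain ⟨G, d, hd, hG⟩ := hpol r x₀
      refine ⟨G, d, hd, fun x hxx => ?_⟩
      have h1 : Same B Q x₀ x := mono Finset.subset_union_left Finset.subset_union_left hxx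
      have h2 : Same (B' r) (Q' r) x₀ x :=
        mono ((Finset.subset_biUnion_of_mem B' hr).trans Finset.subset_union_right)
          ((Finset.subset_biUnion_of_mem Q' hr).trans Finset.subset_union_right) hxx
      rw [hf' r x (trans hx h1)]
      exact hG x h2

end OIE
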