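import Pool.Agent.OIE.Stmts1

/-!
# Closure of the tame functions (module TOPS)
-/

namespace OIE

open Polynomial OID

namespace TOPS

section

variable {M : Type} [CommRing M] [LinearOrder M]

theorem sRefl (B : Finset M) (Q : Finset (M × M)) (x : M) : Same B Q x x :=
  ⟨fun _ _ => ⟨Iff.rfl, Iff.rfl⟩, fun _ _ => Iff.rfl⟩

theorem sSymm {B : Finset M} {Q : Finset (M × M)} {x y : M} (h : Same B Q x y) : Same B Q y x :=
  ⟨fun b hb => ⟨(h.1 b hb).1.symm, (h.1 b hb).2.symm⟩, fun q hq => (h.2 q hq).symm⟩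

theorem sTrans {B : Finset M} {Q : Finset (M × M)} {x y z : M} (h : Same B Q x y)
    (h' : Same B Q y z) : Same B Q x z :=
  ⟨fun b hb => ⟨(h.1 b hb).1.trans (h'.1 b hb).1, (h.1 b hb).2.trans (h'.1 b hb).2⟩,
    fun q hq => (h.2 q hq).trans (h'.2 q hq)⟩

theorem sMono {B B' : Finset M} {Q Q' : Finset (M × M)} (hB : B ⊆ B') (hQ : Q ⊆ Q') {x y : M}
    (h : Same B' Q' x y) : Same B Q x y :=
  ⟨fun b hb => h.1 b (hB hb), fun q hq => h.2 q (hQ hq)⟩

/-- common refinement of two functions -/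
theorem two {f g : M → M} (hf : TFun f) (hg : TFun g) :
    ∃ (B : Finset M) (Q : Finset (M × M)), NZ Q ∧ ∀ x₀, ∃ (F G : M[X]) (d d' : M),
      d ≠ 0 ∧ d' ≠ 0 ∧ ∀ x, Same B Q x₀ x → d * f x = F.eval x ∧ d' * g x = G.eval x := by
  classical
  obtain ⟨B, Q, hQ, h⟩ := hf
  obtain ⟨B', Q', hQ', h'⟩ := hg
  refine ⟨B ∪ B', Q ∪ Q', ?_, fun x₀ => ?_⟩
  · intro q hq
    rcases Finset.mem_union.1 hq with hq | hq
    · exact hQ q hq
    · exact hQ' q hq
  · obtain ⟨F, d, hd, e⟩ := h x₀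
    obtain ⟨G, d', hd', e'⟩ := h' x₀
    exact ⟨F, G, d, d', hd, hd', fun x hx =>
      ⟨e x (sMono Finset.subset_union_left Finset.subset_union_left hx),
        e' x (sMono Finset.subset_union_right Finset.subset_union_right hx)⟩⟩

/-- common refinement of a set and two functions -/
theorem three {S : Set M} {f g : M → M} (hS : TSet S) (hf : TFun f) (hg : TFun g) :
    ∃ (B : Finset M) (Q : Finset (M × M)), NZ Q ∧ (∀ x y, Same B Q x y → (x ∈ S ↔ y ∈ S)) ∧
      ∀ x₀, ∃ (F G : M[X]) (d d' : M),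
      d ≠ 0 ∧ d' ≠ 0 ∧ ∀ x, Same B Q x₀ x → d * f x = F.eval x ∧ d' * g x = G.eval x := by
  classical
  obtain ⟨B, Q, hQ, h⟩ := two hf hg
  obtain ⟨B', Q', hQ', h'⟩ := hS
  refine ⟨B ∪ B', Q ∪ Q', ?_, ?_, fun x₀ => ?_⟩
  · intro q hq
    rcases Finset.mem_union.1 hq with hq | hq
    · exact hQ q hq
    · exact hQ' q hq
  · intro x y hxy
    exact h' x y (sMono Finset.subset_union_right Finset.subset_union_right hxy)
  · obtain ⟨F, G, d, d', hd, hd', e⟩ := h x₀
    exact ⟨F, G, d, d', hd, hd', fun x hx =>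
      e x (sMono Finset.subset_union_left Finset.subset_union_left hx)⟩

variable [IsStrictOrderedRing M]

theorem poly (F : M[X]) : TFun (fun x => F.eval x) :=
  ⟨∅, ∅, fun q hq => absurd hq (Finset.notMem_empty q),
    fun _ => ⟨F, 1, one_ne_zero, fun x _ => one_mul _⟩⟩

/-- a function which is, on every class, a tame function divided by a nonzero element -/
theorem scale (hLOC : S_TLOC) {h : M → M} (B : Finset M) (Q : Finset (M × M)) (hQ : NZ Q)
    (H : ∀ x₀, ∃ (c : M) (u : M → M), c ≠ 0 ∧ TFun u ∧ ∀ x, Same B Q x₀ x → c * h x = u x) :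
    TFun h := by
  classical
  refine (hLOC M B Q hQ).2 h fun x₀ => ?_
  obtain ⟨c, u, hc, ⟨B', Q', hQ', hu⟩, e⟩ := H x₀
  refine ⟨fun x => if Same B Q x₀ x then h x else 0, ?_, fun x hx => by
    change h x = if Same B Q x₀ x then h x else 0
    rw [if_pos hx]⟩
  refine ⟨B ∪ B', Q ∪ Q', ?_, fun x₁ => ?_⟩
  · intro q hq
    rcases Finset.mem_union.1 hq with hq | hq
    · exact hQ q hq
    · exact hQ' q hq
  · obtain ⟨G, d, hd, e'⟩ := hu x₁
    by_cases h1 : Same B Q x₀ x₁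
    · refine ⟨G, d * c, mul_ne_zero hd hc, fun x hx => ?_⟩
      have h2 : Same B Q x₀ x :=
        sTrans h1 (sMono Finset.subset_union_left Finset.subset_union_left hx)
      change d * c * (if Same B Q x₀ x then h x else 0) = _
      rw [if_pos h2, mul_assoc, e x h2]
      exact e' x (sMono Finset.subset_union_right Finset.subset_union_right hx)
    · refine ⟨0, 1, one_ne_zero, fun x hx => ?_⟩
      have h2 : ¬ Same B Q x₀ x := fun h3 =>
        h1 (sTrans h3 (sSymm (sMono Finset.subset_union_left Finset.subset_union_left hx)))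
      change 1 * (if Same B Q x₀ x then h x else 0) = _
      rw [if_neg h2, eval_zero, mul_zero]

theorem add {f g : M → M} (hf : TFun f) (hg : TFun g) : TFun (fun x => f x + g x) := by
  obtain ⟨B, Q, hQ, h⟩ := two hf hg
  refine ⟨B, Q, hQ, fun x₀ => ?_⟩
  obtain ⟨F, G, d, d', hd, hd', e⟩ := h x₀
  refine ⟨C d' * F + C d * G, d * d', mul_ne_zero hd hd', fun x hx => ?_⟩
  rw [eval_add, eval_mul, eval_mul, eval_C, eval_C, ← (e x hx).1, ← (e x hx).2]
  ring

theorem sub {f g : M → M} (hf : TFun f) (hg : TFun g) : TFun (fun x => f x - g x) := by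
  obtain ⟨B, Q, hQ, h⟩ := two hf hg
  refine ⟨B, Q, hQ, fun x₀ => ?_⟩
  obtain ⟨F, G, d, d', hd, hd', e⟩ := h x₀
  refine ⟨C d' * F - C d * G, d * d', mul_ne_zero hd hd', fun x hx => ?_⟩
  rw [eval_sub, eval_mul, eval_mul, eval_C, eval_C, ← (e x hx).1, ← (e x hx).2]
  ring

theorem mul {f g : M → M} (hf : TFun f) (hg : TFun g) : TFun (fun x => f x * g x) := by
  obtain ⟨B, Q, hQ, h⟩ := two hf hg
  refine ⟨B, Q, hQ, fun x₀ => ?_⟩
  obtain ⟨F, G, d, d', hd, hd', e⟩ := h x₀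
  refine ⟨F * G, d * d', mul_ne_zero hd hd', fun x hx => ?_⟩
  rw [eval_mul, ← (e x hx).1, ← (e x hx).2]
  ring

theorem tset_nonneg (hM : Alg M) (H : M[X]) : TSet {x : M | 0 ≤ H.eval x} := by
  obtain ⟨B, hB⟩ := hM.roots H
  exact ⟨B, ∅, fun q hq => absurd hq (Finset.notMem_empty q), fun x y hxy => hB x y hxy.1⟩

theorem le (hLOC : S_TLOC) (hM : Alg M) {f g : M → M} (hf : TFun f) (hg : TFun g) :
    TSet {x | f x ≤ g x} := by
  obtain ⟨B, Q, hQ, h⟩ := two hf hg
  refine (hLOC M B Q hQ).1 _ fun x₀ => ?_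
  obtain ⟨F, G, d, d', hd, hd', e⟩ := h x₀
  refine ⟨{x | 0 ≤ (C (d ^ 2 * d') * G - C (d' ^ 2 * d) * F).eval x}, tset_nonneg hM _,
    fun x hx => ?_⟩
  rw [Set.mem_ofPred_eq, Set.mem_ofPred_eq, eval_sub, eval_mul, eval_mul, eval_C, eval_C,
    ← (e x hx).1, ← (e x hx).2]
  have h1 : d ^ 2 * d' * (d' * g x) - d' ^ 2 * d * (d * f x) = (d * d') ^ 2 * (g x - f x) := by
    ring
  have h2 : 0 < (d * d') ^ 2 := by
    have := mul_ne_zero hd hd'
    positivity
  rw [h1, mul_nonneg_iff_of_pos_left h2, sub_nonneg]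

theorem dvd (hLOC : S_TLOC) (hM : Alg M) (hPOL : S_TPOL) {f g : M → M} (hf : TFun f)
    (hg : TFun g) : TSet {x | f x ∣ g x} := by
  obtain ⟨B, Q, hQ, h⟩ := two hf hg
  refine (hLOC M B Q hQ).1 _ fun x₀ => ?_
  obtain ⟨F, G, d, d', hd, hd', e⟩ := h x₀
  refine ⟨{x | (C d' * F).eval x ∣ (C d * G).eval x}, (hPOL M hM _ _).1, fun x hx => ?_⟩
  rw [Set.mem_ofPred_eq, Set.mem_ofPred_eq, eval_mul, eval_mul, eval_C, eval_C,
    ← (e x hx).1, ← (e x hx).2]
  have h1 : d' * (d * f x) = (d * d') * f x := by ring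
  have h2 : d * (d' * g x) = (d * d') * g x := by ring
  rw [h1, h2, mul_dvd_mul_iff_left (mul_ne_zero hd hd')]

theorem gcd (hLOC : S_TLOC) (hM : Alg M) (hGCD : S_GCD) (hPOL : S_TPOL) {f g : M → M}
    (hf : TFun f) (hg : TFun g) : TFun (fun x => gcdM (f x) (g x)) := by
  obtain ⟨B, Q, hQ, h⟩ := two hf hg
  refine scale hLOC B Q hQ fun x₀ => ?_
  obtain ⟨F, G, d, d', hd, hd', e⟩ := h x₀
  refine ⟨|d * d'|, fun x => gcdM ((C d' * F).eval x) ((C d * G).eval x),
    abs_ne_zero.2 (mul_ne_zero hd hd'), (hPOL M hM _ _).2.1, fun x hx => ?_⟩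
  have h1 : (C d' * F).eval x = (d * d') * f x := by
    rw [eval_mul, eval_C, ← (e x hx).1]
    ring
  have h2 : (C d * G).eval x = (d * d') * g x := by
    rw [eval_mul, eval_C, ← (e x hx).2]
    ring
  change |d * d'| * gcdM (f x) (g x) = gcdM ((C d' * F).eval x) ((C d * G).eval x)
  rw [h1, h2]
  exact ((hGCD M hM).2.2.2.1 (d * d') (f x) (g x)).symm

theorem quo (hLOC : S_TLOC) (hM : Alg M) (hGCD : S_GCD) (hPOL : S_TPOL) {f g : M → M}
    (hf : TFun f) (hg : TFun g) : TFun (fun x => quoM (f x) (g x)) := by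
  obtain ⟨B, Q, hQ, h⟩ := two hf hg
  refine scale hLOC B Q hQ fun x₀ => ?_
  obtain ⟨F, G, d, d', hd, hd', e⟩ := h x₀
  refine ⟨1, fun x => quoM ((C d' * F).eval x) ((C d * G).eval x),
    one_ne_zero, (hPOL M hM _ _).2.2, fun x hx => ?_⟩
  have h1 : (C d' * F).eval x = (d * d') * f x := by
    rw [eval_mul, eval_C, ← (e x hx).1]
    ring
  have h2 : (C d * G).eval x = (d * d') * g x := by
    rw [eval_mul, eval_C, ← (e x hx).2]
    ring
  change 1 * quoM (f x) (g x) = quoM ((C d' * F).eval x) ((C d * G).eval x)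
  rw [h1, h2, one_mul]
  exact ((hGCD M hM).2.2.2.2.2.2.1 (d * d') (f x) (g x) (mul_ne_zero hd hd')).symm

theorem flo (hLOC : S_TLOC) (hM : Alg M) (hDVD : S_TDVD) (hGCD : S_GCD) {f : M → M}
    (hf : TFun f) (n : ℕ) (hn : 0 < n) : TFun (fun x => floM (f x) n) := by
  classical
  obtain ⟨B, Q, hQ, h⟩ := hf
  refine (hLOC M B Q hQ).2 _ fun x₀ => ?_
  obtain ⟨F, d, hd, e⟩ := h x₀
  have hn0 : (n : M) ≠ 0 := by
    have : (0 : M) < n := by exact_mod_cast hn
    exact this.ne'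
  have h1 : ∀ r : ℕ, TSet {x : M | d * n ∣ (F - C (d * r)).eval x} :=
    fun r => hDVD M hM _ _ (mul_ne_zero hd hn0)
  choose B' Q' hQ' h' using h1
  refine ⟨fun x => if Same B Q x₀ x then floM (f x) n else 0, ?_, fun x hx => by
    change floM (f x) n = if Same B Q x₀ x then floM (f x) n else 0
    rw [if_pos hx]⟩
  refine ⟨B ∪ (Finset.range n).biUnion B', Q ∪ (Finset.range n).biUnion Q', ?_, fun x₁ => ?_⟩
  · intro q hq
    rcases Finset.mem_union.1 hq with hq | hq
    · exact hQ q hq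
    · obtain ⟨r, _, hr⟩ := Finset.mem_biUnion.1 hq
      exact hQ' r q hr
  · by_cases h1 : Same B Q x₀ x₁
    · obtain ⟨c, r, hr, hc⟩ := (hGCD M hM).2.2.2.2.2.2.2.2.1 (f x₁) n hn
      refine ⟨F - C (d * r), d * n, mul_ne_zero hd hn0, fun x hx => ?_⟩
      have h2 : Same B Q x₀ x :=
        sTrans h1 (sMono Finset.subset_union_left Finset.subset_union_left hx)
      have h3 : Same (B' r) (Q' r) x₁ x := by
        refine sMono ?_ ?_ hx
        · exact (Finset.subset_biUnion_of_mem B' (Finset.mem_range.2 hr)).trans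
            Finset.subset_union_right
        · exact (Finset.subset_biUnion_of_mem Q' (Finset.mem_range.2 hr)).trans
            Finset.subset_union_right
      have h4 : x₁ ∈ {x : M | d * n ∣ (F - C (d * r)).eval x} := by
        refine ⟨c, ?_⟩
        rw [eval_sub, eval_C, ← e x₁ h1, hc]
        ring
      obtain ⟨c', hc'⟩ := (h' r x₁ x h3).1 h4
      rw [eval_sub, eval_C, ← e x h2] at hc'
      have h5 : f x = n * c' + r := by
        have h6 : d * (f x - (n * c' + r)) = 0 := by linear_combination hc'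
        rcases mul_eq_zero.1 h6 with h7 | h7
        · exact absurd h7 hd
        · exact sub_eq_zero.1 h7
      have hr' : (r : M) < n := by exact_mod_cast hr
      have hr0 : (0 : M) ≤ r := Nat.cast_nonneg r
      have h6 : floM (f x) n = c' := by
        refine (hGCD M hM).2.2.2.2.2.2.2.1 (f x) c' n hn ?_ ?_
        · rw [h5]
          linarith
        · rw [h5]
          linarith
      change d * n * (if Same B Q x₀ x then floM (f x) n else 0) = _
      rw [if_pos h2, h6, eval_sub, eval_C, ← e x h2, h5]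
      ring
    · refine ⟨0, 1, one_ne_zero, fun x hx => ?_⟩
      have h2 : ¬ Same B Q x₀ x := fun h3 =>
        h1 (sTrans h3 (sSymm (sMono Finset.subset_union_left Finset.subset_union_left hx)))
      change 1 * (if Same B Q x₀ x then floM (f x) n else 0) = _
      rw [if_neg h2, eval_zero, mul_zero]

theorem cases {f g : M → M} (hf : TFun f) (hg : TFun g) (S : Set M) (hS : TSet S) (h : M → M)
    (h1 : ∀ x ∈ S, h x = f x) (h2 : ∀ x, x ∉ S → h x = g x) : TFun h := by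
  obtain ⟨B, Q, hQ, hs, H⟩ := three hS hf hg
  refine ⟨B, Q, hQ, fun x₀ => ?_⟩
  obtain ⟨F, G, d, d', hd, hd', e⟩ := H x₀
  by_cases hx₀ : x₀ ∈ S
  · refine ⟨F, d, hd, fun x hx => ?_⟩
    rw [h1 x ((hs x₀ x hx).1 hx₀)]
    exact (e x hx).1
  · refine ⟨G, d', hd', fun x hx => ?_⟩
    rw [h2 x fun hxS => hx₀ ((hs x₀ x hx).2 hxS)]
    exact (e x hx).2

end

end TOPS

open TOPS in
theorem t_TOPS : M_TOPS := by
  intro hLOC hBOOL hDVD hGCD hPOL M _ _ _ hM
  refine ⟨?_, ?_, ?_⟩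
  · have := poly (X : M[X])
    simpa using this
  · intro a
    have := poly (C a : M[X])
    simpa using this
  · intro f g hf hg
    refine ⟨add hf hg, sub hf hg, mul hf hg, le hLOC hM hf hg, ?_, dvd hLOC hM hPOL hf hg,
      gcd hLOC hM hGCD hPOL hf hg, quo hLOC hM hGCD hPOL hf hg,
      fun n hn => flo hLOC hM hDVD hGCD hf n hn, fun S hS h h1 h2 => cases hf hg S hS h h1 h2⟩
    have h1 : {x | f x = g x} = {x | f x ≤ g x} ∩ {x | g x ≤ f x} := by
      ext x
      exact le_antisymm_iff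
    rw [h1]
    exact (hBOOL M).2.1 _ _ (le hLOC hM hf hg) (le hLOC hM hg hf)

end OIE
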