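import Pool.Agent.OIE.Stmts2

/-!
# Module WIN: windows
-/

namespace OIE

open OID

namespace WIN

variable {M : Type} [CommRing M] [LinearOrder M] [IsStrictOrderedRing M]

/-- a divisor of a standard element that is not zero is standard -/
theorem std_of_dvd (h : Alg M) {e y : M} (hy : Std y) (h0 : y ≠ 0) (hd : e ∣ y) : Std e := by
  obtain ⟨c, rfl⟩ := hd
  obtain ⟨n, hn⟩ := hy
  refine ⟨n, le_trans ?_ hn⟩
  rw [abs_mul]
  have hc : c ≠ 0 := right_ne_zero_of_mul h0
  have h1 : 1 ≤ |c| := h.disc _ (abs_pos.2 hc)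
  calc |e| = |e| * 1 := (mul_one _).symm
    _ ≤ |e| * |c| := mul_le_mul_of_nonneg_left h1 (abs_nonneg _)

theorem std_mul_nat {x : M} (hx : Std x) (i i' : ℕ) : Std (x * ((i : M) - i')) := by
  obtain ⟨n, hn⟩ := hx
  refine ⟨n * (i + i'), ?_⟩
  rw [abs_mul]
  push_cast
  have h1 : |(i : M) - i'| ≤ i + i' := by
    refine (abs_sub _ _).trans ?_
    rw [Nat.abs_cast, Nat.abs_cast]
  exact mul_le_mul hn h1 (abs_nonneg _) (Nat.cast_nonneg _)

theorem unique (h : Alg M) {e x y D : M} (he : ¬ Std e) (hD : Std D) (hD0 : D ≠ 0) {i i' : ℕ}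
    (h1 : e ∣ x + D * i - y) (h2 : e ∣ x + D * i' - y) : i = i' := by
  by_contra hne
  apply he
  have h3 : e ∣ D * ((i : M) - i') := by
    have := dvd_sub h1 h2
    have e1 : x + D * i - y - (x + D * i' - y) = D * ((i : M) - i') := by ring
    rwa [e1] at this
  refine std_of_dvd h (std_mul_nat hD i i') ?_ h3
  refine mul_ne_zero hD0 ?_
  rw [sub_ne_zero]
  exact fun hc => hne (Nat.cast_injective hc)

end WIN

open Classical in
theorem t_WIN : S_WIN := by
  intro M _ _ _ hM Q hQ k x D hD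
  refine ⟨(Finset.univ ×ˢ Q).image (fun p : Fin k × (M × M) =>
    if h : ∃ i : ℕ, p.2.2 ∣ x p.1 + D p.1 * i - p.2.1 then h.choose else 0), ?_, ?_⟩
  · refine Finset.card_image_le.trans ?_
    rw [Finset.card_product, Finset.card_univ, Fintype.card_fin]
  · intro i hi j q hq hd
    apply hi
    rw [Finset.mem_image]
    refine ⟨(j, q), Finset.mem_product.2 ⟨Finset.mem_univ _, hq⟩, ?_⟩
    have hex : ∃ i : ℕ, q.2 ∣ x j + D j * i - q.1 := ⟨i, hd⟩
    rw [dif_pos hex]
    exact WIN.unique hM (hQ q hq) (hD j).1 (hD j).2 hex.choose_spec hd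

end OIE
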